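import Mathlib

/-!
# Gauss elimination modulo a prime `q + 1`, on lists of natural numbers
-/

namespace Pool.Agent.H502_C3

/-- `v - x r` modulo `q + 1`. -/
def subm (q x : ℕ) (v r : List ℕ) : List ℕ :=
  List.zipWith (fun a b => (a + (q + 1 - x % (q + 1)) * b) % (q + 1)) v r

/-- The reduction of a vector by a reduced echelon basis (pivots with vectors). -/
def redv (q : ℕ) (R : List (ℕ × List ℕ)) (v : List ℕ) : List ℕ :=
  R.foldl (fun v e => subm q (v.getD e.1 0) v e.2) v

/-- The inverse modulo `q + 1`, found by search in the list `U`. -/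
def pinv (q : ℕ) (U : List ℕ) (a : ℕ) : ℕ :=
  ((U.filter (fun x => decide (a * x % (q + 1) = 1))).head?).getD 0

/-- One more vector with pivot `e.2` (and entry `e.1` there). -/
def addR (q : ℕ) (U : List ℕ) (R : List (ℕ × List ℕ)) (v : List ℕ) (e : ℕ × ℕ) :
    List (ℕ × List ℕ) :=
  R.map (fun r => (r.1, subm q (r.2.getD e.2 0) r.2 (v.map (fun a => a * pinv q U e.1 % (q + 1)))))
    ++ [(e.2, v.map (fun a => a * pinv q U e.1 % (q + 1)))]

/-- Insertion of a vector. -/
def insR (q : ℕ) (U : List ℕ) (R : List (ℕ × List ℕ)) (v : List ℕ) : List (ℕ × List ℕ) :=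
  (((redv q R v).zipIdx.filter (fun e => decide (e.1 % (q + 1) ≠ 0))).head?).elim R
    (addR q U R (redv q R v))

/-- A reduced echelon basis of the span of the vectors. -/
def ech (q : ℕ) (U : List ℕ) (vs : List (List ℕ)) : List (ℕ × List ℕ) := vs.foldl (insR q U) []

/-- The coordinates of a vector of the span. -/
def coords (R : List (ℕ × List ℕ)) (v : List ℕ) : List ℕ := R.map (fun e => v.getD e.1 0)

section Spec

variable {q : ℕ}

/-- The vector of a list. -/
def ev (q : ℕ) (v : List ℕ) : ℕ → ZMod (q + 1) := fun i => ((v.getD i 0 : ℕ) : ZMod (q + 1))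

theorem ev_apply (v : List ℕ) (i : ℕ) : ev q v i = ((v.getD i 0 : ℕ) : ZMod (q + 1)) := rfl

theorem ev_of_le {v : List ℕ} {i : ℕ} (h : v.length ≤ i) : ev q v i = 0 := by
  rw [ev_apply, List.getD_eq_default _ _ h, Nat.cast_zero]

theorem length_subm (x : ℕ) {v r : List ℕ} (h : r.length = v.length) :
    (subm q x v r).length = v.length := by
  simp [subm, h]

theorem cast_subm (a b x : ℕ) : (((a + (q + 1 - x % (q + 1)) * b) % (q + 1) : ℕ) : ZMod (q + 1)) =
    a - x * b := by
  have h1 : x % (q + 1) ≤ q + 1 := (Nat.mod_lt _ (Nat.succ_pos q)).le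
  rw [ZMod.natCast_mod, Nat.cast_add, Nat.cast_mul, Nat.cast_sub h1, ZMod.natCast_mod,
    ZMod.natCast_self]
  ring

theorem ev_subm (x : ℕ) {v r : List ℕ} (h : r.length = v.length) :
    ev q (subm q x v r) = ev q v - (x : ZMod (q + 1)) • ev q r := by
  ext i
  rw [Pi.sub_apply, Pi.smul_apply, smul_eq_mul]
  by_cases hi : i < v.length
  · have h1 : i < (subm q x v r).length := by rwa [length_subm x h]
    rw [ev_apply, ev_apply, ev_apply, List.getD_eq_getElem _ _ h1, List.getD_eq_getElem _ _ hi,
      List.getD_eq_getElem _ _ (by omega : i < r.length)]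
    simp only [subm, List.getElem_zipWith]
    exact cast_subm _ _ _
  · rw [ev_of_le (by rw [length_subm x h]; omega), ev_of_le (by omega), ev_of_le (by omega)]
    ring

/-- The combination of the basis vectors with the entries of `x` at the pivots. -/
def rep (q : ℕ) (R : List (ℕ × List ℕ)) (x : ℕ → ZMod (q + 1)) : ℕ → ZMod (q + 1) :=
  (R.map (fun e => x e.1 • ev q e.2)).sum

/-- Reduced echelon bases. -/
structure Ech (q n : ℕ) (R : List (ℕ × List ℕ)) : Prop where
  len : ∀ e ∈ R, e.2.length = n
  piv : ∀ e ∈ R, ev q e.2 e.1 = 1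
  pw : R.Pairwise (fun e e' => ev q e.2 e'.1 = 0 ∧ ev q e'.2 e.1 = 0)

theorem Ech.tail {n : ℕ} {e : ℕ × List ℕ} {R : List (ℕ × List ℕ)} (h : Ech q n (e :: R)) :
    Ech q n R :=
  ⟨fun e he => h.len e (List.mem_cons_of_mem _ he), fun e he => h.piv e (List.mem_cons_of_mem _ he),
    (List.pairwise_cons.1 h.pw).2⟩

theorem rep_apply (R : List (ℕ × List ℕ)) (x : ℕ → ZMod (q + 1)) (k : ℕ) :
    rep q R x k = (R.map (fun e => x e.1 * ev q e.2 k)).sum := by
  induction R with
  | nil => rfl
  | cons e R ih =>
    rw [List.map_cons, List.sum_cons, ← ih]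
    simp [rep]

theorem sum_zero_of {R : List (ℕ × List ℕ)} {f : ℕ × List ℕ → ZMod (q + 1)}
    (h : ∀ e ∈ R, f e = 0) : (R.map f).sum = 0 := by
  induction R with
  | nil => rfl
  | cons e R ih =>
    rw [List.map_cons, List.sum_cons, h e (by simp), zero_add]
    exact ih fun e he => h e (List.mem_cons_of_mem _ he)

theorem rep_piv {n : ℕ} {R : List (ℕ × List ℕ)} (h : Ech q n R) (x : ℕ → ZMod (q + 1)) :
    ∀ e ∈ R, rep q R x e.1 = x e.1 := by
  induction R with
  | nil => simp
  | cons e₀ R ih =>
    intro e he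
    have hp := List.pairwise_cons.1 h.pw
    rw [rep_apply, List.map_cons, List.sum_cons]
    rcases List.mem_cons.1 he with rfl | he
    · rw [h.piv e (by simp), mul_one, sum_zero_of, add_zero]
      intro e' he'
      rw [(hp.1 e' he').2, mul_zero]
    · rw [(hp.1 e he).1, mul_zero, zero_add, ← rep_apply]
      exact ih h.tail e he

theorem length_redv {n : ℕ} : ∀ (R : List (ℕ × List ℕ)) (v : List ℕ), (∀ e ∈ R, e.2.length = n) →
    v.length = n → (redv q R v).length = n
  | [], v, _, hv => hv
  | e :: R, v, h, hv => by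
    have h1 := h e (by simp)
    exact length_redv R _ (fun e he => h e (List.mem_cons_of_mem _ he))
      (by rw [length_subm _ (h1.trans hv.symm)]; exact hv)

theorem ev_redv {n : ℕ} : ∀ (R : List (ℕ × List ℕ)) (v : List ℕ), Ech q n R → v.length = n →
    ev q (redv q R v) = ev q v - rep q R (ev q v) := by
  intro R
  induction R with
  | nil => intro v _ _; simp [redv, rep]
  | cons e R ih =>
    intro v h hv
    have h1 := h.len e (by simp)
    have hp := List.pairwise_cons.1 h.pw
    have h3 := ih (subm q (v.getD e.1 0) v e.2) h.tail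
      (by rw [length_subm _ (h1.trans hv.symm)]; exact hv)
    have h4 : redv q (e :: R) v = redv q R (subm q (v.getD e.1 0) v e.2) := rfl
    rw [h4, h3, ev_subm _ (h1.trans hv.symm)]
    have h5 : rep q R (ev q v - ((v.getD e.1 0 : ℕ) : ZMod (q + 1)) • ev q e.2) =
        rep q R (ev q v) := by
      unfold rep
      congr 1
      refine List.map_congr_left fun e' he' => ?_
      rw [Pi.sub_apply, Pi.smul_apply, (hp.1 e' he').1, smul_zero, sub_zero]
    rw [h5]
    have h6 : rep q (e :: R) (ev q v) = ev q v e.1 • ev q e.2 + rep q R (ev q v) := by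
      simp [rep]
    rw [h6, ev_apply v e.1]
    abel

theorem pinv_spec [hp : Fact (q + 1).Prime] {U : List ℕ} (hU : ∀ x < q + 1, x ∈ U) {a : ℕ}
    (ha : (a : ZMod (q + 1)) ≠ 0) : (a : ZMod (q + 1)) * (pinv q U a : ℕ) = 1 := by
  have hq : 1 < q + 1 := hp.out.one_lt
  have key : ∀ x : ℕ, a * x % (q + 1) = 1 ↔ (a : ZMod (q + 1)) * (x : ℕ) = 1 := by
    intro x
    have h1 : ((1 : ℕ) : ZMod (q + 1)) = 1 := Nat.cast_one
    rw [← Nat.cast_mul, ← h1, ZMod.natCast_eq_natCast_iff', Nat.mod_eq_of_lt hq]
  have h1 : ((a : ZMod (q + 1))⁻¹).val ∈ U.filter (fun x => decide (a * x % (q + 1) = 1)) := by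
    rw [List.mem_filter]
    refine ⟨hU _ (ZMod.val_lt _), ?_⟩
    rw [decide_eq_true_eq, key, ZMod.natCast_zmod_val, mul_inv_cancel₀ ha]
  unfold pinv
  cases h2 : (U.filter (fun x => decide (a * x % (q + 1) = 1))).head? with
  | none =>
    rw [List.head?_eq_none_iff] at h2
    rw [h2] at h1
    simp at h1
  | some x =>
    have h3 := List.mem_of_mem_head? (Option.mem_def.2 h2)
    rw [List.mem_filter, decide_eq_true_eq, key] at h3
    exact h3.2

theorem ev_scale (v : List ℕ) (y : ℕ) :
    ev q (v.map (fun a => a * y % (q + 1))) = (y : ZMod (q + 1)) • ev q v := by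
  ext i
  rw [Pi.smul_apply, smul_eq_mul]
  by_cases hi : i < v.length
  · rw [ev_apply, ev_apply, List.getD_eq_getElem _ _ (by simpa using hi),
      List.getD_eq_getElem _ _ hi, List.getElem_map, ZMod.natCast_mod, Nat.cast_mul, mul_comm]
  · rw [ev_of_le (by simpa using hi), ev_of_le (by omega), mul_zero]

theorem rep_addR {n : ℕ} {R : List (ℕ × List ℕ)} (h : Ech q n R) {U v : List ℕ} {e : ℕ × ℕ}
    (hv : v.length = n) (x : ℕ → ZMod (q + 1)) :
    rep q (addR q U R v e) x = rep q R x +
      (x e.2 - rep q R x e.2) • ev q (v.map (fun a => a * pinv q U e.1 % (q + 1))) := by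
  set w := v.map (fun a => a * pinv q U e.1 % (q + 1)) with hw
  have hwl : w.length = n := by rw [hw, List.length_map, hv]
  have h1 : rep q (addR q U R v e) x =
      (R.map (fun r => x r.1 • (ev q r.2 - ev q r.2 e.2 • ev q w))).sum + x e.2 • ev q w := by
    unfold rep addR
    rw [List.map_append, List.sum_append, List.map_map, List.map_singleton, List.sum_singleton]
    congr 2
    refine List.map_congr_left fun r hr => ?_
    simp only [Function.comp_apply]
    rw [ev_subm _ (by rw [List.length_map, hv, h.len r hr])]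
    rfl
  rw [h1]
  have h2 : (R.map (fun r => x r.1 • (ev q r.2 - ev q r.2 e.2 • ev q w))).sum =
      rep q R x - rep q R x e.2 • ev q w := by
    rw [rep_apply]
    unfold rep
    clear h1 h
    induction R with
    | nil => simp
    | cons r R ih =>
      rw [List.map_cons, List.sum_cons, ih, List.map_cons, List.sum_cons, List.map_cons,
        List.sum_cons, add_smul, smul_sub, smul_smul]
      abel
  rw [h2, sub_smul]
  abel

/-- What an insertion gives. -/
theorem insR_spec [hp : Fact (q + 1).Prime] {n : ℕ} {R : List (ℕ × List ℕ)} (h : Ech q n R)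
    {U v : List ℕ} (hU : ∀ x < q + 1, x ∈ U) (hv : v.length = n) :
    Ech q n (insR q U R v) ∧ (∀ x, rep q R x = x → rep q (insR q U R v) x = x) ∧
      rep q (insR q U R v) (ev q v) = ev q v ∧
      ∀ e ∈ insR q U R v, ev q e.2 ∈ Submodule.span (ZMod (q + 1))
        ({x | ∃ e ∈ R, x = ev q e.2} ∪ {ev q v}) := by
  have hred := ev_redv R v h hv
  have hlen := length_redv (q := q) R v h.len hv
  set v' := redv q R v with hv'
  have hspanR : ∀ e ∈ R, ev q e.2 ∈ Submodule.span (ZMod (q + 1))
      ({x | ∃ e ∈ R, x = ev q e.2} ∪ {ev q v}) :=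
    fun e he => Submodule.subset_span (Or.inl ⟨e, he, rfl⟩)
  unfold insR
  rw [← hv']
  cases hc : (v'.zipIdx.filter (fun e => decide (e.1 % (q + 1) ≠ 0))).head? with
  | none =>
    simp only [Option.elim]
    rw [List.head?_eq_none_iff, List.filter_eq_nil_iff] at hc
    have h0 : ev q v' = 0 := by
      ext i
      by_cases hi : i < v'.length
      · have h1 := hc (v'[i], i) (by
          rw [List.mem_zipIdx_iff_getElem?]
          simp [hi])
        rw [decide_eq_true_eq, not_not] at h1
        rw [ev_apply, List.getD_eq_getElem _ _ hi, Pi.zero_apply,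
          ZMod.natCast_eq_zero_iff]
        exact Nat.dvd_of_mod_eq_zero h1
      · rw [ev_of_le (by omega)]; rfl
    rw [h0] at hred
    exact ⟨h, fun x hx => hx, (sub_eq_zero.1 hred.symm).symm, hspanR⟩
  | some e =>
    simp only [Option.elim]
    have he := List.mem_of_mem_head? (Option.mem_def.2 hc)
    rw [List.mem_filter, List.mem_zipIdx_iff_getElem?, decide_eq_true_eq] at he
    obtain ⟨he1, he2⟩ := he
    have he3 : v'.getD e.2 0 = e.1 := by rw [List.getD_eq_getElem?_getD, he1]; rfl
    have he4 : ev q v' e.2 = (e.1 : ℕ) := by rw [ev_apply, he3]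
    have he5 : ((e.1 : ℕ) : ZMod (q + 1)) ≠ 0 := by
      rw [Ne, ZMod.natCast_eq_zero_iff]
      intro hd
      exact he2 (Nat.mod_eq_zero_of_dvd hd)
    have hinv := pinv_spec hU he5
    have hrep := rep_addR (U := U) (e := e) h hlen
    set w := v'.map (fun a => a * pinv q U e.1 % (q + 1)) with hw
    have hwe : ev q w = ((pinv q U e.1 : ℕ) : ZMod (q + 1)) • ev q v' := ev_scale _ _
    have hwl : w.length = n := by rw [hw, List.length_map, hlen]
    have hwk : ev q w e.2 = 1 := by
      rw [hwe, Pi.smul_apply, he4, smul_eq_mul, mul_comm, hinv]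
    have hv'0 : ∀ r ∈ R, ev q v' r.1 = 0 := by
      intro r hr
      rw [hred, Pi.sub_apply, rep_piv h _ r hr, sub_self]
    have hw0 : ∀ r ∈ R, ev q w r.1 = 0 := by
      intro r hr
      rw [hwe, Pi.smul_apply, hv'0 r hr, smul_zero]
    have hsub : ∀ r ∈ R, ev q (subm q (r.2.getD e.2 0) r.2 w) =
        ev q r.2 - ev q r.2 e.2 • ev q w := by
      intro r hr
      rw [ev_subm _ (by rw [hwl, h.len r hr])]
      rfl
    have hrepv : rep q R (ev q v) ∈ Submodule.span (ZMod (q + 1))
        ({x | ∃ e ∈ R, x = ev q e.2} ∪ {ev q v}) := by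
      have key : ∀ R' : List (ℕ × List ℕ), (∀ e ∈ R', e ∈ R) → rep q R' (ev q v) ∈
          Submodule.span (ZMod (q + 1)) ({x | ∃ e ∈ R, x = ev q e.2} ∪ {ev q v}) := by
        intro R'
        induction R' with
        | nil => intro _; exact Submodule.zero_mem _
        | cons r R' ih =>
          intro hR
          have : rep q (r :: R') (ev q v) = ev q v r.1 • ev q r.2 + rep q R' (ev q v) := by
            simp [rep]
          rw [this]
          exact Submodule.add_mem _ (Submodule.smul_mem _ _ (hspanR r (hR r (by simp))))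
            (ih fun e he => hR e (List.mem_cons_of_mem _ he))
      exact key R fun e he => he
    have hv'span : ev q v' ∈ Submodule.span (ZMod (q + 1))
        ({x | ∃ e ∈ R, x = ev q e.2} ∪ {ev q v}) := by
      rw [hred]
      exact Submodule.sub_mem _ (Submodule.subset_span (Or.inr rfl)) hrepv
    have hwspan : ev q w ∈ Submodule.span (ZMod (q + 1))
        ({x | ∃ e ∈ R, x = ev q e.2} ∪ {ev q v}) := by
      rw [hwe]
      exact Submodule.smul_mem _ _ hv'span
    refine ⟨⟨?_, ?_, ?_⟩, ?_, ?_, ?_⟩
    · intro r hr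
      unfold addR at hr
      rw [← hw, List.mem_append, List.mem_map, List.mem_singleton] at hr
      rcases hr with ⟨r', hr', rfl⟩ | rfl
      · simp only
        rw [length_subm _ (by rw [hwl, h.len r' hr']), h.len r' hr']
      · exact hwl
    · intro r hr
      unfold addR at hr
      rw [← hw, List.mem_append, List.mem_map, List.mem_singleton] at hr
      rcases hr with ⟨r', hr', rfl⟩ | rfl
      · simp only
        rw [hsub r' hr', Pi.sub_apply, Pi.smul_apply, hw0 r' hr', smul_zero, sub_zero, h.piv r' hr']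
      · exact hwk
    · unfold addR
      rw [← hw, List.pairwise_append]
      refine ⟨?_, List.pairwise_singleton _ _, ?_⟩
      · rw [List.pairwise_map]
        refine List.Pairwise.imp_of_mem ?_ h.pw
        intro r r' hr hr' hh
        simp only
        rw [hsub r hr, hsub r' hr']
        simp [hh.1, hh.2, hw0 r hr, hw0 r' hr']
      · intro r hr r' hr'
        rw [List.mem_singleton] at hr'
        subst hr'
        rw [List.mem_map] at hr
        obtain ⟨r', hr', rfl⟩ := hr
        simp only
        rw [hsub r' hr']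
        simp [hwk, hw0 r' hr']
    · intro x hx
      rw [hrep x, hx, sub_self, zero_smul, add_zero]
    · rw [hrep (ev q v)]
      have h1 : ev q v e.2 - rep q R (ev q v) e.2 = (e.1 : ℕ) := by
        rw [← he4, hred, Pi.sub_apply]
      rw [h1, hwe, smul_smul, hinv, one_smul, hred]
      abel
    · intro r hr
      unfold addR at hr
      rw [← hw, List.mem_append, List.mem_map, List.mem_singleton] at hr
      rcases hr with ⟨r', hr', rfl⟩ | rfl
      · simp only
        rw [hsub r' hr']
        exact Submodule.sub_mem _ (hspanR r' hr') (Submodule.smul_mem _ _ hwspan)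
      · exact hwspan

theorem foldl_insR_spec [hp : Fact (q + 1).Prime] {n : ℕ} {U : List ℕ}
    (hU : ∀ x < q + 1, x ∈ U) : ∀ (vs : List (List ℕ)) (R : List (ℕ × List ℕ)), Ech q n R →
    (∀ v ∈ vs, v.length = n) →
    Ech q n (vs.foldl (insR q U) R) ∧
      (∀ x, rep q R x = x → rep q (vs.foldl (insR q U) R) x = x) ∧
      (∀ v ∈ vs, rep q (vs.foldl (insR q U) R) (ev q v) = ev q v) ∧
      ∀ e ∈ vs.foldl (insR q U) R, ev q e.2 ∈ Submodule.span (ZMod (q + 1))
        ({x | ∃ e ∈ R, x = ev q e.2} ∪ {x | ∃ v ∈ vs, x = ev q v}) := by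
  intro vs
  induction vs with
  | nil =>
    intro R h _
    exact ⟨h, fun x hx => hx, by simp, fun e he => Submodule.subset_span (Or.inl ⟨e, he, rfl⟩)⟩
  | cons v vs ih =>
    intro R h hvs
    obtain ⟨h1, h2, h3, h4⟩ := insR_spec (v := v) h hU (hvs v (by simp))
    obtain ⟨h5, h6, h7, h8⟩ := ih (insR q U R v) h1 fun v hv => hvs v (List.mem_cons_of_mem _ hv)
    rw [List.foldl_cons]
    refine ⟨h5, fun x hx => h6 x (h2 x hx), ?_, ?_⟩
    · intro v' hv'
      rcases List.mem_cons.1 hv' with rfl | hv'
      · exact h6 _ h3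
      · exact h7 v' hv'
    · intro e he
      refine Submodule.span_le.2 ?_ (h8 e he)
      rintro x (⟨e', he', rfl⟩ | ⟨v', hv', rfl⟩)
      · refine Submodule.span_mono ?_ (h4 e' he')
        rintro x (⟨e'', he'', rfl⟩ | hx)
        · exact Or.inl ⟨e'', he'', rfl⟩
        · rw [Set.mem_singleton_iff] at hx
          exact Or.inr ⟨v, by simp, hx⟩
      · exact Submodule.subset_span (Or.inr ⟨v', List.mem_cons_of_mem _ hv', rfl⟩)

theorem sum_getD {α M : Type} [AddCommMonoid M] (l : List α) (d : α) (f : α → M) :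
    (l.map f).sum = ∑ i ∈ Finset.range l.length, f (l.getD i d) := by
  induction l with
  | nil => rfl
  | cons a l ih =>
    rw [List.map_cons, List.sum_cons, List.length_cons, Finset.sum_range_succ', ih, add_comm]
    rfl

/-- The specification of the elimination. -/
theorem ech_spec [hp : Fact (q + 1).Prime] {n : ℕ} {U : List ℕ} (hU : ∀ x < q + 1, x ∈ U)
    (vs : List (List ℕ)) (hvs : ∀ v ∈ vs, v.length = n) :
    (∀ r ∈ (ech q U vs).map Prod.snd, r.length = n) ∧
    (∀ v ∈ vs, ev q v = ∑ i ∈ Finset.range ((ech q U vs).map Prod.snd).length,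
      ev q (coords (ech q U vs) v) i • ev q (((ech q U vs).map Prod.snd).getD i [])) ∧
    (∀ a : ℕ → ZMod (q + 1), ∑ i ∈ Finset.range ((ech q U vs).map Prod.snd).length,
      a i • ev q (((ech q U vs).map Prod.snd).getD i []) = 0 →
        ∀ i < ((ech q U vs).map Prod.snd).length, a i = 0) ∧
    ∀ r ∈ (ech q U vs).map Prod.snd, ev q r ∈ Submodule.span (ZMod (q + 1))
      {x | ∃ v ∈ vs, x = ev q v} := by
  obtain ⟨h1, -, h3, h4⟩ := foldl_insR_spec (n := n) hU vs []
    ⟨by simp, by simp, List.Pairwise.nil⟩ hvs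
  change Ech q n (ech q U vs) at h1
  change ∀ v ∈ vs, rep q (ech q U vs) (ev q v) = ev q v at h3
  change ∀ e ∈ ech q U vs, _ at h4
  set R := ech q U vs with hR
  have hget : ∀ i, i < R.length → (R.map Prod.snd).getD i [] = (R.getD i (0, [])).2 := by
    intro i hi
    rw [List.getD_eq_getElem _ _ (by simpa using hi), List.getD_eq_getElem _ _ hi,
      List.getElem_map]
  refine ⟨?_, ?_, ?_, ?_⟩
  · intro r hr
    obtain ⟨e, he, rfl⟩ := List.mem_map.1 hr
    exact h1.len e he
  · intro v hv
    rw [List.length_map]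
    conv_lhs => rw [← h3 v hv]
    unfold rep
    rw [sum_getD R (0, [])]
    refine Finset.sum_congr rfl fun i hi => ?_
    rw [Finset.mem_range] at hi
    rw [hget i hi]
    congr 1
    rw [ev_apply, ev_apply]
    congr 1
    unfold coords
    rw [List.getD_eq_getElem (R.map _) _ (by simpa using hi), List.getElem_map,
      List.getD_eq_getElem R _ hi]
  · intro a ha i hi
    rw [List.length_map] at ha hi
    -- evaluate at the pivot
    have h5 : ∀ j, j < R.length → ev q (R.getD j (0, [])).2 (R.getD i (0, [])).1 =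
        if j = i then 1 else 0 := by
      intro j hj
      rw [List.getD_eq_getElem _ _ hj, List.getD_eq_getElem _ _ hi]
      rcases lt_trichotomy j i with h | h | h
      · rw [if_neg (by omega)]
        exact (List.pairwise_iff_getElem.1 h1.pw j i hj hi h).1
      · subst h
        rw [if_pos rfl]
        exact h1.piv _ (List.getElem_mem _)
      · rw [if_neg (by omega)]
        exact (List.pairwise_iff_getElem.1 h1.pw i j hi hj h).2
    have h6 := congrFun ha (R.getD i (0, [])).1
    rw [Finset.sum_apply, Pi.zero_apply] at h6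
    have h7 : ∑ j ∈ Finset.range R.length,
        (a j • ev q ((R.map Prod.snd).getD j [])) (R.getD i (0, [])).1 =
        ∑ j ∈ Finset.range R.length, if j = i then a j else 0 := by
      refine Finset.sum_congr rfl fun j hj => ?_
      rw [Finset.mem_range] at hj
      rw [hget j hj, Pi.smul_apply, h5 j hj, smul_eq_mul]
      split_ifs <;> simp
    rw [h7, Finset.sum_ite_eq' (Finset.range R.length) i, if_pos (Finset.mem_range.2 hi)] at h6
    exact h6
  · intro r hr
    obtain ⟨e, he, rfl⟩ := List.mem_map.1 hr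
    refine Submodule.span_mono ?_ (h4 e he)
    rintro x (⟨e', he', _⟩ | hx)
    · simp at he'
    · exact hx

end Spec

end Pool.Agent.H502_C3
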