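import Pool.Agent.H502_C3.Bound
import Pool.Agent.H502_C3.Gauss

/-!
# Weighted automata for the functions of the open chords

A layer is a list of states; a state is a vector with three blocks (one for each colour of the
first chord), whose entries are the coefficients with respect to the states of the next layer.
After the last layer there is one state, the function of the empty list.
-/

namespace Pool.Agent.H502_C3

/-- The number of states of the first layer. -/
def nst : List (List (List ℕ)) → ℕ
  | [] => 1
  | L :: _ => L.length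

/-- The block `c` of a vector with blocks of length `D`. -/
def row (D c : ℕ) (v : List ℕ) : List ℕ := (v.drop (c * D)).take D

/-- The product of a row with a matrix with rows of length `D'`, modulo `q + 1`. -/
def mulR (q D' : ℕ) (r : List ℕ) (C : List (List ℕ)) : List ℕ :=
  (List.range D').map fun u => (List.zipWith (fun a c => a * c.getD u 0) r C).sum % (q + 1)

/-- All the blocks of the vector are multiplied with `C`, the block `z` is replaced by zeros. -/
def vecA (q D D' z : ℕ) (C : List (List ℕ)) (v : List ℕ) : List ℕ :=
  (if 0 = z then List.replicate D' 0 else mulR q D' (row D 0 v) C) ++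
  ((if 1 = z then List.replicate D' 0 else mulR q D' (row D 1 v) C) ++
   (if 2 = z then List.replicate D' 0 else mulR q D' (row D 2 v) C))

/-- One layer of `avoidRec`. -/
def avoidStep (q : ℕ) (U : List ℕ) (D : ℕ) (L : List (List ℕ))
    (s : List (List (List ℕ)) × List (List ℕ) × List (List ℕ) × List (List ℕ)) :
    List (List (List ℕ)) × List (List ℕ) × List (List ℕ) × List (List ℕ) :=
  let V0 := L.map (vecA q D (nst s.1) 0 s.2.1)
  let V1 := L.map (vecA q D (nst s.1) 1 s.2.2.1)
  let V2 := L.map (vecA q D (nst s.1) 2 s.2.2.2)
  let R := ech q U (V0 ++ (V1 ++ V2))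
  (R.map Prod.snd :: s.1, V0.map (coords R), V1.map (coords R), V2.map (coords R))

/-- The closing of an older chord, for the three possible colours. -/
def avoidRec (q : ℕ) (U : List ℕ) : List (List (List ℕ)) →
    List (List (List ℕ)) × List (List ℕ) × List (List ℕ) × List (List ℕ)
  | [] => ([], [[1]], [[1]], [[1]])
  | L :: Ls => avoidStep q U (nst Ls) L (avoidRec q U Ls)

/-- One layer of `closeRec`, before the closed chord. -/
def closeStep (q : ℕ) (U : List ℕ) (D : ℕ) (L : List (List ℕ))
    (s : List (List (List ℕ)) × List (List ℕ)) : List (List (List ℕ)) × List (List ℕ) :=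
  let Vs := L.map (vecA q D (nst s.1) 3 s.2)
  let R := ech q U Vs
  (R.map Prod.snd :: s.1, Vs.map (coords R))

/-- The layer of the closed chord. -/
def mergeStep (q : ℕ) (L : List (List ℕ))
    (s : List (List (List ℕ)) × List (List ℕ) × List (List ℕ) × List (List ℕ)) :
    List (List (List ℕ)) × List (List ℕ) :=
  (s.1, L.map (fun v => mulR q (nst s.1) v (s.2.1 ++ (s.2.2.1 ++ s.2.2.2))))

/-- The closing of the chord with index `i`: the new layers, and the coordinates of the images of
the old states of the first layer. -/
def closeRec (q : ℕ) (U : List ℕ) : ℕ → List (List (List ℕ)) →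
    List (List (List ℕ)) × List (List ℕ)
  | _, [] => ([], [[1]])
  | 0, L :: Ls => mergeStep q L (avoidRec q U Ls)
  | i + 1, L :: Ls => closeStep q U (nst Ls) L (closeRec q U i Ls)

section Spec

variable {q : ℕ}

/-- The function given by a vector, from the functions of the next layer. -/
def lift (D : ℕ) (g : ℕ → V (ZMod (q + 1))) : (ℕ → ZMod (q + 1)) →ₗ[ZMod (q + 1)] V (ZMod (q + 1))
    where
  toFun a := fun cs => match cs with
    | [] => 0
    | c :: cs => ∑ t ∈ Finset.range D, a ((c : ℕ) * D + t) * g t cs
  map_add' a b := by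
    ext cs
    cases cs with
    | nil => simp
    | cons c cs =>
      simp only [Pi.add_apply, ← Finset.sum_add_distrib]
      exact Finset.sum_congr rfl fun t _ => by ring
  map_smul' x a := by
    ext cs
    cases cs with
    | nil => simp
    | cons c cs =>
      simp only [Pi.smul_apply, smul_eq_mul, RingHom.id_apply, Finset.mul_sum]
      exact Finset.sum_congr rfl fun t _ => by ring

@[simp] theorem lift_nil (D : ℕ) (g : ℕ → V (ZMod (q + 1))) (a : ℕ → ZMod (q + 1)) :
    lift D g a [] = 0 := rfl

theorem lift_cons (D : ℕ) (g : ℕ → V (ZMod (q + 1))) (a : ℕ → ZMod (q + 1)) (c : Fin 3)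
    (cs : List (Fin 3)) :
    lift D g a (c :: cs) = ∑ t ∈ Finset.range D, a ((c : ℕ) * D + t) * g t cs := rfl

/-- The functions of the states of the first layer. -/
def stf (q : ℕ) : List (List (List ℕ)) → ℕ → V (ZMod (q + 1))
  | [], s => if s = 0 then one else 0
  | L :: Ls, s => lift (nst Ls) (stf q Ls) (ev q (L.getD s []))

/-- Linear independence of the first `D` functions. -/
def Ind (D : ℕ) (g : ℕ → V (ZMod (q + 1))) : Prop :=
  ∀ a : ℕ → ZMod (q + 1), ∑ s ∈ Finset.range D, a s • g s = 0 → ∀ s < D, a s = 0

theorem lift_inj {D : ℕ} {g : ℕ → V (ZMod (q + 1))} (hg : Ind D g) {a : ℕ → ZMod (q + 1)}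
    (h : lift D g a = 0) (k : ℕ) (hk : k < 3 * D) : a k = 0 := by
  have hD : 0 < D := by omega
  have hc : k / D < 3 := (Nat.div_lt_iff_lt_mul hD).2 hk
  have h1 := hg (fun t => a (k / D * D + t)) (by
    ext cs
    have h2 := congrFun h ((⟨k / D, hc⟩ : Fin 3) :: cs)
    rw [lift_cons, Pi.zero_apply] at h2
    rw [Finset.sum_apply, Pi.zero_apply]
    exact h2) (k % D) (Nat.mod_lt _ hD)
  rwa [Nat.div_add_mod'] at h1

theorem ind_nil : Ind (nst []) (stf q []) := by
  intro a h s hs
  have hs0 : s = 0 := by
    simp only [nst] at hs
    omega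
  subst hs0
  have h1 := congrFun h []
  simpa [nst, stf, one] using h1

theorem sum_zipWith (r : List ℕ) : ∀ (C : List (List ℕ)) (u : ℕ), C.length = r.length →
    (((List.zipWith (fun a c => a * c.getD u 0) r C).sum : ℕ) : ZMod (q + 1)) =
      ∑ t ∈ Finset.range r.length, ev q r t * ev q (C.getD t []) u := by
  induction r with
  | nil => intro C u _; simp
  | cons a r ih =>
    intro C u h
    cases C with
    | nil => simp at h
    | cons c C =>
      simp only [List.length_cons, Nat.add_right_cancel_iff] at h
      rw [List.zipWith_cons_cons, List.sum_cons, List.length_cons, Finset.sum_range_succ',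
        Nat.cast_add, Nat.cast_mul, ih C u h]
      exact add_comm _ _

theorem length_mulR (D' : ℕ) (r : List ℕ) (C : List (List ℕ)) :
    (mulR q D' r C).length = D' := by
  simp [mulR]

theorem ev_mulR {D' : ℕ} {r : List ℕ} {C : List (List ℕ)} (h : C.length = r.length) {u : ℕ}
    (hu : u < D') : ev q (mulR q D' r C) u =
      ∑ t ∈ Finset.range r.length, ev q r t * ev q (C.getD t []) u := by
  rw [ev_apply, List.getD_eq_getElem _ _ (by rwa [length_mulR])]
  simp only [mulR, List.getElem_map, List.getElem_range]
  rw [ZMod.natCast_mod, sum_zipWith r C u h]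

theorem length_row {D c : ℕ} {v : List ℕ} (hv : v.length = 3 * D) (hc : c < 3) :
    (row D c v).length = D := by
  unfold row
  rw [List.length_take, List.length_drop, hv]
  have : c * D + D ≤ 3 * D := by nlinarith
  omega

theorem ev_row {D c t : ℕ} {v : List ℕ} (ht : t < D) :
    ev q (row D c v) t = ev q v (c * D + t) := by
  rw [ev_apply, ev_apply]
  congr 1
  unfold row
  rw [List.getD_eq_getElem?_getD, List.getD_eq_getElem?_getD, List.getElem?_take_of_lt ht,
    List.getElem?_drop]

theorem length_vecA (D D' z : ℕ) (C : List (List ℕ)) (v : List ℕ) :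
    (vecA q D D' z C v).length = 3 * D' := by
  unfold vecA
  rw [List.length_append, List.length_append]
  split_ifs <;> simp only [List.length_replicate, length_mulR] <;> omega

theorem ev_append_left {l l' : List ℕ} {i : ℕ} (h : i < l.length) :
    ev q (l ++ l') i = ev q l i := by
  rw [ev_apply, ev_apply, List.getD_append _ _ _ _ h]

theorem ev_append_right {l l' : List ℕ} {i : ℕ} (h : l.length ≤ i) :
    ev q (l ++ l') i = ev q l' (i - l.length) := by
  rw [ev_apply, ev_apply, List.getD_append_right _ _ _ _ h]

theorem ev_replicate (n i : ℕ) : ev q (List.replicate n 0) i = 0 := by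
  rw [ev_apply]
  by_cases h : i < n
  · rw [List.getD_eq_getElem _ _ (by simpa using h), List.getElem_replicate, Nat.cast_zero]
  · rw [List.getD_eq_default _ _ (by simpa using h), Nat.cast_zero]

theorem ev_vecA {D D' z : ℕ} {C : List (List ℕ)} {v : List ℕ} (hv : v.length = 3 * D)
    (hC : C.length = D) {c u : ℕ} (hc : c < 3) (hu : u < D') :
    ev q (vecA q D D' z C v) (c * D' + u) = if c = z then 0 else
      ∑ t ∈ Finset.range D, ev q v (c * D + t) * ev q (C.getD t []) u := by
  have hblk : ∀ c, c < 3 → ev q (if c = z then List.replicate D' 0 else mulR q D' (row D c v) C) u =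
      if c = z then 0 else
      ∑ t ∈ Finset.range D, ev q v (c * D + t) * ev q (C.getD t []) u := by
    intro c hc
    split_ifs
    · exact ev_replicate _ _
    · rw [ev_mulR (by rw [hC, length_row hv hc]) hu, length_row hv hc]
      refine Finset.sum_congr rfl fun t ht => ?_
      rw [ev_row (Finset.mem_range.1 ht)]
  have hlen : ∀ c, (if c = z then List.replicate D' 0 else mulR q D' (row D c v) C).length = D' := by
    intro c
    split_ifs
    · simp
    · exact length_mulR _ _ _
  unfold vecA
  rcases (by omega : c = 0 ∨ c = 1 ∨ c = 2) with rfl | rfl | rfl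
  · rw [← hblk 0 (by norm_num), zero_mul, zero_add, ev_append_left (by rw [hlen]; exact hu)]
  · rw [← hblk 1 (by norm_num), one_mul, ev_append_right (by rw [hlen]; omega), hlen,
      Nat.add_sub_cancel_left, ev_append_left (by rw [hlen]; exact hu)]
  · rw [← hblk 2 (by norm_num), ev_append_right (by rw [hlen]; omega), hlen,
      ev_append_right (by rw [hlen]; omega), hlen]
    congr 1
    omega

/-- The functions of the vectors `vecA`. -/
theorem lift_vecA {D D' z : ℕ} {C : List (List ℕ)} {v : List ℕ} (hv : v.length = 3 * D)
    (hC : C.length = D) {g g' : ℕ → V (ZMod (q + 1))}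
    {T : V (ZMod (q + 1)) →ₗ[ZMod (q + 1)] V (ZMod (q + 1))}
    (hT : ∀ t < D, T (g t) = ∑ u ∈ Finset.range D', ev q (C.getD t []) u • g' u)
    (c : Fin 3) (cs : List (Fin 3)) :
    lift D' g' (ev q (vecA q D D' z C v)) (c :: cs) = if (c : ℕ) = z then 0 else
      ∑ t ∈ Finset.range D, ev q v ((c : ℕ) * D + t) * T (g t) cs := by
  rw [lift_cons]
  have h1 : ∀ u ∈ Finset.range D', ev q (vecA q D D' z C v) ((c : ℕ) * D' + u) * g' u cs =
      (if (c : ℕ) = z then 0 else
        ∑ t ∈ Finset.range D, ev q v ((c : ℕ) * D + t) * ev q (C.getD t []) u) * g' u cs := by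
    intro u hu
    rw [ev_vecA hv hC c.2 (Finset.mem_range.1 hu)]
  rw [Finset.sum_congr rfl h1]
  split_ifs with hz
  · simp
  · simp only [Finset.sum_mul]
    rw [Finset.sum_comm]
    refine Finset.sum_congr rfl fun t ht => ?_
    rw [hT t (Finset.mem_range.1 ht), Finset.sum_apply, Finset.mul_sum]
    refine Finset.sum_congr rfl fun u _ => ?_
    rw [Pi.smul_apply, smul_eq_mul, mul_assoc]

/-- The invariant: for each layer the functions of the states are linearly independent and belong
to the space of the word of operations since the beginning of the layer. -/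
def Good (q : ℕ) : List (List (List ℕ)) → List (List Op) → Prop
  | [], [] => True
  | L :: Ls, Z :: Zs => Ind L.length (stf q (L :: Ls)) ∧
      (∀ s < L.length, stf q (L :: Ls) s ∈ S (ZMod (q + 1)) Z) ∧ Ok 0 Z ∧
      opens 0 Z = Ls.length + 1 ∧ (∀ v ∈ L, v.length = 3 * nst Ls) ∧ Good q Ls Zs
  | _, _ => False

theorem Good.ind {Ls : List (List (List ℕ))} {Zs : List (List Op)} (h : Good q Ls Zs) :
    Ind (nst Ls) (stf q Ls) := by
  cases Ls with
  | nil => exact ind_nil
  | cons L Ls =>
    cases Zs with
    | nil => exact absurd h (by simp [Good])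
    | cons Z Zs => exact h.1

theorem Good.length {Ls : List (List (List ℕ))} {Zs : List (List Op)} (h : Good q Ls Zs) :
    Zs.length = Ls.length := by
  induction Ls generalizing Zs with
  | nil =>
    cases Zs with
    | nil => rfl
    | cons Z Zs => exact absurd h (by simp [Good])
  | cons L Ls ih =>
    cases Zs with
    | nil => exact absurd h (by simp [Good])
    | cons Z Zs => simp [ih h.2.2.2.2.2]

/-- A new layer obtained by elimination. -/
theorem new_layer [hp : Fact (q + 1).Prime] {U : List ℕ} (hU : ∀ x < q + 1, x ∈ U)
    {Ls : List (List (List ℕ))} {Zs : List (List Op)} (h : Good q Ls Zs)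
    (vs : List (List ℕ)) (hvs : ∀ v ∈ vs, v.length = 3 * nst Ls) {Z : List Op}
    (hZ : ∀ v ∈ vs, lift (nst Ls) (stf q Ls) (ev q v) ∈ S (ZMod (q + 1)) Z) (hok : Ok 0 Z)
    (hopen : opens 0 Z = Ls.length + 1) :
    Good q ((ech q U vs).map Prod.snd :: Ls) (Z :: Zs) ∧
    ∀ v ∈ vs, lift (nst Ls) (stf q Ls) (ev q v) =
      ∑ i ∈ Finset.range (nst ((ech q U vs).map Prod.snd :: Ls)),
        ev q (coords (ech q U vs) v) i • stf q ((ech q U vs).map Prod.snd :: Ls) i := by
  obtain ⟨h1, h2, h3, h4⟩ := ech_spec hU vs hvs
  set L' := (ech q U vs).map Prod.snd with hL'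
  refine ⟨⟨?_, ?_, hok, hopen, h1, h⟩, ?_⟩
  · intro a ha
    refine h3 a ?_
    have h5 : lift (nst Ls) (stf q Ls)
        (∑ s ∈ Finset.range L'.length, a s • ev q (L'.getD s [])) = 0 := by
      rw [map_sum, ← ha]
      refine Finset.sum_congr rfl fun s _ => ?_
      rw [map_smul]
      rfl
    ext k
    by_cases hk : k < 3 * nst Ls
    · exact lift_inj h.ind h5 k hk
    · rw [Finset.sum_apply, Pi.zero_apply]
      refine Finset.sum_eq_zero fun s hs => ?_
      rw [Finset.mem_range] at hs
      rw [Pi.smul_apply, ev_of_le, smul_zero]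
      rw [List.getD_eq_getElem _ _ hs, h1 _ (List.getElem_mem _)]
      omega
  · intro s hs
    have h5 : Submodule.span (ZMod (q + 1)) {x | ∃ v ∈ vs, x = ev q v} ≤
        (S (ZMod (q + 1)) Z).comap (lift (nst Ls) (stf q Ls)) := by
      refine Submodule.span_le.2 ?_
      rintro _ ⟨v, hv, rfl⟩
      exact hZ v hv
    have h6 : L'.getD s [] ∈ L' := by
      rw [List.getD_eq_getElem _ _ hs]
      exact List.getElem_mem _
    exact h5 (h4 _ h6)
  · intro v hv
    conv_lhs => rw [h2 v hv]
    rw [map_sum]
    refine Finset.sum_congr rfl fun i _ => ?_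
    rw [map_smul]
    rfl

/-- The matrix of the colour `z`. -/
def mat (z : Fin 3) (s : List (List (List ℕ)) × List (List ℕ) × List (List ℕ) × List (List ℕ)) :
    List (List ℕ) :=
  match z with
  | 0 => s.2.1
  | 1 => s.2.2.1
  | 2 => s.2.2.2

theorem opO_one (z : Fin 3) : opO z (one : V (ZMod (q + 1))) = one := by
  ext cs
  rw [opO_apply]
  cases cs <;> simp [one]

theorem getD_map_lt {α β : Type} (l : List α) (f : α → β) (d : α) (d' : β) {i : ℕ}
    (h : i < l.length) : (l.map f).getD i d' = f (l.getD i d) := by
  rw [List.getD_eq_getElem _ _ (by simpa using h), List.getD_eq_getElem _ _ h, List.getElem_map]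

theorem getD_mem {α : Type} (l : List α) (d : α) {i : ℕ} (h : i < l.length) : l.getD i d ∈ l := by
  rw [List.getD_eq_getElem _ _ h]
  exact List.getElem_mem _

/-- The specification of `avoidRec`. -/
theorem avoidRec_spec [hp : Fact (q + 1).Prime] {U : List ℕ} (hU : ∀ x < q + 1, x ∈ U) :
    ∀ (Ls : List (List (List ℕ))) (Zs : List (List Op)), Good q Ls Zs →
    Good q (avoidRec q U Ls).1 (Zs.map (· ++ [Op.O 0])) ∧
    (avoidRec q U Ls).1.length = Ls.length ∧
    ∀ z : Fin 3, (mat z (avoidRec q U Ls)).length = nst Ls ∧
      ∀ s < nst Ls, opO z (stf q Ls s) = ∑ u ∈ Finset.range (nst (avoidRec q U Ls).1),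
        ev q ((mat z (avoidRec q U Ls)).getD s []) u • stf q (avoidRec q U Ls).1 u := by
  intro Ls
  induction Ls with
  | nil =>
    intro Zs h
    cases Zs with
    | cons Z Zs => exact absurd h (by simp [Good])
    | nil =>
      refine ⟨trivial, rfl, fun z => ?_⟩
      have hz : mat z (avoidRec q U []) = [[1]] := by
        fin_cases z <;> rfl
      rw [hz]
      refine ⟨rfl, fun s hs => ?_⟩
      have hs0 : s = 0 := by
        simp only [nst] at hs
        omega
      subst hs0
      have h1 : stf q [] 0 = one := rfl
      have h2 : nst (avoidRec q U []).1 = 1 := rfl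
      have h3 : stf q (avoidRec q U []).1 0 = one := rfl
      rw [h1, h2, Finset.sum_range_one, h3, opO_one, ev_apply]
      simp
  | cons L Ls ih =>
    intro Zs h
    cases Zs with
    | nil => exact absurd h (by simp [Good])
    | cons Z Zs =>
      obtain ⟨hind, hS, hok, hopen, hlen, hgood⟩ := h
      obtain ⟨g1, g2, g3⟩ := ih Zs hgood
      set s := avoidRec q U Ls with hs
      have hdef : avoidRec q U (L :: Ls) = avoidStep q U (nst Ls) L s := rfl
      -- the functions of the vectors
      have hfun : ∀ (z : Fin 3) (v : List ℕ), v.length = 3 * nst Ls →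
          lift (nst s.1) (stf q s.1) (ev q (vecA q (nst Ls) (nst s.1) z (mat z s) v)) =
            opO z (lift (nst Ls) (stf q Ls) (ev q v)) := by
        intro z v hv
        ext cs
        cases cs with
        | nil => simp [opO_apply]
        | cons c cs =>
          rw [lift_vecA hv (g3 z).1 (T := opO z) (g3 z).2, opO_apply, lift_cons]
          by_cases hcz : c = z
          · subst hcz
            simp
          · have h1 : ¬ ((c : ℕ) = (z : ℕ)) := fun h => hcz (Fin.ext h)
            rw [if_neg h1]
            by_cases hm : z ∈ cs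
            · rw [if_pos (List.mem_cons_of_mem _ hm)]
              refine Finset.sum_eq_zero fun t _ => ?_
              rw [opO_apply, if_pos hm, mul_zero]
            · rw [if_neg (by simp only [List.mem_cons, not_or]; exact ⟨fun h => hcz h.symm, hm⟩)]
              refine Finset.sum_congr rfl fun t _ => ?_
              rw [opO_apply, if_neg hm]
      set V0 := L.map (vecA q (nst Ls) (nst s.1) 0 s.2.1) with hV0
      set V1 := L.map (vecA q (nst Ls) (nst s.1) 1 s.2.2.1) with hV1
      set V2 := L.map (vecA q (nst Ls) (nst s.1) 2 s.2.2.2) with hV2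
      set R := ech q U (V0 ++ (V1 ++ V2)) with hR
      have hdef' : avoidStep q U (nst Ls) L s = (R.map Prod.snd :: s.1, V0.map (coords R),
        V1.map (coords R), V2.map (coords R)) := rfl
      have hmem : ∀ v' ∈ V0 ++ (V1 ++ V2), ∃ (z : Fin 3), ∃ v ∈ L,
          v' = vecA q (nst Ls) (nst s.1) z (mat z s) v := by
        intro v' hv'
        simp only [List.mem_append, hV0, hV1, hV2, List.mem_map] at hv'
        rcases hv' with ⟨v, hv, rfl⟩ | ⟨v, hv, rfl⟩ | ⟨v, hv, rfl⟩
        · exact ⟨0, v, hv, rfl⟩
        · exact ⟨1, v, hv, rfl⟩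
        · exact ⟨2, v, hv, rfl⟩
      have hlift : ∀ v ∈ L, lift (nst Ls) (stf q Ls) (ev q v) ∈ S (ZMod (q + 1)) Z := by
        intro v hv
        obtain ⟨i, hi, rfl⟩ := List.getElem_of_mem hv
        have := hS i hi
        simp only [stf] at this
        rwa [List.getD_eq_getElem _ _ hi] at this
      have hnew := new_layer hU g1 (V0 ++ (V1 ++ V2)) (Z := Z ++ [Op.O 0]) (by
          intro v' hv'
          obtain ⟨z, v, _, rfl⟩ := hmem v' hv'
          exact length_vecA _ _ _ _ _) (by
          intro v' hv'
          obtain ⟨z, v, hv, rfl⟩ := hmem v' hv'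
          rw [hfun z v (hlen v hv)]
          exact act_mem_S (hlift v hv) (Op.O z) (Op.O 0) rfl) (by
          rw [ok_append]; exact ⟨hok, trivial⟩) (by
          rw [opens_append, hopen, g2]; rfl)
      rw [← hR] at hnew
      rw [hdef, hdef']
      refine ⟨?_, ?_, ?_⟩
      · exact hnew.1
      · simp only [List.length_cons, g2]
      · intro z
        have hmat : mat z (R.map Prod.snd :: s.1, V0.map (coords R), V1.map (coords R),
            V2.map (coords R)) =
            (L.map (vecA q (nst Ls) (nst s.1) z (mat z s))).map (coords R) := by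
          fin_cases z <;> rfl
        rw [hmat]
        refine ⟨by simp [nst], fun i hi => ?_⟩
        simp only [nst] at hi
        have hv : L.getD i [] ∈ L := getD_mem L [] hi
        rw [getD_map_lt _ _ [] _ (by simpa using hi), getD_map_lt _ _ [] _ hi]
        have hv' : vecA q (nst Ls) (nst s.1) z (mat z s) (L.getD i []) ∈ V0 ++ (V1 ++ V2) := by
          simp only [List.mem_append, hV0, hV1, hV2, List.mem_map]
          fin_cases z
          · exact Or.inl ⟨_, hv, rfl⟩
          · exact Or.inr (Or.inl ⟨_, hv, rfl⟩)
          · exact Or.inr (Or.inr ⟨_, hv, rfl⟩)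
        rw [← hnew.2 _ hv', hfun z _ (hlen _ hv)]
        rfl

/-- The words of the layers after the closing of the chord with index `i`. -/
def closeZ : ℕ → List (List Op) → List (List Op)
  | _, [] => []
  | 0, _ :: Zs => Zs.map (· ++ [Op.O 0])
  | i + 1, Z :: Zs => (Z ++ [Op.N (i + 1)]) :: closeZ i Zs

theorem sum_three {M : Type} [AddCommMonoid M] (D : ℕ) (F : ℕ → M) :
    ∑ k ∈ Finset.range (3 * D), F k = ∑ c : Fin 3, ∑ t ∈ Finset.range D, F ((c : ℕ) * D + t) := by
  rw [show 3 * D = D + (D + D) by omega, Finset.sum_range_add, Finset.sum_range_add,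
    Fin.sum_univ_three, add_assoc]
  have h0 : ∀ t, ((0 : Fin 3) : ℕ) * D + t = t := fun t => by simp
  have h1 : ∀ t, ((1 : Fin 3) : ℕ) * D + t = D + t := fun t => by simp
  have h2 : ∀ t, ((2 : Fin 3) : ℕ) * D + t = D + (D + t) := fun t => by
    have : ((2 : Fin 3) : ℕ) = 2 := rfl
    rw [this]
    omega
  simp only [h0, h1, h2]

theorem getD_three {D : ℕ} {C0 C1 C2 : List (List ℕ)} (h0 : C0.length = D) (h1 : C1.length = D)
    (h2 : C2.length = D) (c : Fin 3) {t : ℕ} (ht : t < D) :
    (C0 ++ (C1 ++ C2)).getD ((c : ℕ) * D + t) [] =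
      (mat c (([] : List (List (List ℕ))), C0, C1, C2)).getD t [] := by
  fin_cases c
  · simp only [zero_mul, zero_add, mat]
    rw [List.getD_append _ _ _ _ (by omega)]
  · simp only [one_mul, mat]
    rw [List.getD_append_right _ _ _ _ (by omega), List.getD_append _ _ _ _ (by omega)]
    congr 1
    omega
  · simp only [mat]
    rw [List.getD_append_right _ _ _ _ (by omega), List.getD_append_right _ _ _ _ (by omega)]
    congr 1
    omega

/-- The specification of `closeRec`. -/
theorem closeRec_spec [hp : Fact (q + 1).Prime] {U : List ℕ} (hU : ∀ x < q + 1, x ∈ U) :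
    ∀ (Ls : List (List (List ℕ))) (Zs : List (List Op)) (i : ℕ), Good q Ls Zs → i < Ls.length →
    Good q (closeRec q U i Ls).1 (closeZ i Zs) ∧
    (closeRec q U i Ls).1.length + 1 = Ls.length ∧ (closeRec q U i Ls).2.length = nst Ls ∧
    ∀ s < nst Ls, opN i (stf q Ls s) = ∑ u ∈ Finset.range (nst (closeRec q U i Ls).1),
      ev q ((closeRec q U i Ls).2.getD s []) u • stf q (closeRec q U i Ls).1 u := by
  intro Ls
  induction Ls with
  | nil =>
    intro Zs i _ hi
    exact absurd hi (by simp)
  | cons L Ls ih =>
    intro Zs i h hi
    cases Zs with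
    | nil => exact absurd h (by simp [Good])
    | cons Z Zs =>
      obtain ⟨hind, hS, hok, hopen, hlen, hgood⟩ := h
      cases i with
      | zero =>
        obtain ⟨g1, g2, g3⟩ := avoidRec_spec hU Ls Zs hgood
        set s := avoidRec q U Ls with hs
        have hdef : closeRec q U 0 (L :: Ls) = mergeStep q L s := rfl
        rw [hdef]
        refine ⟨g1, ?_, by simp [mergeStep, nst], ?_⟩
        · change s.1.length + 1 = _
          rw [g2]
          rfl
        · intro i hi
          simp only [nst] at hi
          have hv : (L.getD i []).length = 3 * nst Ls := hlen _ (getD_mem L [] hi)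
          set v := L.getD i [] with hvdef
          have h1 : (mergeStep q L s).2.getD i [] =
              mulR q (nst s.1) v (s.2.1 ++ (s.2.2.1 ++ s.2.2.2)) := by
            change (L.map _).getD i [] = _
            rw [getD_map_lt _ _ [] _ hi]
          rw [h1]
          change opN 0 (lift (nst Ls) (stf q Ls) (ev q v)) = ∑ u ∈ Finset.range (nst s.1),
            ev q (mulR q (nst s.1) v (s.2.1 ++ (s.2.2.1 ++ s.2.2.2))) u • stf q s.1 u
          have l0 : s.2.1.length = nst Ls := (g3 0).1
          have l1 : s.2.2.1.length = nst Ls := (g3 1).1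
          have l2 : s.2.2.2.length = nst Ls := (g3 2).1
          ext cs
          rw [opN_apply, Finset.sum_apply]
          have h2 : ∀ u ∈ Finset.range (nst s.1),
              (ev q (mulR q (nst s.1) v (s.2.1 ++ (s.2.2.1 ++ s.2.2.2))) u • stf q s.1 u) cs =
              ∑ c : Fin 3, ∑ t ∈ Finset.range (nst Ls), ev q v ((c : ℕ) * nst Ls + t) *
                (ev q ((mat c s).getD t []) u * stf q s.1 u cs) := by
            intro u hu
            rw [Pi.smul_apply, smul_eq_mul, ev_mulR (by
              simp only [List.length_append, l0, l1, l2, hv]; omega) (Finset.mem_range.1 hu), hv,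
              sum_three, Finset.sum_mul]
            refine Finset.sum_congr rfl fun c _ => ?_
            rw [Finset.sum_mul]
            refine Finset.sum_congr rfl fun t ht => ?_
            rw [getD_three l0 l1 l2 c (Finset.mem_range.1 ht), mul_assoc]
            rfl
          rw [Finset.sum_congr rfl h2, Finset.sum_comm]
          refine Finset.sum_congr rfl fun c _ => ?_
          rw [Finset.sum_comm, List.drop_zero, List.take_zero, List.nil_append, lift_cons]
          by_cases hc : c ∈ cs
          · rw [if_pos hc]
            refine (Finset.sum_eq_zero fun t ht => ?_).symm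
            rw [← Finset.mul_sum]
            have h3 := congrFun ((g3 c).2 t (Finset.mem_range.1 ht)) cs
            rw [opO_apply, if_pos hc, Finset.sum_apply] at h3
            have h4 : ∑ i ∈ Finset.range (nst s.1), ev q ((mat c s).getD t []) i * stf q s.1 i cs =
                0 := h3.symm
            rw [h4, mul_zero]
          · rw [if_neg hc]
            refine Finset.sum_congr rfl fun t ht => ?_
            rw [← Finset.mul_sum]
            have h3 := congrFun ((g3 c).2 t (Finset.mem_range.1 ht)) cs
            rw [opO_apply, if_neg hc, Finset.sum_apply] at h3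
            rw [h3]
            rfl
      | succ i =>
        simp only [List.length_cons, Nat.add_lt_add_iff_right] at hi
        obtain ⟨g1, g2, g3, g4⟩ := ih Zs i hgood hi
        set s := closeRec q U i Ls with hs
        set Vs := L.map (vecA q (nst Ls) (nst s.1) 3 s.2) with hVs
        set R := ech q U Vs with hR
        have hdef : closeRec q U (i + 1) (L :: Ls) = (R.map Prod.snd :: s.1, Vs.map (coords R)) :=
          rfl
        have hnil : ∀ t, stf q Ls t [] = 0 := by
          intro t
          cases Ls with
          | nil => simp at hi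
          | cons L' Ls' => rfl
        have hfun : ∀ v : List ℕ, v.length = 3 * nst Ls →
            lift (nst s.1) (stf q s.1) (ev q (vecA q (nst Ls) (nst s.1) 3 s.2 v)) =
              opN (i + 1) (lift (nst Ls) (stf q Ls) (ev q v)) := by
          intro v hv
          ext cs
          cases cs with
          | nil =>
            rw [lift_nil, opN_apply]
            symm
            refine Finset.sum_eq_zero fun c _ => ?_
            simp only [List.drop_nil, List.not_mem_nil, if_false, List.take_nil, List.nil_append]
            rw [lift_cons]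
            refine Finset.sum_eq_zero fun t _ => ?_
            rw [hnil, mul_zero]
          | cons c cs =>
            rw [lift_vecA hv g3 (T := opN i) g4, if_neg (by have := c.2; omega), opN_apply]
            simp only [List.drop_succ_cons, List.take_succ_cons, List.cons_append, lift_cons]
            simp only [opN_apply, Finset.mul_sum]
            rw [Finset.sum_comm]
            refine Finset.sum_congr rfl fun d _ => ?_
            split_ifs with hd
            · simp
            · rfl
        have hlift : ∀ v ∈ L, lift (nst Ls) (stf q Ls) (ev q v) ∈ S (ZMod (q + 1)) Z := by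
          intro v hv
          obtain ⟨i, hi, rfl⟩ := List.getElem_of_mem hv
          have := hS i hi
          simp only [stf] at this
          rwa [List.getD_eq_getElem _ _ hi] at this
        have hnew := new_layer hU g1 Vs (Z := Z ++ [Op.N (i + 1)]) (by
            intro v' hv'
            obtain ⟨v, _, rfl⟩ := List.mem_map.1 hv'
            exact length_vecA _ _ _ _ _) (by
            intro v' hv'
            obtain ⟨v, hv, rfl⟩ := List.mem_map.1 hv'
            rw [hfun v (hlen v hv)]
            exact act_mem_S (hlift v hv) (Op.N (i + 1)) (Op.N (i + 1)) rfl) (by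
            rw [ok_append]
            refine ⟨hok, ?_, trivial⟩
            rw [hopen]
            omega) (by
            rw [opens_append, hopen]
            change Ls.length + 1 - 1 = _
            omega)
        rw [← hR] at hnew
        rw [hdef]
        refine ⟨hnew.1, ?_, ?_, ?_⟩
        · simp only [List.length_cons]
          omega
        · simp [hVs, nst]
        · intro j hj
          simp only [nst] at hj
          have hv : L.getD j [] ∈ L := getD_mem L [] hj
          rw [getD_map_lt _ _ [] _ (by simpa [hVs] using hj), hVs, getD_map_lt _ _ [] _ hj]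
          rw [← hnew.2 _ (List.mem_map.2 ⟨_, hv, rfl⟩), hfun _ (hlen _ hv)]
          rfl

end Spec

end Pool.Agent.H502_C3
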