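import Pool.Agent.H502_C3.Rank

/-!
# The bound for the dimension
-/

namespace Pool.Agent.H502_C3

variable {K : Type} [CommSemiring K]

theorem fill_sh : ∀ (Bs : List (List Op)) (u v : List (Fin 3)), u.length = v.length →
    (fill Bs u).map sh = (fill Bs v).map sh
  | Bs, [], [], _ => rfl
  | [], c :: u, d :: v, _ => rfl
  | B :: Bs, c :: u, d :: v, h => by
    simp only [List.length_cons, Nat.add_right_cancel_iff] at h
    simp [fill, sh, fill_sh Bs u v h]
  | _, [], d :: v, h => by simp at h
  | _, c :: u, [], h => by simp at h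

theorem sum_blocks (Bs : List (List Op)) : (Bs.map (fun B' => B'.length + 1)).sum =
    ∑ i ∈ Finset.range Bs.length, ((Bs.getD i []).length + 1) := by
  induction Bs with
  | nil => rfl
  | cons B Bs ih =>
    rw [List.map_cons, List.sum_cons, List.length_cons, Finset.sum_range_succ', ih, add_comm]
    rfl

theorem numeric (n m : ℕ) (a : ℕ → ℕ) (h : ∑ i ∈ Finset.range m, a i ≤ n) (j : ℕ) (hj : j < m)
    (hmax : ∀ i < m, a i ≤ a j) :
    12 + 36 * ∑ i ∈ (Finset.range m).erase j, 12 * a i ^ 7 ≤ 12 * (n + 1) ^ 7 := by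
  have hj' : j ∈ Finset.range m := Finset.mem_range.2 hj
  have h0 : ∑ i ∈ (Finset.range m).erase j, a i + a j ≤ n := by
    rw [Finset.sum_erase_add _ _ hj']
    exact h
  have h1 : ∀ i ∈ (Finset.range m).erase j, 64 * a i ^ 7 ≤ n ^ 6 * a i := by
    intro i hi
    have h2 : a i ≤ a j := hmax i (Finset.mem_range.1 (Finset.mem_of_mem_erase hi))
    have h3 : a i ≤ ∑ i ∈ (Finset.range m).erase j, a i :=
      Finset.single_le_sum (f := a) (fun _ _ => Nat.zero_le _) hi
    have h4 : 2 * a i ≤ n := by omega
    calc 64 * a i ^ 7 = (2 * a i) ^ 6 * a i := by ring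
      _ ≤ n ^ 6 * a i := Nat.mul_le_mul_right _ (Nat.pow_le_pow_left h4 6)
  have h2 : 64 * ∑ i ∈ (Finset.range m).erase j, a i ^ 7 ≤ n ^ 7 := by
    calc 64 * ∑ i ∈ (Finset.range m).erase j, a i ^ 7
        = ∑ i ∈ (Finset.range m).erase j, 64 * a i ^ 7 := Finset.mul_sum _ _ _
      _ ≤ ∑ i ∈ (Finset.range m).erase j, n ^ 6 * a i := Finset.sum_le_sum h1
      _ = n ^ 6 * ∑ i ∈ (Finset.range m).erase j, a i := (Finset.mul_sum _ _ _).symm
      _ ≤ n ^ 6 * n := Nat.mul_le_mul_left _ (by omega)
      _ = n ^ 7 := by ring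
  have h3 : n ^ 7 + 1 ≤ (n + 1) ^ 7 := by
    have : (n + 1) ^ 7 = n ^ 7 + (7 * n ^ 6 + 21 * n ^ 5 + 35 * n ^ 4 + 35 * n ^ 3 + 21 * n ^ 2
      + 7 * n) + 1 := by ring
    omega
  have h4 : ∑ i ∈ (Finset.range m).erase j, 12 * a i ^ 7 =
      12 * ∑ i ∈ (Finset.range m).erase j, a i ^ 7 := (Finset.mul_sum _ _ _).symm
  rw [h4]
  omega

theorem gen_fam : ∀ (n : ℕ) (Z : List Op), Z.length = n → Ok 0 Z →
    Gen (fam K Z) (12 * (n + 1) ^ 7) := by
  intro n
  induction n using Nat.strong_induction_on with
  | _ n ih =>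
  intro Z hn hok
  obtain ⟨B, Bs, hB, hBs, hlen, hdec⟩ := decomp Z
  set F : List (Fin 3) → V K := fun u => run (B ++ fill Bs u) one with hF
  have hsub : fam K Z ⊆ {f | ∃ u : List (Fin 3), u.length = Bs.length ∧ f = F u} := by
    rintro f ⟨Z', h, rfl⟩
    obtain ⟨u, hu, rfl⟩ := hdec Z' h
    exact ⟨u, hu, rfl⟩
  obtain ⟨uZ, huZ, hZ⟩ := hdec Z rfl
  have hokF : ∀ u : List (Fin 3), u.length = Bs.length → Ok 0 (B ++ fill Bs u) := by
    intro u hu
    refine ok_sh 0 (Z := Z) ?_ hok
    rw [hZ, List.map_append, List.map_append, fill_sh Bs uZ u (huZ.trans hu.symm)]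
  rw [sum_blocks] at hlen
  set a : ℕ → ℕ := fun i => (Bs.getD i []).length + 1 with ha
  replace hlen : Z.length = B.length + ∑ i ∈ Finset.range Bs.length, a i := hlen
  have hA : ∀ i, i + 1 < Bs.length → ∀ (α β : Fin 3) (v : List (Fin 3)),
      v.length + i + 2 = Bs.length →
      Gen {f : V K | α ≠ β ∧ ∃ u : List (Fin 3), u.length = i ∧ f = F (u ++ α :: β :: v)}
        (12 * a i ^ 7) := by
    intro i hi α β v hv
    by_cases hαβ : α = β
    · refine Gen.empty.mono ?_ (Nat.zero_le _)
      rintro f ⟨h, _⟩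
      exact absurd hαβ h
    have hd1 : Bs.drop i = Bs[i] :: Bs.drop (i + 1) := List.drop_eq_getElem_cons (by omega)
    have hd2 : Bs.drop (i + 1) = Bs[i + 1] :: Bs.drop (i + 2) :=
      List.drop_eq_getElem_cons (by omega)
    have hform : ∀ u : List (Fin 3), u.length = i →
        B ++ fill Bs (u ++ α :: β :: v) = (B ++ fill (Bs.take i) u) ++
          Op.O α :: (Bs[i] ++ Op.O β :: (Bs[i + 1] ++ fill (Bs.drop (i + 2)) v)) := by
      intro u hu
      rw [fill_append _ _ _ (by omega), hu, hd1, List.append_assoc]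
      congr 2
      rw [fill, hd2, fill]
    set m := opens 0 (B ++ fill (Bs.take i) (List.replicate i 0)) with hm
    have hopen : ∀ u : List (Fin 3), u.length = i → opens 0 (B ++ fill (Bs.take i) u) = m := by
      intro u hu
      refine opens_sh 0 ?_
      rw [List.map_append, List.map_append, fill_sh _ u (List.replicate i 0) (by simp [hu])]
    have hoki : Ok 0 (B ++ fill (Bs.take i) (List.replicate i 0)) ∧ Ok m (Bs[i]) := by
      have h1 := hokF (List.replicate i 0 ++ α :: β :: v) (by simp; omega)
      rw [hform _ (by simp), ok_append] at h1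
      refine ⟨h1.1, ?_⟩
      have h2 := h1.2
      rw [Ok, ok_append] at h2
      exact h2.1
    obtain ⟨Λ, hΛ⟩ := factor (K := K) m α β hαβ Bs[i]
      (Bs[i + 1] ++ fill (Bs.drop (i + 2)) v) (hBs _ (List.getElem_mem _)) hoki.2
    have hai : a i = Bs[i].length + 1 := by
      simp only [ha]
      rw [List.getD_eq_getElem _ _ (by omega)]
    have hlt : Bs[i].length < n := by
      have h1 : a i ≤ ∑ i ∈ Finset.range Bs.length, a i :=
        Finset.single_le_sum (f := a) (fun _ _ => Nat.zero_le _) (Finset.mem_range.2 (by omega))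
      omega
    have hg := ih Bs[i].length hlt (rel m Bs[i]) (length_rel _ _) (ok_rel _ m 0 hoki.2)
    rw [← hai] at hg
    refine (hg.map Λ).mono ?_ le_rfl
    rintro f ⟨_, u, hu, rfl⟩
    have h3 : Supp (run (B ++ fill (Bs.take i) u) (one : V K)) m := by
      rw [← hopen u hu]
      refine supp_one.run (ok_sh 0 (Z := B ++ fill (Bs.take i) (List.replicate i 0)) ?_ hoki.1)
      rw [List.map_append, List.map_append, fill_sh _ u (List.replicate i 0) (by simp [hu])]
    have h4 := hΛ _ h3
    rw [S_eq, ← run_append, ← hform u hu] at h4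
    exact h4
  by_cases hm : Bs.length ≤ 1
  · -- at most one closing of an older chord
    have h1 : Gen (⋃ β : Fin 3, {F (List.replicate Bs.length β)}) (Fintype.card (Fin 3) * 1) :=
      Gen.iUnion _ _ fun β => Gen.singleton _
    refine h1.mono (hsub.trans ?_) ?_
    · rintro f ⟨u, hu, rfl⟩
      rw [Set.mem_iUnion]
      rcases u with _ | ⟨c, _ | ⟨d, u⟩⟩
      · refine ⟨0, ?_⟩
        rw [← hu]
        rfl
      · refine ⟨c, ?_⟩
        rw [← hu]
        rfl
      · simp only [List.length_cons] at hu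
        omega
    · have : 1 ≤ (n + 1) ^ 7 := Nat.one_le_pow _ _ (by omega)
      simp only [Fintype.card_fin]
      omega
  push Not at hm
  obtain ⟨M, hM⟩ : ∃ M, Bs.length = M + 1 := ⟨Bs.length - 1, by omega⟩
  obtain ⟨j, hj, hmax⟩ := Finset.exists_max_image (Finset.range M) a ⟨0, Finset.mem_range.2 (by omega)⟩
  rw [Finset.mem_range] at hj
  have hmax' : ∀ i < M, a i ≤ a j := fun i hi => hmax i (Finset.mem_range.2 hi)
  have hsum : ∑ i ∈ Finset.range M, a i ≤ n := by
    have h1 : ∑ i ∈ Finset.range M, a i ≤ ∑ i ∈ Finset.range Bs.length, a i :=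
      Finset.sum_le_sum_of_subset (Finset.range_mono (by omega))
    omega
  -- the four classes
  have g1 : Gen (⋃ β : Fin 3, {F (List.replicate Bs.length β)}) (Fintype.card (Fin 3) * 1) :=
    Gen.iUnion _ _ fun β => Gen.singleton _
  have g2 : Gen (⋃ i ∈ (Finset.range M).erase j, ⋃ p : Fin 3 × Fin 3,
      {f : V K | p.1 ≠ p.2 ∧ ∃ u : List (Fin 3), u.length = i ∧
        f = F (u ++ p.1 :: p.2 :: List.replicate (M - 1 - i) p.2)})
      (∑ i ∈ (Finset.range M).erase j, Fintype.card (Fin 3 × Fin 3) * (12 * a i ^ 7)) := by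
    refine Gen.biUnion _ _ _ fun i hi => Gen.iUnion _ _ fun p => ?_
    have hi' := Finset.mem_range.1 (Finset.mem_of_mem_erase hi)
    exact hA i (by omega) p.1 p.2 _ (by rw [List.length_replicate]; omega)
  have g3 : Gen (⋃ p : Fin 3 × Fin 3,
      {F (List.replicate (j + 1) p.1 ++ List.replicate (M - j) p.2)})
      (Fintype.card (Fin 3 × Fin 3) * 1) :=
    Gen.iUnion _ _ fun β => Gen.singleton _
  have g4 : Gen (⋃ i ∈ Finset.range j, ⋃ p : Fin 3 × Fin 3 × Fin 3,
      {f : V K | p.1 ≠ p.2.1 ∧ ∃ u : List (Fin 3), u.length = i ∧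
        f = F (u ++ p.1 :: p.2.1 :: (List.replicate (j - 1 - i) p.2.1 ++
          List.replicate (M - j) p.2.2))})
      (∑ i ∈ Finset.range j, Fintype.card (Fin 3 × Fin 3 × Fin 3) * (12 * a i ^ 7)) := by
    refine Gen.biUnion _ _ _ fun i hi => Gen.iUnion _ _ fun p => ?_
    have hi' := Finset.mem_range.1 hi
    exact hA i (by omega) p.1 p.2.1 _ (by
      rw [List.length_append, List.length_replicate, List.length_replicate]; omega)
  refine (((g1.union g2).union g3).union g4).mono (hsub.trans ?_) ?_
  · rintro f ⟨u, hu, rfl⟩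
    have hu0 : u ≠ [] := by
      rintro rfl
      simp at hu
      omega
    rcases last_change u hu0 with ⟨β, h⟩ | ⟨v, α, β, k, hαβ, h⟩
    · left; left; left
      rw [Set.mem_iUnion]
      refine ⟨β, ?_⟩
      rw [← hu, ← h]
      rfl
    · have hk : v.length + 2 + k = M + 1 := by
        rw [← hM, ← hu, h]
        simp only [List.length_append, List.length_cons, List.length_replicate]
        omega
      by_cases hvj : v.length = j
      · rcases last_change (v ++ [α]) (by simp) with ⟨γ, h'⟩ | ⟨v', α', γ, k', hαγ, h'⟩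
        · left; right
          rw [Set.mem_iUnion]
          refine ⟨(γ, β), ?_⟩
          rw [Set.mem_singleton_iff]
          congr 1
          have e : u = (v ++ [α]) ++ (β :: List.replicate k β) := by rw [h]; simp
          rw [e, h', List.length_append, List.length_singleton, hvj, ← List.replicate_succ]
          congr 2
          omega
        · right
          have hk' : v'.length + 2 + k' = j + 1 := by
            have := congrArg List.length h'
            simp only [List.length_append, List.length_cons, List.length_replicate,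
              List.length_nil] at this
            omega
          simp only [Set.mem_iUnion]
          refine ⟨v'.length, Finset.mem_range.2 (by omega), (α', γ, β), hαγ, v', rfl, ?_⟩
          congr 1
          have e : u = (v ++ [α]) ++ (β :: List.replicate k β) := by rw [h]; simp
          have e2 : β :: List.replicate k β = List.replicate (M - j) β := by
            rw [← List.replicate_succ]
            congr 1
            omega
          rw [e, h', e2, show k' = j - 1 - v'.length by omega]
          simp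
      · left; left; right
        simp only [Set.mem_iUnion]
        refine ⟨v.length, Finset.mem_erase.2 ⟨hvj, Finset.mem_range.2 (by omega)⟩, (α, β), hαβ, v,
          rfl, ?_⟩
        congr 1
        rw [h, show k = M - 1 - v.length by omega]
  · have h1 := numeric n M a hsum j hj hmax'
    have h2 : ∑ i ∈ Finset.range j, 12 * a i ^ 7 ≤
        ∑ i ∈ (Finset.range M).erase j, 12 * a i ^ 7 := by
      refine Finset.sum_le_sum_of_subset ?_
      intro i hi
      rw [Finset.mem_range] at hi
      exact Finset.mem_erase.2 ⟨by omega, Finset.mem_range.2 (by omega)⟩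
    have e1 : ∑ i ∈ (Finset.range M).erase j, Fintype.card (Fin 3 × Fin 3) * (12 * a i ^ 7) =
        9 * ∑ i ∈ (Finset.range M).erase j, 12 * a i ^ 7 := by
      rw [Finset.mul_sum]
      rfl
    have e2 : ∑ i ∈ Finset.range j, Fintype.card (Fin 3 × Fin 3 × Fin 3) * (12 * a i ^ 7) =
        27 * ∑ i ∈ Finset.range j, 12 * a i ^ 7 := by
      rw [Finset.mul_sum]
      rfl
    rw [e1, e2]
    have e3 : Fintype.card (Fin 3) = 3 := rfl
    have e4 : Fintype.card (Fin 3 × Fin 3) = 9 := rfl
    rw [e3, e4]
    omega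

/-- The dimension of the space of a word is polynomially bounded. -/
theorem gen_S (Z : List Op) (h : Ok 0 Z) : Gen ((S K Z : Submodule K (V K)) : Set (V K))
    (12 * (Z.length + 1) ^ 7) := by
  obtain ⟨t, h1, h2⟩ := gen_fam (K := K) Z.length Z rfl h
  exact ⟨t, h1, Submodule.span_le.2 h2⟩

end Pool.Agent.H502_C3
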