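import Mathlib

/-!
# Chord diagrams and circle graphs

A chord diagram with `n` chords is a word of length `2 n` in which each of `n` labels (natural
numbers) occurs exactly twice: the labels of the endpoints of the chords, read around the circle
from an arbitrary starting point.
-/

namespace Pool.Agent.H502_C3

/-- The word is a chord diagram: each of its labels occurs exactly twice. -/
def IsChordDiagram (w : List ℕ) : Prop := ∀ a ∈ w, w.count a = 2

/-- The chords `a` and `b` cross: their endpoints interleave. -/
def Crosses (w : List ℕ) (a b : ℕ) : Prop :=
  List.Sublist [a, b, a, b] w ∨ List.Sublist [b, a, b, a] w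

/-- The circle graph of a chord diagram: the vertices are the chords, adjacent iff they cross. -/
def circleGraph (w : List ℕ) : SimpleGraph {a : ℕ // a ∈ w} where
  Adj a b := a ≠ b ∧ Crosses w a b
  symm := ⟨fun _ _ h => ⟨h.1.symm, h.2.symm⟩⟩
  loopless := ⟨fun _ h => h.1 rfl⟩

end Pool.Agent.H502_C3
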