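import Pool.Agent.H502_C3.Run
import Pool.Agent.H502_C3.Defs

/-!
# The value of the word of a chord diagram, and the 3-colourings of its circle graph
-/

namespace Pool.Agent.H502_C3

/-! ### Change of the semiring, and a bound -/

theorem act_map {R R' : Type} [CommSemiring R] [CommSemiring R'] (φ : R →+* R') (o : Op) (f : V R) :
    act o (fun cs => φ (f cs)) = fun cs => φ (act o f cs) := by
  ext cs
  cases o with
  | P =>
    change (if cs = [] then 0 else φ (f cs.dropLast)) = φ (if cs = [] then 0 else f cs.dropLast)
    split_ifs <;> simp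
  | N i =>
    change (∑ c : Fin 3, if c ∈ cs.drop i then 0 else φ (f (cs.take i ++ c :: cs.drop i))) =
      φ (∑ c : Fin 3, if c ∈ cs.drop i then 0 else f (cs.take i ++ c :: cs.drop i))
    rw [map_sum]
    refine Finset.sum_congr rfl fun c _ => ?_
    split_ifs <;> simp
  | O c =>
    change (if c ∈ cs then 0 else φ (f cs)) = φ (if c ∈ cs then 0 else f cs)
    split_ifs <;> simp

theorem run_map {R R' : Type} [CommSemiring R] [CommSemiring R'] (φ : R →+* R') (Z : List Op) :
    ∀ f : V R, run Z (fun cs => φ (f cs)) = fun cs => φ (run Z f cs) := by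
  induction Z with
  | nil => intro f; rfl
  | cons o Z ih =>
    intro f
    rw [run_cons, act_map, ih]
    rfl

theorem run_cast (q : ℕ) (Z : List Op) (cs : List (Fin 3)) :
    run Z (one : V (ZMod (q + 1))) cs = ((run Z (one : V ℕ) cs : ℕ) : ZMod (q + 1)) := by
  have h := run_map (Nat.castRingHom (ZMod (q + 1))) Z (one : V ℕ)
  have h1 : (fun cs => Nat.castRingHom (ZMod (q + 1)) ((one : V ℕ) cs)) =
      (one : V (ZMod (q + 1))) := by
    ext cs
    by_cases hcs : cs = [] <;> simp [one, hcs]
  rw [h1] at h
  exact congrFun h cs

theorem act_le {B : ℕ} (o : Op) {f : V ℕ} (hf : ∀ cs, f cs ≤ B) : ∀ cs, act o f cs ≤ 3 * B := by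
  intro cs
  cases o with
  | P =>
    change (if cs = [] then 0 else f cs.dropLast) ≤ _
    have := hf cs.dropLast
    split_ifs <;> omega
  | N i =>
    change (∑ c : Fin 3, if c ∈ cs.drop i then 0 else f (cs.take i ++ c :: cs.drop i)) ≤ _
    calc (∑ c : Fin 3, if c ∈ cs.drop i then 0 else f (cs.take i ++ c :: cs.drop i))
        ≤ ∑ _c : Fin 3, B := by
          refine Finset.sum_le_sum fun c _ => ?_
          split_ifs
          · exact Nat.zero_le _
          · exact hf _
      _ = 3 * B := by simp
  | O c =>
    change (if c ∈ cs then 0 else f cs) ≤ _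
    have := hf cs
    split_ifs <;> omega

theorem run_le (Z : List Op) : ∀ (B : ℕ) (f : V ℕ), (∀ cs, f cs ≤ B) → ∀ cs,
    run Z f cs ≤ 3 ^ Z.length * B := by
  induction Z with
  | nil => intro B f hf cs; simpa using hf cs
  | cons o Z ih =>
    intro B f hf cs
    have := ih (3 * B) (act o f) (act_le o hf) cs
    rw [run_cons, List.length_cons, pow_succ, mul_assoc]
    exact this

theorem run_one_le (Z : List Op) (cs : List (Fin 3)) : run Z (one : V ℕ) cs ≤ 3 ^ Z.length := by
  have := run_le Z 1 one (fun cs => by unfold one; split_ifs <;> simp) cs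
  simpa using this

/-! ### The open labels -/

/-- The open labels after the word. -/
def opn (w : List ℕ) : List ℕ := (ops w).1

theorem ops_append_singleton (w : List ℕ) (a : ℕ) : ops (w ++ [a]) = opStep (ops w) a := by
  unfold ops
  rw [List.foldl_append]
  rfl

theorem opn_append_singleton (w : List ℕ) (a : ℕ) :
    opn (w ++ [a]) = if a ∈ opn w then (opn w).erase a else opn w ++ [a] := by
  unfold opn
  rw [ops_append_singleton]
  unfold opStep
  split_ifs <;> rfl

theorem length_ops (w : List ℕ) : (ops w).2.length = w.length := by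
  induction w using List.reverseRecOn with
  | nil => rfl
  | append_singleton w a ih =>
    rw [ops_append_singleton]
    unfold opStep
    split_ifs <;> simp [ih]

theorem opn_eq (w : List ℕ) (hw : ∀ a, w.count a ≤ 2) :
    opn w = w.filter (fun a => decide (w.count a = 1)) := by
  induction w using List.reverseRecOn with
  | nil => rfl
  | append_singleton w a ih =>
    have hw' : ∀ b, w.count b ≤ 2 := fun b => by
      have := hw b
      rw [List.count_append] at this
      omega
    have ih' := ih hw'
    have hmem : ∀ b, b ∈ opn w ↔ w.count b = 1 := by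
      intro b
      rw [ih', List.mem_filter, decide_eq_true_eq]
      constructor
      · exact fun h => h.2
      · intro h
        exact ⟨List.count_pos_iff.1 (by omega), h⟩
    have hca : w.count a + 1 ≤ 2 := by
      have := hw a
      rwa [List.count_append, List.count_singleton_self] at this
    have hcb : ∀ b, b ≠ a → (w ++ [a]).count b = w.count b := by
      intro b hb
      rw [List.count_append, List.count_singleton]
      simp [hb.symm]
    rw [opn_append_singleton, List.filter_append]
    by_cases ha : w.count a = 1
    · rw [if_pos ((hmem a).2 ha)]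
      have h1 : (w ++ [a]).count a = 2 := by
        rw [List.count_append, List.count_singleton_self]; omega
      have h2 : [a].filter (fun b => decide ((w ++ [a]).count b = 1)) = [] := by
        refine List.filter_eq_nil_iff.2 fun b hb => ?_
        rw [List.mem_singleton] at hb
        rw [hb, h1]
        decide
      rw [h2, List.append_nil]
      have hnd : (opn w).Nodup := by
        rw [ih', List.nodup_iff_count_le_one]
        intro b
        by_cases hb : w.count b = 1
        · exact (List.filter_sublist.count_le b).trans hb.le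
        · have : b ∉ w.filter (fun a => decide (w.count a = 1)) := by
            rw [List.mem_filter, decide_eq_true_eq]
            exact fun h => hb h.2
          rw [List.count_eq_zero_of_not_mem this]
          omega
      rw [hnd.erase_eq_filter, ih', List.filter_filter]
      refine List.filter_congr fun b hb => ?_
      by_cases hba : b = a
      · subst hba
        simp [ha, h1]
      · rw [hcb b hba]
        simp [hba]
    · have h0 : w.count a = 0 := by omega
      rw [if_neg (fun h => ha ((hmem a).1 h))]
      have h1 : (w ++ [a]).count a = 1 := by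
        rw [List.count_append, List.count_singleton_self]; omega
      have h2 : [a].filter (fun b => decide ((w ++ [a]).count b = 1)) = [a] := by
        refine List.filter_eq_self.2 fun b hb => ?_
        rw [List.mem_singleton] at hb
        rw [hb, h1]
        decide
      rw [h2, ih']
      congr 1
      refine List.filter_congr fun b hb => ?_
      have hba : b ≠ a := by
        rintro rfl
        exact (List.count_eq_zero.1 h0) hb
      rw [hcb b hba]

theorem mem_opn {w : List ℕ} (hw : ∀ a, w.count a ≤ 2) (b : ℕ) : b ∈ opn w ↔ w.count b = 1 := by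
  rw [opn_eq w hw, List.mem_filter, decide_eq_true_eq]
  constructor
  · exact fun h => h.2
  · intro h
    exact ⟨List.count_pos_iff.1 (by omega), h⟩

theorem nodup_opn {w : List ℕ} (hw : ∀ a, w.count a ≤ 2) : (opn w).Nodup := by
  rw [opn_eq w hw, List.nodup_iff_count_le_one]
  intro b
  by_cases hb : w.count b = 1
  · exact (List.filter_sublist.count_le b).trans hb.le
  · have : b ∉ w.filter (fun a => decide (w.count a = 1)) := by
      rw [List.mem_filter, decide_eq_true_eq]
      exact fun h => hb h.2
    rw [List.count_eq_zero_of_not_mem this]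
    omega

/-! ### Colourings -/

/-- When the chord `a` is closed, the chord `b` is open and later. -/
def Meet (w : List ℕ) (a b : ℕ) : Prop :=
  ∃ w₁ w₂, w = w₁ ++ a :: w₂ ∧ a ∈ opn w₁ ∧ b ∈ (opn w₁).drop ((opn w₁).idxOf a + 1)

/-- The colouring is proper for the crossings found so far. -/
def Prp (κ : ℕ → Fin 3) (w : List ℕ) : Prop := ∀ a b, Meet w a b → κ b ≠ κ a

theorem prp_append_singleton (κ : ℕ → Fin 3) (w : List ℕ) (x : ℕ) : Prp κ (w ++ [x]) ↔
    Prp κ w ∧ (x ∈ opn w → ∀ b ∈ (opn w).drop ((opn w).idxOf x + 1), κ b ≠ κ x) := by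
  constructor
  · intro h
    refine ⟨?_, fun hx b hb => h x b ⟨w, [], rfl, hx, hb⟩⟩
    rintro a b ⟨w₁, w₂, rfl, h1, h2⟩
    exact h a b ⟨w₁, w₂ ++ [x], by simp, h1, h2⟩
  · rintro ⟨h, h'⟩ a b ⟨w₁, w₂, hw, h1, h2⟩
    rcases List.eq_nil_or_concat w₂ with rfl | ⟨w₂', y, rfl⟩
    · have := List.append_inj' hw rfl
      obtain ⟨rfl, h3⟩ := this
      simp only [List.cons.injEq, and_true] at h3
      subst h3
      exact h' h1 b h2
    · rw [List.concat_eq_append, ← List.cons_append, ← List.append_assoc] at hw
      obtain ⟨rfl, -⟩ := List.append_inj' hw rfl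
      exact h a b ⟨w₁, w₂', rfl, h1, h2⟩

theorem meet_mem {w : List ℕ} {a b : ℕ} (hw : ∀ a, w.count a ≤ 2) (h : Meet w a b) :
    a ∈ w ∧ b ∈ w := by
  obtain ⟨w₁, w₂, rfl, h1, h2⟩ := h
  refine ⟨by simp, ?_⟩
  have h3 : b ∈ opn w₁ := List.mem_of_mem_drop h2
  have hw₁ : ∀ a, w₁.count a ≤ 2 := fun c => by
    have := hw c
    rw [List.count_append] at this
    omega
  rw [opn_eq w₁ hw₁, List.mem_filter] at h3
  simp [h3.1]

theorem value_ne_zero (w : List ℕ) (hw : ∀ a, w.count a ≤ 2) : ∀ cs : List (Fin 3),
    run (ops w).2 (one : V ℕ) cs ≠ 0 ↔ ∃ κ : ℕ → Fin 3, (opn w).map κ = cs ∧ Prp κ w := by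
  induction w using List.reverseRecOn with
  | nil =>
    intro cs
    have h0 : (ops []).2 = [] := rfl
    have h1 : opn [] = [] := rfl
    rw [h0, h1, run_nil]
    constructor
    · intro h
      by_cases hcs : cs = []
      · subst hcs
        refine ⟨fun _ => 0, rfl, ?_⟩
        rintro a b ⟨w₁, w₂, h, _⟩
        simp at h
      · simp [one, hcs] at h
    · rintro ⟨κ, h, _⟩
      rw [← h]
      simp [one]
  | append_singleton w a ih =>
    intro cs
    have hw' : ∀ b, w.count b ≤ 2 := fun b => by
      have := hw b
      rw [List.count_append] at this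
      omega
    have ih' := ih hw'
    have hnd := nodup_opn hw'
    rw [opn_append_singleton, ops_append_singleton]
    by_cases ha : a ∈ opn w
    · have e : opStep (ops w) a = ((ops w).1.erase a, (ops w).2 ++ [Op.N ((ops w).1.idxOf a)]) :=
        if_pos ha
      rw [e, if_pos ha]
      simp only
      rw [run_append]
      change opN ((opn w).idxOf a) (run (ops w).2 one) cs ≠ 0 ↔ _
      obtain ⟨l₁, l₂, hl⟩ := List.append_of_mem ha
      have hal₁ : a ∉ l₁ := by
        intro h
        rw [hl] at hnd
        exact (List.nodup_append.1 hnd).2.2 a h a (by simp) rfl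
      have hidx : (opn w).idxOf a = l₁.length := by
        rw [hl, List.idxOf_append_of_notMem hal₁, List.idxOf_cons_self, add_zero]
      have herase : (opn w).erase a = l₁ ++ l₂ := by
        rw [hl, List.erase_append_right _ hal₁, List.erase_cons_head]
      have hdrop : (opn w).drop ((opn w).idxOf a + 1) = l₂ := by
        rw [hidx, hl, ← List.drop_drop]
        simp
      rw [herase, hidx]
      constructor
      · intro h
        obtain ⟨c, hc1, hc2⟩ := opN_ne_zero h
        obtain ⟨κ, hκ1, hκ2⟩ := (ih' _).1 hc2
        rw [hl, List.map_append, List.map_cons] at hκ1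
        have hlen : l₁.length ≤ cs.length := by
          have := congrArg List.length hκ1
          rw [length_ins] at this
          simp only [List.length_append, List.length_cons, List.length_map] at this
          omega
        obtain ⟨e1, e2⟩ := List.append_inj hκ1 (by
          rw [List.length_map, List.length_take]; omega)
        simp only [List.cons.injEq] at e2
        refine ⟨κ, ?_, (prp_append_singleton _ _ _).2 ⟨hκ2, fun _ b hb => ?_⟩⟩
        · rw [List.map_append, e1, e2.2, List.take_append_drop]
        · rw [hdrop] at hb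
          rw [e2.1]
          rintro rfl
          exact hc1 (by rw [← e2.2]; exact List.mem_map_of_mem hb)
      · rintro ⟨κ, hκ1, hκ2⟩
        obtain ⟨hκ3, hκ4⟩ := (prp_append_singleton _ _ _).1 hκ2
        have hκ5 := hκ4 ha
        rw [hdrop] at hκ5
        have hv : run (ops w).2 (one : V ℕ) ((opn w).map κ) ≠ 0 := (ih' _).2 ⟨κ, rfl, hκ3⟩
        have ht : cs.take l₁.length = l₁.map κ := by
          rw [← hκ1, List.map_append, List.take_append_of_le_length (by simp),
            List.take_of_length_le (by simp)]
        have hd : cs.drop l₁.length = l₂.map κ := by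
          rw [← hκ1, List.map_append]
          simp
        rw [opN_apply]
        intro hsum
        have h0 := (Finset.sum_eq_zero_iff.1 hsum) (κ a) (Finset.mem_univ _)
        rw [ht, hd, if_neg] at h0
        · apply hv
          rw [hl, List.map_append, List.map_cons]
          exact h0
        · intro hm
          obtain ⟨b, hb, hb'⟩ := List.mem_map.1 hm
          exact hκ5 b hb hb'
    · have e : opStep (ops w) a = ((ops w).1 ++ [a], (ops w).2 ++ [Op.P]) := if_neg ha
      rw [e, if_neg ha]
      simp only
      rw [run_append]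
      change opP (run (ops w).2 one) cs ≠ 0 ↔ _
      have haw : a ∉ w := by
        intro h
        have h1 := hw a
        rw [List.count_append, List.count_singleton_self] at h1
        have h2 := List.count_pos_iff.2 h
        exact ha ((mem_opn hw' a).2 (by omega))
      rw [opP_apply]
      constructor
      · intro h
        by_cases hcs : cs = []
        · simp [hcs] at h
        · rw [if_neg hcs] at h
          obtain ⟨κ, hκ1, hκ2⟩ := (ih' _).1 h
          refine ⟨Function.update κ a (cs.getLast hcs), ?_,
            (prp_append_singleton _ _ _).2 ⟨?_, fun h => absurd h ha⟩⟩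
          · rw [List.map_append, List.map_singleton, Function.update_self]
            have : (opn w).map (Function.update κ a (cs.getLast hcs)) = (opn w).map κ := by
              refine List.map_congr_left fun b hb => ?_
              rw [Function.update_of_ne]
              rintro rfl
              exact ha hb
            rw [this, hκ1, List.dropLast_append_getLast]
          · intro b c hbc
            obtain ⟨hb, hc⟩ := meet_mem hw' hbc
            rw [Function.update_of_ne, Function.update_of_ne]
            · exact hκ2 b c hbc
            · rintro rfl; exact haw hb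
            · rintro rfl; exact haw hc
      · rintro ⟨κ, hκ1, hκ2⟩
        rw [List.map_append, List.map_singleton] at hκ1
        have hcs : cs ≠ [] := by
          rw [← hκ1]
          simp
        rw [if_neg hcs]
        refine (ih' _).2 ⟨κ, ?_, ((prp_append_singleton _ _ _).1 hκ2).1⟩
        rw [← hκ1, List.dropLast_concat]

/-! ### Crossings -/

theorem meet_iff {w : List ℕ} (hw : IsChordDiagram w) (a b : ℕ) :
    Meet w a b ↔ a ≠ b ∧ List.Sublist [a, b, a, b] w := by
  have hw2 : ∀ a, w.count a ≤ 2 := fun a => by
    by_cases h : a ∈ w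
    · exact (hw a h).le
    · rw [List.count_eq_zero_of_not_mem h]; omega
  constructor
  · rintro ⟨w₁, w₂, rfl, h1, h2⟩
    have hw₁ : ∀ a, w₁.count a ≤ 2 := fun c => by
      have := hw2 c
      rw [List.count_append] at this
      omega
    have hnd := nodup_opn hw₁
    obtain ⟨l₁, l₂, hl⟩ := List.append_of_mem h1
    have hal₁ : a ∉ l₁ := by
      intro h
      rw [hl] at hnd
      exact (List.nodup_append.1 hnd).2.2 a h a (by simp) rfl
    have hidx : (opn w₁).idxOf a = l₁.length := by
      rw [hl, List.idxOf_append_of_notMem hal₁, List.idxOf_cons_self, add_zero]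
    have hdrop : (opn w₁).drop ((opn w₁).idxOf a + 1) = l₂ := by
      rw [hidx, hl, ← List.drop_drop]
      simp
    rw [hdrop] at h2
    have hab : a ≠ b := by
      rintro rfl
      rw [hl] at hnd
      have := (List.nodup_append.1 hnd).2.1
      exact (List.nodup_cons.1 this).1 h2
    refine ⟨hab, ?_⟩
    have h3 : List.Sublist [a, b] w₁ := by
      have e1 : List.Sublist [a, b] (opn w₁) := by
        rw [hl]
        have : List.Sublist ([] ++ [a, b]) (l₁ ++ a :: l₂) :=
          (List.nil_sublist _).append (List.Sublist.cons_cons _ (List.singleton_sublist.2 h2))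
        exact this
      rw [opn_eq w₁ hw₁] at e1
      exact e1.trans List.filter_sublist
    have hbw : b ∈ w₁ := h3.subset (by simp)
    have hb1 : w₁.count b = 1 := by
      rw [← mem_opn hw₁, hl]
      simp [h2]
    have hb2 : b ∈ w₂ := by
      have h4 := hw b (by simp [hbw])
      rw [List.count_append, List.count_cons, hb1] at h4
      have : ¬ (a == b) = true := by simpa using hab
      rw [if_neg this] at h4
      exact List.count_pos_iff.1 (by omega)
    have : List.Sublist ([a, b] ++ ([a] ++ [b])) (w₁ ++ ([a] ++ w₂)) :=
      h3.append ((List.Sublist.refl _).append (List.singleton_sublist.2 hb2))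
    simpa using this
  · rintro ⟨hab, h⟩
    have h' : List.Sublist ([a, b] ++ [a, b]) w := h
    obtain ⟨r₁, r₂, rfl, h1, h2⟩ := List.append_sublist_iff.1 h'
    obtain ⟨s₁, s₂, rfl, hs1, hs2⟩ := List.cons_sublist_iff.1 h2
    obtain ⟨t₁, t₂, rfl⟩ := List.append_of_mem hs1
    have hcount := fun c => hw2 c
    refine ⟨r₁ ++ t₁, t₂ ++ s₂, by simp, ?_⟩
    have ha1 : 0 < r₁.count a := List.count_pos_iff.2 (h1.subset (by simp))
    have hb1 : 0 < r₁.count b := List.count_pos_iff.2 (h1.subset (by simp))
    have hb2 : 0 < s₂.count b := List.count_pos_iff.2 (hs2.subset (by simp))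
    have hca := hcount a
    have hcb := hcount b
    simp only [List.count_append, List.count_cons] at hca hcb
    have hw₁ : ∀ c, (r₁ ++ t₁).count c ≤ 2 := fun c => by
      have := hcount c
      simp only [List.count_append] at this ⊢
      omega
    have hma : (r₁ ++ t₁).count a = 1 := by
      rw [List.count_append]
      simp only [BEq.rfl, if_true] at hca
      omega
    have hmb : (r₁ ++ t₁).count b = 1 := by
      rw [List.count_append]
      omega
    have hao : a ∈ opn (r₁ ++ t₁) := (mem_opn hw₁ a).2 hma
    refine ⟨hao, ?_⟩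
    have hsub : List.Sublist [a, b] (opn (r₁ ++ t₁)) := by
      rw [opn_eq _ hw₁]
      have e1 : [a, b].filter (fun c => decide ((r₁ ++ t₁).count c = 1)) = [a, b] := by
        refine List.filter_eq_self.2 fun c hc => ?_
        simp only [List.mem_cons, List.not_mem_nil, or_false] at hc
        rcases hc with rfl | rfl
        · rw [hma]; decide
        · rw [hmb]; decide
      have e2 : List.Sublist [a, b] (r₁ ++ t₁) := h1.trans (List.sublist_append_left _ _)
      rw [← e1]
      exact e2.filter _
    have hnd := nodup_opn hw₁
    obtain ⟨u₁, u₂, hu, hu1, hu2⟩ := List.cons_sublist_iff.1 hsub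
    obtain ⟨v₁, v₂, rfl⟩ := List.append_of_mem hu1
    have hl : opn (r₁ ++ t₁) = v₁ ++ a :: (v₂ ++ u₂) := by
      rw [hu]
      simp
    have hal₁ : a ∉ v₁ := by
      intro h
      rw [hl] at hnd
      exact (List.nodup_append.1 hnd).2.2 a h a (by simp) rfl
    have hidx : (opn (r₁ ++ t₁)).idxOf a = v₁.length := by
      rw [hl, List.idxOf_append_of_notMem hal₁, List.idxOf_cons_self, add_zero]
    rw [hidx, hl, ← List.drop_drop]
    have hbu : b ∈ u₂ := hu2.subset (by simp)
    simp [hbu]

theorem colorable_iff {w : List ℕ} (hw : IsChordDiagram w) :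
    (circleGraph w).Colorable 3 ↔ ∃ κ : ℕ → Fin 3, Prp κ w := by
  classical
  constructor
  · rintro ⟨C⟩
    refine ⟨fun x => if h : x ∈ w then C ⟨x, h⟩ else 0, ?_⟩
    intro a b hab
    obtain ⟨h1, h2⟩ := (meet_iff hw a b).1 hab
    have ha : a ∈ w := h2.subset (by simp)
    have hb : b ∈ w := h2.subset (by simp)
    simp only [dif_pos ha, dif_pos hb]
    refine C.valid (v := ⟨b, hb⟩) (w := ⟨a, ha⟩) ?_
    exact ⟨fun h => h1 (congrArg Subtype.val h).symm, Or.inr h2⟩
  · rintro ⟨κ, hκ⟩
    refine ⟨SimpleGraph.Coloring.mk (fun x => κ x.1) ?_⟩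
    rintro ⟨a, ha⟩ ⟨b, hb⟩ ⟨h1, h2⟩
    have hab : a ≠ b := fun h => h1 (Subtype.ext h)
    simp only at h2 ⊢
    rcases h2 with h2 | h2
    · exact fun h => hκ a b ((meet_iff hw a b).2 ⟨hab, h2⟩) h.symm
    · exact hκ b a ((meet_iff hw b a).2 ⟨hab.symm, h2⟩)

theorem opn_eq_nil {w : List ℕ} (hw : IsChordDiagram w) : opn w = [] := by
  have hw2 : ∀ a, w.count a ≤ 2 := fun a => by
    by_cases h : a ∈ w
    · exact (hw a h).le
    · rw [List.count_eq_zero_of_not_mem h]; omega
  rw [opn_eq w hw2, List.filter_eq_nil_iff]
  intro a ha
  rw [decide_eq_true_eq, hw a ha]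
  omega

/-- The value of a chord diagram is positive iff the circle graph is 3-colourable. -/
theorem value_iff {w : List ℕ} (hw : IsChordDiagram w) :
    run (ops w).2 (one : V ℕ) [] ≠ 0 ↔ (circleGraph w).Colorable 3 := by
  have hw2 : ∀ a, w.count a ≤ 2 := fun a => by
    by_cases h : a ∈ w
    · exact (hw a h).le
    · rw [List.count_eq_zero_of_not_mem h]; omega
  rw [value_ne_zero w hw2, colorable_iff hw]
  constructor
  · rintro ⟨κ, _, h⟩
    exact ⟨κ, h⟩
  · rintro ⟨κ, h⟩
    exact ⟨κ, by rw [opn_eq_nil hw]; rfl, h⟩

end Pool.Agent.H502_C3
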