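import Mathlib

/-!
# Sweeping a chord diagram: operators on functions of the colours of the open chords

The open chords are listed in the order of their starts; a function `f : V K` gives a value to every
list of colours.  `opP` appends a new chord, `opN i` closes the open chord with index `i` (it crosses
the open chords after it), `opO c` closes a chord of colour `c` that is older than all the listed
ones.
-/

namespace Pool.Agent.H502_C3

/-- The operations of the sweep. -/
inductive Op : Type
  | P : Op
  | N (i : ℕ) : Op
  | O (c : Fin 3) : Op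
  deriving DecidableEq

/-- Functions of lists of colours. -/
abbrev V (K : Type) : Type := List (Fin 3) → K

variable {K : Type} [CommSemiring K]

/-- A new chord at the end of the list. -/
def opP : V K →ₗ[K] V K where
  toFun f := fun cs => if cs = [] then 0 else f cs.dropLast
  map_add' f g := by ext cs; by_cases h : cs = [] <;> simp [h]
  map_smul' a f := by ext cs; by_cases h : cs = [] <;> simp [h]

/-- Closing the chord with index `i`. -/
def opN (i : ℕ) : V K →ₗ[K] V K where
  toFun f := fun cs => ∑ c : Fin 3, if c ∈ cs.drop i then 0 else f (cs.take i ++ c :: cs.drop i)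
  map_add' f g := by
    ext cs
    simp only [Pi.add_apply, ← Finset.sum_add_distrib]
    refine Finset.sum_congr rfl fun c _ => ?_
    split_ifs <;> simp
  map_smul' a f := by
    ext cs
    simp only [Pi.smul_apply, smul_eq_mul, RingHom.id_apply, Finset.mul_sum]
    refine Finset.sum_congr rfl fun c _ => ?_
    split_ifs <;> simp

/-- Closing an older chord of colour `c`. -/
def opO (c : Fin 3) : V K →ₗ[K] V K where
  toFun f := fun cs => if c ∈ cs then 0 else f cs
  map_add' f g := by ext cs; by_cases h : c ∈ cs <;> simp [h]
  map_smul' a f := by ext cs; by_cases h : c ∈ cs <;> simp [h]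

/-- The function of the empty list. -/
def one : V K := fun cs => if cs = [] then 1 else 0

/-- The operator of an operation. -/
def act : Op → (V K →ₗ[K] V K)
  | Op.P => opP
  | Op.N i => opN i
  | Op.O c => opO c

/-- The operator of a word of operations, the first one applied first. -/
def run : List Op → (V K →ₗ[K] V K)
  | [] => LinearMap.id
  | o :: Z => (run Z).comp (act o)

@[simp] theorem run_nil (f : V K) : run [] f = f := rfl
@[simp] theorem run_cons (o : Op) (Z : List Op) (f : V K) : run (o :: Z) f = run Z (act o f) := rfl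

theorem run_append (Z Z' : List Op) (f : V K) : run (Z ++ Z') f = run Z' (run Z f) := by
  induction Z generalizing f with
  | nil => rfl
  | cons o Z ih => simp [ih]

theorem opP_apply (f : V K) (cs : List (Fin 3)) :
    opP f cs = if cs = [] then 0 else f cs.dropLast := rfl

theorem opN_apply (i : ℕ) (f : V K) (cs : List (Fin 3)) :
    opN i f cs = ∑ c : Fin 3, if c ∈ cs.drop i then 0 else f (cs.take i ++ c :: cs.drop i) := rfl

theorem opO_apply (c : Fin 3) (f : V K) (cs : List (Fin 3)) :
    opO c f cs = if c ∈ cs then 0 else f cs := rfl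

/-- The shape of an operation: the colour is forgotten. -/
def sh : Op → Op
  | Op.O _ => Op.O 0
  | o => o

/-- The span of the functions of all the words with the shape of `Z`. -/
def S (K : Type) [CommSemiring K] (Z : List Op) : Submodule K (V K) :=
  Submodule.span K {f | ∃ Z' : List Op, Z'.map sh = Z.map sh ∧ f = run Z' one}

theorem run_mem_S (Z : List Op) : run Z (one : V K) ∈ S K Z :=
  Submodule.subset_span ⟨Z, rfl, rfl⟩

theorem S_congr {Z Z' : List Op} (h : Z.map sh = Z'.map sh) : S K Z = S K Z' := by
  unfold S
  rw [h]

theorem act_mem_S {Z : List Op} {f : V K} (hf : f ∈ S K Z) (o o' : Op) (ho : sh o = sh o') :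
    act o f ∈ S K (Z ++ [o']) := by
  have h1 : S K Z ≤ (S K (Z ++ [o'])).comap (act o) := by
    refine Submodule.span_le.2 ?_
    rintro _ ⟨Z', h, rfl⟩
    refine Submodule.subset_span ⟨Z' ++ [o], ?_, ?_⟩
    · simp [h, ho]
    · rw [run_append]; rfl
  exact h1 hf

/-- The function vanishes on the lists whose length is not `n`. -/
def Supp (f : V K) (n : ℕ) : Prop := ∀ cs, f cs ≠ 0 → cs.length = n

theorem supp_one : Supp (one : V K) 0 := by
  intro cs h
  by_contra hc
  refine h ?_
  have : cs ≠ [] := by rintro rfl; exact hc rfl
  simp [one, this]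

theorem Supp.P {f : V K} {n : ℕ} (h : Supp f n) : Supp (opP f) (n + 1) := by
  intro cs hcs
  rw [opP_apply] at hcs
  by_cases h0 : cs = []
  · simp [h0] at hcs
  · rw [if_neg h0] at hcs
    have := h _ hcs
    rw [List.length_dropLast] at this
    have h1 : 0 < cs.length := List.length_pos_iff.2 h0
    omega

theorem opN_ne_zero {f : V K} {i : ℕ} {cs : List (Fin 3)} (h : opN i f cs ≠ 0) :
    ∃ c, c ∉ cs.drop i ∧ f (cs.take i ++ c :: cs.drop i) ≠ 0 := by
  by_contra hcon
  push Not at hcon
  refine h ?_
  rw [opN_apply]
  refine Finset.sum_eq_zero fun c _ => ?_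
  split_ifs with hc
  · rfl
  · exact hcon c hc

theorem length_ins (i : ℕ) (c : Fin 3) (cs : List (Fin 3)) :
    (cs.take i ++ c :: cs.drop i).length = cs.length + 1 := by
  simp only [List.length_append, List.length_cons, List.length_take, List.length_drop]
  omega

theorem Supp.N {f : V K} {n : ℕ} (h : Supp f (n + 1)) (i : ℕ) : Supp (opN i f) n := by
  intro cs hcs
  obtain ⟨c, _, hc⟩ := opN_ne_zero hcs
  have := h _ hc
  rw [length_ins] at this
  omega

theorem Supp.O {f : V K} {n : ℕ} (h : Supp f n) (c : Fin 3) : Supp (opO c f) n := by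
  intro cs hcs
  rw [opO_apply] at hcs
  split_ifs at hcs with hc
  · exact absurd rfl hcs
  · exact h _ hcs

/-- The number of open chords after the word, if there are `m` before it. -/
def opens : ℕ → List Op → ℕ
  | m, [] => m
  | m, Op.P :: Z => opens (m + 1) Z
  | m, Op.N _ :: Z => opens (m - 1) Z
  | m, Op.O _ :: Z => opens m Z

/-- The word is admissible if there are `m` open chords before it. -/
def Ok : ℕ → List Op → Prop
  | _, [] => True
  | m, Op.P :: Z => Ok (m + 1) Z
  | m, Op.N i :: Z => i < m ∧ Ok (m - 1) Z
  | m, Op.O _ :: Z => Ok m Z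

theorem opens_append (m : ℕ) (Z Z' : List Op) : opens m (Z ++ Z') = opens (opens m Z) Z' := by
  induction Z generalizing m with
  | nil => rfl
  | cons o Z ih => cases o <;> simp [opens, ih]

theorem ok_append (m : ℕ) (Z Z' : List Op) : Ok m (Z ++ Z') ↔ Ok m Z ∧ Ok (opens m Z) Z' := by
  induction Z generalizing m with
  | nil => simp [Ok, opens]
  | cons o Z ih => cases o <;> simp [Ok, opens, ih, and_assoc]

theorem opens_sh (m : ℕ) {Z Z' : List Op} (h : Z.map sh = Z'.map sh) : opens m Z = opens m Z' := by
  induction Z generalizing m Z' with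
  | nil => cases Z' <;> simp_all
  | cons o Z ih =>
    cases Z' with
    | nil => simp at h
    | cons o' Z' =>
      rw [List.map_cons, List.map_cons, List.cons.injEq] at h
      obtain ⟨h1, h2⟩ := h
      cases o <;> cases o' <;> simp [sh] at h1 <;> simp only [opens] <;> exact ih _ h2

theorem ok_sh (m : ℕ) {Z Z' : List Op} (h : Z.map sh = Z'.map sh) (hZ : Ok m Z) : Ok m Z' := by
  induction Z generalizing m Z' with
  | nil => cases Z' <;> simp_all [Ok]
  | cons o Z ih =>
    cases Z' with
    | nil => simp at h
    | cons o' Z' =>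
      rw [List.map_cons, List.map_cons, List.cons.injEq] at h
      obtain ⟨h1, h2⟩ := h
      cases o <;> cases o' <;> simp [sh] at h1 <;> simp only [Ok] at hZ ⊢
      · exact ih _ h2 hZ
      · exact ⟨h1 ▸ hZ.1, ih _ h2 hZ.2⟩
      · exact ih _ h2 hZ

theorem Supp.run {Z : List Op} {f : V K} {m : ℕ} (hf : Supp f m) (hZ : Ok m Z) :
    Supp (run Z f) (opens m Z) := by
  induction Z generalizing f m with
  | nil => exact hf
  | cons o Z ih =>
    cases o with
    | P => exact ih hf.P hZ
    | N i =>
      obtain ⟨h1, h2⟩ := hZ
      obtain ⟨m, rfl⟩ : ∃ k, m = k + 1 := ⟨m - 1, by omega⟩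
      exact ih (hf.N i) h2
    | O c => exact ih (hf.O c) hZ

end Pool.Agent.H502_C3
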