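import Pool.Agent.H502_C3.Count
import Pool.Agent.H671R2.PolyAuto
import Pool.Agent.H687R2.PolyOn
import Pool.Agent.NPC.Dec

/-!
# Polynomial time: the operations on vectors
-/

namespace Pool.Agent.H502_C3

open Pool.Agent.NPC

section Basic

variable {α β γ δ : Type} [TEnc α] [TEnc β] [TEnc γ] [TEnc δ]

omit [TEnc β] in
theorem take_eq : ∀ (l : List β) (k n : ℕ),
    ((l.zipIdx k).filter (fun p => decide (p.2 < k + n))).map Prod.fst = l.take n := by
  intro l
  induction l with
  | nil => intro k n; simp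
  | cons b l ih =>
    intro k n
    cases n with
    | zero =>
      rw [List.take_zero, List.map_eq_nil_iff, List.filter_eq_nil_iff]
      rintro ⟨c, j⟩ hc
      have := List.le_snd_of_mem_zipIdx hc
      simp at this ⊢
      omega
    | succ n =>
      have h1 := ih (k + 1) n
      simp only [List.zipIdx_cons, List.take_succ_cons]
      rw [List.filter_cons_of_pos (by simp), List.map_cons]
      congr 1
      rw [← h1]
      congr 2
      funext p
      congr 1
      apply propext
      omega

omit [TEnc β] in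
theorem drop_eq : ∀ (l : List β) (k n : ℕ),
    ((l.zipIdx k).filter (fun p => decide (k + n ≤ p.2))).map Prod.fst = l.drop n := by
  intro l
  induction l with
  | nil => intro k n; simp
  | cons b l ih =>
    intro k n
    cases n with
    | zero =>
      rw [List.drop_zero]
      have : ((b :: l).zipIdx k).filter (fun p => decide (k + 0 ≤ p.2)) = (b :: l).zipIdx k := by
        rw [List.filter_eq_self]
        rintro ⟨c, j⟩ hc
        have := List.le_snd_of_mem_zipIdx hc
        simp at this ⊢
        omega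
      rw [this, List.zipIdx_map_fst]
    | succ n =>
      have h1 := ih (k + 1) n
      simp only [List.zipIdx_cons, List.drop_succ_cons]
      rw [List.filter_cons_of_neg (by simp)]
      rw [← h1]
      congr 2
      funext p
      congr 1
      apply propext
      omega

@[fun_prop]
theorem poly_take {l : α → List β} {n : α → ℕ} (hl : Poly l) (hn : Poly n) :
    Poly (fun a => (l a).take (n a)) := by
  have h : Poly (fun a => (((l a).zipIdx).filter (fun p => decide (p.2 < n a))).map Prod.fst) := by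
    fun_prop
  exact h.congr fun a => by simpa using take_eq (l a) 0 (n a)

@[fun_prop]
theorem poly_drop {l : α → List β} {n : α → ℕ} (hl : Poly l) (hn : Poly n) :
    Poly (fun a => (l a).drop (n a)) := by
  have h : Poly (fun a => (((l a).zipIdx).filter (fun p => decide (n a ≤ p.2))).map Prod.fst) := by
    fun_prop
  exact h.congr fun a => by simpa using drop_eq (l a) 0 (n a)

theorem poly_idxOf [DecidableEq β] {l : α → List β} {b : α → β} (hl : Poly l) (hb : Poly b) :
    Poly (fun a => (l a).idxOf (b a)) := by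
  obtain ⟨r, hr⟩ := hl.sz_le
  have key : ∀ (b : β) (l : List β),
      l.foldr (fun x acc => if x = b then 0 else acc + 1) 0 = l.idxOf b := by
    intro b l
    induction l with
    | nil => rfl
    | cons x l ih =>
      rw [List.foldr_cons, ih, List.idxOf_cons]
      by_cases h : x = b
      · simp [h]
      · have h' : (x == b) = false := by simpa using h
        simp [h, h']
  refine (NPC.Poly.foldr (l := l) (s := fun _ => 0)
    (F := fun a x acc => if x = b a then 0 else acc + 1) hl (NPC.Poly.const _)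
    (NPC.Poly.ite (NPC.Poly.decide_eq (NPC.Poly.fst (NPC.Poly.snd NPC.Poly.id)) (hb.comp (NPC.Poly.fst NPC.Poly.id)))
      (NPC.Poly.const 0) (NPC.Poly.succ (NPC.Poly.snd (NPC.Poly.snd NPC.Poly.id))))
      (Polynomial.C 4 * r + Polynomial.C 1) ?_).congr
    fun a => key (b a) (l a)
  intro a k _
  rw [key]
  have h1 := List.idxOf_le_length (l := (l a).drop k) (a := b a)
  have h2 := sz_nat_le (((l a).drop k).idxOf (b a))
  have h3 := NPC.Poly.size_le_self (((l a).drop k).idxOf (b a))
  have h4 := length_lt_sz (l a)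
  have h5 := hr a
  simp only [List.length_drop] at h1
  simp only [Polynomial.eval_add, Polynomial.eval_mul, Polynomial.eval_C]
  omega

theorem poly_erase [DecidableEq β] {l : α → List β} {b : α → β} (hl : Poly l) (hb : Poly b) :
    Poly (fun a => (l a).erase (b a)) := by
  have hi := poly_idxOf hl hb
  have h : Poly (fun a => (l a).take ((l a).idxOf (b a)) ++ (l a).drop ((l a).idxOf (b a) + 1)) :=
    NPC.Poly.append (poly_take hl hi) (poly_drop hl (NPC.Poly.succ hi))
  refine h.congr fun a => ?_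
  rw [← List.eraseIdx_eq_take_drop_succ, List.eraseIdx_idxOf_eq_erase]

theorem poly_count [DecidableEq β] {l : α → List β} {b : α → β} (hl : Poly l) (hb : Poly b) :
    Poly (fun a => (l a).count (b a)) := by
  refine (NPC.Poly.length (NPC.Poly.filter (p := fun a x => decide (x = b a)) hl
    (NPC.Poly.decide_eq (NPC.Poly.snd NPC.Poly.id) (hb.comp (NPC.Poly.fst NPC.Poly.id))))).congr fun a => ?_
  rw [List.count_eq_length_filter]
  congr 1

theorem poly_replicate {n : α → ℕ} {b : α → β} (hn : UPoly n) (hb : Poly b) :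
    Poly (fun a => List.replicate (n a) (b a)) :=
  (NPC.Poly.map (F := fun a (_ : Unit) => b a) hn (hb.comp (NPC.Poly.fst NPC.Poly.id))).congr fun a => by
    simp

/-! ### Size bounds -/

/-- Vectors of length at most `a` with entries at most `b`. -/
def VB (a b : ℕ) (v : List ℕ) : Prop := v.length ≤ a ∧ ∀ x ∈ v, x ≤ b

theorem VB.sz_le {a b : ℕ} {v : List ℕ} (h : VB a b v) : sz v ≤ a * (2 * sz b + 1) + 1 := by
  have h1 := sz_le_length_mul v (2 * sz b) (fun x hx => sz_nat_mono_le (h.2 x hx))
  have h2 : v.length * (2 * sz b + 1) ≤ a * (2 * sz b + 1) := Nat.mul_le_mul_right _ h.1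
  omega

theorem sz_list_le {l : List β} {a b : ℕ} (h : l.length ≤ a) (h' : ∀ x ∈ l, sz x ≤ b) :
    sz l ≤ a * (b + 1) + 1 := by
  have h1 := sz_le_length_mul l b h'
  have h2 : l.length * (b + 1) ≤ a * (b + 1) := Nat.mul_le_mul_right _ h
  omega

theorem VB.mono {a b a' b' : ℕ} {v : List ℕ} (h : VB a b v) (ha : a ≤ a') (hb : b ≤ b') :
    VB a' b' v := ⟨h.1.trans ha, fun x hx => (h.2 x hx).trans hb⟩

/-! ### Vector operations -/

theorem subm_le (q x : ℕ) (v r : List ℕ) : (subm q x v r).length ≤ v.length ∧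
    ∀ y ∈ subm q x v r, y ≤ q := by
  refine ⟨by simp [subm], fun y hy => ?_⟩
  unfold subm at hy
  obtain ⟨i, hi, rfl⟩ := List.getElem_of_mem hy
  rw [List.getElem_zipWith]
  exact Nat.le_of_lt_succ (Nat.mod_lt _ (Nat.succ_pos q))

theorem poly_subm {q x : α → ℕ} {v r : α → List ℕ} (hq : Poly q) (hx : Poly x) (hv : Poly v)
    (hr : Poly r) : Poly (fun a => subm (q a) (x a) (v a) (r a)) := by
  unfold subm
  refine NPC.Poly.zipWith (F := fun a c d => (c + (q a + 1 - x a % (q a + 1)) * d) % (q a + 1))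
    hv hr ?_
  fun_prop

theorem redv_le (q : ℕ) : ∀ (R : List (ℕ × List ℕ)) (v : List ℕ),
    (redv q R v).length ≤ v.length ∧ ∀ y ∈ redv q R v, y ≤ q ∨ y ∈ v
  | [], v => ⟨le_rfl, fun y hy => Or.inr hy⟩
  | e :: R, v => by
    have h1 := redv_le q R (subm q (v.getD e.1 0) v e.2)
    have h2 := subm_le q (v.getD e.1 0) v e.2
    refine ⟨h1.1.trans h2.1, fun y hy => ?_⟩
    rcases h1.2 y hy with h | h
    · exact Or.inl h
    · exact Or.inl (h2.2 y h)

theorem poly_redv {q : α → ℕ} {R : α → List (ℕ × List ℕ)} {v : α → List ℕ} (hq : Poly q)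
    (hR : Poly R) (hv : Poly v) : Poly (fun a => redv (q a) (R a) (v a)) := by
  unfold redv
  obtain ⟨rq, hrq⟩ := hq.sz_le
  obtain ⟨rv, hrv⟩ := hv.sz_le
  refine NPC.Poly.foldl (l := R) (s := v) (F := fun a v e => subm (q a) (v.getD e.1 0) v e.2) hR hv ?_
    (rv * (Polynomial.C 2 * rq + rv + 1) + 1) ?_
  · refine poly_subm (hq.comp (NPC.Poly.fst NPC.Poly.id)) ?_ ?_ ?_ <;> fun_prop
  · intro a k _
    have h1 := redv_le (q a) ((R a).take k) (v a)
    change sz (redv (q a) ((R a).take k) (v a)) ≤ _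
    have h2 := sz_list_le (l := redv (q a) ((R a).take k) (v a)) h1.1
      (b := 2 * sz (q a) + sz (v a)) (fun y hy => by
        rcases h1.2 y hy with h | h
        · have := sz_nat_mono_le h
          omega
        · have := sz_le_of_mem h
          omega)
    have h3 := hrq a
    have h4 := hrv a
    have h5 := length_lt_sz (v a)
    simp only [Polynomial.eval_add, Polynomial.eval_mul, Polynomial.eval_C, Polynomial.eval_one]
    refine h2.trans ?_
    gcongr
    omega

@[fun_prop]
theorem poly_pinv {q x : α → ℕ} {U : α → List ℕ} (hq : Poly q) (hU : Poly U) (hx : Poly x) :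
    Poly (fun a => pinv (q a) (U a) (x a)) := by
  unfold pinv
  fun_prop

theorem poly_addR {q : α → ℕ} {U : α → List ℕ} {R : α → List (ℕ × List ℕ)} {v : α → List ℕ}
    {e : α → ℕ × ℕ} (hq : Poly q) (hU : Poly U) (hR : Poly R) (hv : Poly v) (he : Poly e) :
    Poly (fun a => addR (q a) (U a) (R a) (v a) (e a)) := by
  unfold addR
  have hw : Poly (fun a => (v a).map (fun x => x * pinv (q a) (U a) (e a).1 % (q a + 1))) := by
    fun_prop
  refine NPC.Poly.append ?_ (NPC.Poly.cons (NPC.Poly.pair (NPC.Poly.snd he) hw) (NPC.Poly.const []))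
  refine NPC.Poly.map (F := fun a r => (r.1, subm (q a) (r.2.getD (e a).2 0) r.2
    ((v a).map (fun x => x * pinv (q a) (U a) (e a).1 % (q a + 1))))) hR ?_
  refine NPC.Poly.pair (NPC.Poly.fst (NPC.Poly.snd NPC.Poly.id)) (poly_subm (hq.comp (NPC.Poly.fst NPC.Poly.id)) ?_
    (NPC.Poly.snd (NPC.Poly.snd NPC.Poly.id)) (hw.comp (NPC.Poly.fst NPC.Poly.id)))
  exact NPC.Poly.getD (NPC.Poly.snd (NPC.Poly.snd NPC.Poly.id)) (NPC.Poly.snd (he.comp (NPC.Poly.fst NPC.Poly.id)))
    (NPC.Poly.const 0)

theorem poly_insR {q : α → ℕ} {U : α → List ℕ} {R : α → List (ℕ × List ℕ)} {v : α → List ℕ}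
    (hq : Poly q) (hU : Poly U) (hR : Poly R) (hv : Poly v) :
    Poly (fun a => insR (q a) (U a) (R a) (v a)) := by
  unfold insR
  have hr := poly_redv hq hR hv
  have ho : Poly (fun a => ((redv (q a) (R a) (v a)).zipIdx.filter
      (fun e => decide (e.1 % (q a + 1) ≠ 0))).head?) := by
    refine NPC.Poly.head? (NPC.Poly.filter (p := fun a e => decide (e.1 % (q a + 1) ≠ 0))
      (NPC.Poly.zipIdx hr) ?_)
    fun_prop
  exact NPC.Poly.optElim (h := fun a e => addR (q a) (U a) (R a) (redv (q a) (R a) (v a)) e) ho hR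
    (poly_addR (hq.comp (NPC.Poly.fst NPC.Poly.id)) (hU.comp (NPC.Poly.fst NPC.Poly.id))
      (hR.comp (NPC.Poly.fst NPC.Poly.id)) (hr.comp (NPC.Poly.fst NPC.Poly.id)) (NPC.Poly.snd NPC.Poly.id))

theorem insR_le {q N : ℕ} {U : List ℕ} {R : List (ℕ × List ℕ)} {v : List ℕ}
    (hR : ∀ e ∈ R, e.1 ≤ N ∧ VB N q e.2) (hv : v.length ≤ N) :
    (insR q U R v).length ≤ R.length + 1 ∧ ∀ e ∈ insR q U R v, e.1 ≤ N ∧ VB N q e.2 := by
  unfold insR
  have h1 := (redv_le q R v).1
  set v' := redv q R v
  cases hc : (v'.zipIdx.filter (fun e => decide (e.1 % (q + 1) ≠ 0))).head? with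
  | none => exact ⟨by simp, hR⟩
  | some e =>
    simp only [Option.elim]
    have he := List.mem_of_mem_head? (Option.mem_def.2 hc)
    rw [List.mem_filter, List.mem_zipIdx_iff_getElem?] at he
    have he1 : e.2 < v'.length := by
      have := he.1
      rw [List.getElem?_eq_some_iff] at this
      exact this.1
    unfold addR
    refine ⟨by simp, fun r hr => ?_⟩
    rw [List.mem_append, List.mem_map, List.mem_singleton] at hr
    rcases hr with ⟨r', hr', rfl⟩ | rfl
    · have h2 := hR r' hr'
      have h3 := subm_le q (r'.2.getD e.2 0) r'.2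
        (v'.map (fun a => a * pinv q U e.1 % (q + 1)))
      exact ⟨h2.1, h3.1.trans h2.2.1, h3.2⟩
    · refine ⟨by simp only; omega, by simp only [List.length_map]; omega, fun x hx => ?_⟩
      obtain ⟨y, _, rfl⟩ := List.mem_map.1 hx
      exact Nat.le_of_lt_succ (Nat.mod_lt _ (Nat.succ_pos q))

theorem foldl_insR_le {q N : ℕ} {U : List ℕ} : ∀ (vs : List (List ℕ)) (R : List (ℕ × List ℕ)),
    (∀ e ∈ R, e.1 ≤ N ∧ VB N q e.2) → (∀ v ∈ vs, v.length ≤ N) →
    (vs.foldl (insR q U) R).length ≤ R.length + vs.length ∧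
      ∀ e ∈ vs.foldl (insR q U) R, e.1 ≤ N ∧ VB N q e.2
  | [], R, hR, _ => ⟨by simp, hR⟩
  | v :: vs, R, hR, hvs => by
    have h1 := insR_le (U := U) hR (hvs v (by simp))
    have h2 := foldl_insR_le (U := U) vs (insR q U R v) h1.2 fun v hv => hvs v (List.mem_cons_of_mem _ hv)
    refine ⟨?_, h2.2⟩
    rw [List.foldl_cons, List.length_cons]
    omega

theorem ech_le {q N : ℕ} {U : List ℕ} (vs : List (List ℕ)) (h : ∀ v ∈ vs, v.length ≤ N) :
    (ech q U vs).length ≤ vs.length ∧ ∀ e ∈ ech q U vs, e.1 ≤ N ∧ VB N q e.2 := by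
  have := foldl_insR_le (q := q) (U := U) vs [] (by simp) h
  simpa [ech] using this

theorem poly_ech {q : α → ℕ} {U : α → List ℕ} {vs : α → List (List ℕ)} (hq : Poly q)
    (hU : Poly U) (hvs : Poly vs) : Poly (fun a => ech (q a) (U a) (vs a)) := by
  unfold ech
  obtain ⟨rq, hrq⟩ := hq.sz_le
  obtain ⟨rv, hrv⟩ := hvs.sz_le
  refine NPC.Poly.foldl (l := vs) (s := fun _ => ([] : List (ℕ × List ℕ)))
    (F := fun a R v => insR (q a) (U a) R v) hvs (NPC.Poly.const _) ?_
    (rv * (Polynomial.C 4 * rv + 1 + (rv * (Polynomial.C 2 * rq + 1) + 1) + 1 + 1) + 1) ?_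
  · exact poly_insR (hq.comp (NPC.Poly.fst NPC.Poly.id)) (hU.comp (NPC.Poly.fst NPC.Poly.id))
      (NPC.Poly.fst (NPC.Poly.snd NPC.Poly.id)) (NPC.Poly.snd (NPC.Poly.snd NPC.Poly.id))
  · intro a k _
    change sz (ech (q a) (U a) ((vs a).take k)) ≤ _
    have h1 := ech_le (q := q a) (U := U a) (N := sz (vs a)) ((vs a).take k) (fun v hv => by
      have := sz_le_of_mem (List.mem_of_mem_take hv)
      have := length_lt_sz v
      omega)
    have h3 := hrq a
    have h4 := hrv a
    have h5 := length_lt_sz (vs a)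
    have h6 : (ech (q a) (U a) ((vs a).take k)).length ≤ sz (vs a) := by
      have := List.length_take_le' k (vs a)
      omega
    have h2 := sz_list_le h6 (b := 4 * sz (vs a) + 1 + (sz (vs a) * (2 * sz (q a) + 1) + 1) + 1)
      (fun e he => by
        have h7 := (h1.2 e he).1
        have h8 := (h1.2 e he).2.sz_le
        have h9 : sz e = sz e.1 + sz e.2 + 1 := sz_pair e.1 e.2
        have h10 := sz_nat_le e.1
        have h11 := NPC.Poly.size_le_self e.1
        omega)
    simp only [Polynomial.eval_add, Polynomial.eval_mul, Polynomial.eval_C, Polynomial.eval_one]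
    refine h2.trans ?_
    gcongr

theorem poly_coords {R : α → List (ℕ × List ℕ)} {v : α → List ℕ} (hR : Poly R) (hv : Poly v) :
    Poly (fun a => coords (R a) (v a)) := by
  unfold coords
  refine NPC.Poly.map (F := fun a e => (v a).getD e.1 0) hR ?_
  exact NPC.Poly.getD (hv.comp (NPC.Poly.fst NPC.Poly.id)) (NPC.Poly.fst (NPC.Poly.snd NPC.Poly.id)) (NPC.Poly.const 0)

theorem poly_mulR {q D : α → ℕ} {r : α → List ℕ} {C : α → List (List ℕ)} (hq : Poly q)
    (hD : UPoly D) (hr : Poly r) (hC : Poly C) :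
    Poly (fun a => mulR (q a) (D a) (r a) (C a)) := by
  unfold mulR
  refine NPC.Poly.map (F := fun a u => (List.zipWith (fun a c => a * c.getD u 0) (r a) (C a)).sum %
    (q a + 1)) hD.range ?_
  refine NPC.Poly.mod (NPC.Poly.sum ?_) (NPC.Poly.succ (hq.comp (NPC.Poly.fst NPC.Poly.id)))
  refine NPC.Poly.zipWith (F := fun (p : α × ℕ) a c => a * c.getD p.2 0) (hr.comp (NPC.Poly.fst NPC.Poly.id))
    (hC.comp (NPC.Poly.fst NPC.Poly.id)) ?_
  fun_prop

theorem poly_vecA (z : ℕ) {q D D' : α → ℕ} {C : α → List (List ℕ)} {v : α → List ℕ}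
    (hq : Poly q) (hD : Poly D) (hD' : UPoly D') (hC : Poly C) (hv : Poly v) :
    Poly (fun a => vecA (q a) (D a) (D' a) z (C a) (v a)) := by
  unfold vecA row
  have h : ∀ c : ℕ, Poly (fun a => if c = z then List.replicate (D' a) 0 else
      mulR (q a) (D' a) (((v a).drop (c * D a)).take (D a)) (C a)) := by
    intro c
    by_cases hc : c = z
    · simp only [if_pos hc]
      exact poly_replicate hD' (NPC.Poly.const 0)
    · simp only [if_neg hc]
      exact poly_mulR hq hD' (poly_take (poly_drop hv (NPC.Poly.mul (NPC.Poly.const c) hD)) hD) hC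
  exact NPC.Poly.append (h 0) (NPC.Poly.append (h 1) (h 2))

theorem upoly_nst {Ls : α → List (List (List ℕ))} (hLs : Poly Ls) :
    UPoly (fun a => nst (Ls a)) := by
  refine (NPC.Poly.listCases (l := Ls) (g := fun _ => [()])
    (h := fun _ L _ => L.map (fun _ => ())) hLs (NPC.Poly.const _) ?_).congr fun a => ?_
  · exact NPC.Poly.map (F := fun _ _ => ()) (NPC.Poly.fst (NPC.Poly.snd NPC.Poly.id)) (NPC.Poly.const _)
  · beta_reduce
    generalize Ls a = x
    cases x with
    | nil => rfl
    | cons L Ls => simp [nst]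

end Basic

end Pool.Agent.H502_C3
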