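import Pool.Agent.H502_C3.Poly1

/-!
# Polynomial time: the closing of a chord
-/

namespace Pool.Agent.H502_C3

open Pool.Agent.NPC

/-! ### Bounds for the entries and the lengths -/

/-- Matrices with at most `a` rows, of length at most `b`, with entries at most `n`. -/
def MB (a b n : ℕ) (L : List (List ℕ)) : Prop := L.length ≤ a ∧ ∀ v ∈ L, VB b n v

theorem MB.mono {a b n a' b' n' : ℕ} {L : List (List ℕ)} (h : MB a b n L) (ha : a ≤ a')
    (hb : b ≤ b') (hn : n ≤ n') : MB a' b' n' L :=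
  ⟨h.1.trans ha, fun v hv => (h.2 v hv).mono hb hn⟩

/-- The bound for the size of a matrix. -/
def mbs (a b n : ℕ) : ℕ := a * (b * (2 * n + 1) + 1 + 1) + 1

theorem MB.sz_le {a b n : ℕ} {L : List (List ℕ)} (h : MB a b n L) : sz L ≤ mbs a b (sz n) :=
  sz_list_le h.1 fun v hv => (h.2 v hv).sz_le

theorem mulR_le (q D' : ℕ) (r : List ℕ) (C : List (List ℕ)) : VB D' q (mulR q D' r C) := by
  refine ⟨le_of_eq (length_mulR _ _ _), fun x hx => ?_⟩
  unfold mulR at hx
  obtain ⟨y, _, rfl⟩ := List.mem_map.1 hx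
  exact Nat.le_of_lt_succ (Nat.mod_lt _ (Nat.succ_pos q))

theorem vecA_le (q D D' z : ℕ) (C : List (List ℕ)) (v : List ℕ) :
    VB (3 * D') q (vecA q D D' z C v) := by
  refine ⟨le_of_eq (length_vecA _ _ _ _ _), fun x hx => ?_⟩
  have h : ∀ c : ℕ, x ∈ (if c = z then List.replicate D' 0 else mulR q D' (row D c v) C) →
      x ≤ q := by
    intro c hc
    split_ifs at hc
    · rw [List.mem_replicate] at hc
      omega
    · exact (mulR_le _ _ _ _).2 x hc
  unfold vecA at hx
  rw [List.mem_append, List.mem_append] at hx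
  rcases hx with hx | hx | hx
  · exact h 0 hx
  · exact h 1 hx
  · exact h 2 hx

theorem coords_le {N n : ℕ} {R : List (ℕ × List ℕ)} {v : List ℕ} (h : ∀ x ∈ v, x ≤ n)
    (hR : R.length ≤ N) : VB N n (coords R v) := by
  refine ⟨by simpa [coords] using hR, fun x hx => ?_⟩
  unfold coords at hx
  obtain ⟨e, _, rfl⟩ := List.mem_map.1 hx
  rw [List.getD_eq_getElem?_getD]
  cases he : v[e.1]? with
  | none => simp
  | some y => exact h y (List.mem_of_getElem? he)

theorem nst_le {A b n : ℕ} (hA : 1 ≤ A) {Ls : List (List (List ℕ))}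
    (h : ∀ L ∈ Ls, MB A b n L) : nst Ls ≤ A := by
  cases Ls with
  | nil => exact hA
  | cons L Ls => exact (h L (by simp)).1

theorem map_vecA_le {A q D D' z : ℕ} {C : List (List ℕ)} {L : List (List ℕ)} (hL : L.length ≤ A) :
    MB A (3 * D') q (L.map (vecA q D D' z C)) := by
  refine ⟨by simpa using hL, fun v hv => ?_⟩
  obtain ⟨u, _, rfl⟩ := List.mem_map.1 hv
  exact vecA_le _ _ _ _ _ _

theorem map_coords_le {A N b n : ℕ} {R : List (ℕ × List ℕ)} {L : List (List ℕ)}
    (hL : MB A b n L) (hR : R.length ≤ N) : MB A N n (L.map (coords R)) := by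
  refine ⟨by simpa using hL.1, fun v hv => ?_⟩
  obtain ⟨u, hu, rfl⟩ := List.mem_map.1 hv
  exact coords_le (hL.2 u hu).2 hR

theorem ech_snd_le {A N q : ℕ} {U : List ℕ} {vs : List (List ℕ)} (h : MB A N q vs) :
    MB A N q ((ech q U vs).map Prod.snd) := by
  have h1 := ech_le (q := q) (U := U) vs fun v hv => (h.2 v hv).1
  refine ⟨by rw [List.length_map]; exact h1.1.trans h.1, fun v hv => ?_⟩
  obtain ⟨e, he, rfl⟩ := List.mem_map.1 hv
  exact (h1.2 e he).2

/-- The bound for the state in `avoidRec`. -/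
def SB4 (A q k : ℕ) (s : List (List (List ℕ)) × List (List ℕ) × List (List ℕ) × List (List ℕ)) :
    Prop := s.1.length = k ∧ (∀ L ∈ s.1, MB (3 * A) (9 * A) (q + 1) L) ∧
      MB A (3 * A) (q + 1) s.2.1 ∧ MB A (3 * A) (q + 1) s.2.2.1 ∧ MB A (3 * A) (q + 1) s.2.2.2

/-- The bound for the state in `closeRec`. -/
def SB2 (A q k : ℕ) (s : List (List (List ℕ)) × List (List ℕ)) :
    Prop := s.1.length ≤ k ∧ (∀ L ∈ s.1, MB (3 * A) (9 * A) (q + 1) L) ∧
      MB A (3 * A) (q + 1) s.2

theorem sb4_init {A q : ℕ} (hA : 1 ≤ A) : SB4 A q 0 ([], [[1]], [[1]], [[1]]) := by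
  have h : MB A (3 * A) (q + 1) [[1]] := by
    refine ⟨by simpa using hA, fun v hv => ?_⟩
    rw [List.mem_singleton] at hv
    subst hv
    refine ⟨by simp; omega, fun x hx => ?_⟩
    rw [List.mem_singleton] at hx
    omega
  exact ⟨rfl, by simp, h, h, h⟩

theorem sb4_step {A q k D : ℕ} {U : List ℕ} {L : List (List ℕ)} (hA : 1 ≤ A)
    (hL : L.length ≤ A)
    {s : List (List (List ℕ)) × List (List ℕ) × List (List ℕ) × List (List ℕ)}
    (h : SB4 A q k s) : SB4 A q (k + 1) (avoidStep q U D L s) := by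
  obtain ⟨h1, h2, h3, h4, h5⟩ := h
  have hn : nst s.1 ≤ 3 * A := nst_le (by omega) h2
  have hV : ∀ z C, MB A (9 * A) q (L.map (vecA q D (nst s.1) z C)) := fun z C =>
    (map_vecA_le hL).mono le_rfl (by omega) le_rfl
  unfold avoidStep
  simp only
  set V0 := L.map (vecA q D (nst s.1) 0 s.2.1)
  set V1 := L.map (vecA q D (nst s.1) 1 s.2.2.1)
  set V2 := L.map (vecA q D (nst s.1) 2 s.2.2.2)
  have g0 : MB A (9 * A) q V0 := hV _ _
  have g1 : MB A (9 * A) q V1 := hV _ _
  have g2 : MB A (9 * A) q V2 := hV _ _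
  have g3 : MB (3 * A) (9 * A) q (V0 ++ (V1 ++ V2)) := by
    refine ⟨?_, fun v hv => ?_⟩
    · rw [List.length_append, List.length_append]
      have := g0.1
      have := g1.1
      have := g2.1
      omega
    · rw [List.mem_append, List.mem_append] at hv
      rcases hv with hv | hv | hv
      · exact g0.2 v hv
      · exact g1.2 v hv
      · exact g2.2 v hv
  have g4 := ech_snd_le (U := U) g3
  have g5 : (ech q U (V0 ++ (V1 ++ V2))).length ≤ 3 * A := by
    have := g4.1
    rwa [List.length_map] at this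
  refine ⟨by simp [h1], ?_, (map_coords_le g0 g5).mono le_rfl le_rfl (by omega),
    (map_coords_le g1 g5).mono le_rfl le_rfl (by omega),
    (map_coords_le g2 g5).mono le_rfl le_rfl (by omega)⟩
  intro L' hL'
  rcases List.mem_cons.1 hL' with rfl | hL'
  · exact g4.mono le_rfl le_rfl (by omega)
  · exact h2 L' hL'

theorem sb4_avoid {A q : ℕ} {U : List ℕ} (hA : 1 ≤ A) : ∀ (Ls : List (List (List ℕ))),
    (∀ L ∈ Ls, L.length ≤ A) → SB4 A q Ls.length (avoidRec q U Ls)
  | [], _ => sb4_init hA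
  | L :: Ls, h => sb4_step hA (h L (by simp))
      (sb4_avoid hA Ls fun L' hL' => h L' (List.mem_cons_of_mem _ hL'))

theorem sb2_step {A q k D : ℕ} {U : List ℕ} {L : List (List ℕ)} (hA : 1 ≤ A)
    (hL : L.length ≤ A) {s : List (List (List ℕ)) × List (List ℕ)}
    (h : SB2 A q k s) : SB2 A q (k + 1) (closeStep q U D L s) := by
  obtain ⟨h1, h2, h3⟩ := h
  have hn : nst s.1 ≤ 3 * A := nst_le (by omega) h2
  unfold closeStep
  simp only
  set V0 := L.map (vecA q D (nst s.1) 3 s.2)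
  have g0 : MB A (9 * A) q V0 := (map_vecA_le hL).mono le_rfl (by omega) le_rfl
  have g4 := ech_snd_le (U := U) g0
  have g5 : (ech q U V0).length ≤ A := by
    have := g4.1
    rwa [List.length_map] at this
  refine ⟨by simp; omega, ?_, (map_coords_le g0 g5).mono le_rfl (by omega) (by omega)⟩
  intro L' hL'
  rcases List.mem_cons.1 hL' with rfl | hL'
  · exact g4.mono (by omega) le_rfl (by omega)
  · exact h2 L' hL'

theorem sb2_merge {A q k : ℕ} {L : List (List ℕ)} (hA : 1 ≤ A) (hL : L.length ≤ A)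
    {s : List (List (List ℕ)) × List (List ℕ) × List (List ℕ) × List (List ℕ)}
    (h : SB4 A q k s) : SB2 A q k (mergeStep q L s) := by
  obtain ⟨h1, h2, h3, h4, h5⟩ := h
  have hn : nst s.1 ≤ 3 * A := nst_le (by omega) h2
  unfold mergeStep
  refine ⟨le_of_eq h1, h2, by simpa using hL, fun v hv => ?_⟩
  obtain ⟨u, _, rfl⟩ := List.mem_map.1 hv
  exact (mulR_le _ _ _ _).mono hn (by omega)

theorem sb2_init {A q : ℕ} (hA : 1 ≤ A) (k : ℕ) : SB2 A q k ([], [[1]]) := by
  obtain ⟨_, h1, h2, _⟩ := sb4_init (q := q) hA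
  exact ⟨by simp, h1, h2⟩

theorem sb2_close {A q : ℕ} {U : List ℕ} (hA : 1 ≤ A) : ∀ (Ls : List (List (List ℕ))) (i : ℕ),
    (∀ L ∈ Ls, L.length ≤ A) → SB2 A q Ls.length (closeRec q U i Ls) := by
  intro Ls
  induction Ls with
  | nil =>
    intro i _
    cases i <;> exact sb2_init hA 0
  | cons L Ls ih =>
    intro i h
    have hL : L.length ≤ A := h L (by simp)
    have h' : ∀ L ∈ Ls, L.length ≤ A := fun L' hL' => h L' (List.mem_cons_of_mem _ hL')
    cases i with
    | zero =>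
      obtain ⟨h1, h2, h3⟩ := sb2_merge hA hL (sb4_avoid (q := q) (U := U) hA Ls h')
      exact ⟨h1.trans (by simp), h2, h3⟩
    | succ i => exact sb2_step hA hL (ih i h')

/-- The bound for the size of a state. -/
def sbs (A n k : ℕ) : ℕ := k * (mbs (3 * A) (9 * A) n + 1) + 1 + 3 * mbs A (3 * A) n + 3

theorem sz_layers_le {A b n k : ℕ} {Ls : List (List (List ℕ))} (h : Ls.length ≤ k)
    (h' : ∀ L ∈ Ls, MB A b n L) : sz Ls ≤ k * (mbs A b (sz n) + 1) + 1 :=
  sz_list_le h fun L hL => (h' L hL).sz_le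

theorem sb4_sz {A q k : ℕ}
    {s : List (List (List ℕ)) × List (List ℕ) × List (List ℕ) × List (List ℕ)}
    (h : SB4 A q k s) : sz s ≤ sbs A (sz (q + 1)) k := by
  obtain ⟨h1, h2, h3, h4, h5⟩ := h
  obtain ⟨s1, s2, s3, s4⟩ := s
  have g1 := sz_layers_le (le_of_eq h1) h2
  have g2 := h3.sz_le
  have g3 := h4.sz_le
  have g4 := h5.sz_le
  simp only at g1 g2 g3 g4
  simp only [sz_pair, sbs]
  omega

theorem sb2_sz {A q k : ℕ} {s : List (List (List ℕ)) × List (List ℕ)}
    (h : SB2 A q k s) : sz s ≤ sbs A (sz (q + 1)) k := by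
  obtain ⟨h1, h2, h3⟩ := h
  obtain ⟨s1, s2⟩ := s
  have g1 := sz_layers_le h1 h2
  have g2 := h3.sz_le
  simp only at g1 g2
  simp only [sz_pair, sbs]
  omega

/-! ### The recursions as folds -/

/-- The step of `avoidRec`, with the number of states of the old layer. -/
def aF (q : ℕ) (U : List ℕ) (L : List (List ℕ))
    (p : ℕ × List (List (List ℕ)) × List (List ℕ) × List (List ℕ) × List (List ℕ)) :
    ℕ × List (List (List ℕ)) × List (List ℕ) × List (List ℕ) × List (List ℕ) :=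
  (L.length, avoidStep q U p.1 L p.2)

theorem foldr_aF (q : ℕ) (U : List ℕ) (Ls : List (List (List ℕ))) :
    Ls.foldr (aF q U) (1, ([], [[1]], [[1]], [[1]])) = (nst Ls, avoidRec q U Ls) := by
  induction Ls with
  | nil => rfl
  | cons L Ls ih =>
    rw [List.foldr_cons, ih]
    rfl

/-- The step of `closeRec`, with the number of states of the old layer. -/
def cF (q : ℕ) (U : List ℕ) (L : List (List ℕ))
    (p : ℕ × List (List (List ℕ)) × List (List ℕ)) :
    ℕ × List (List (List ℕ)) × List (List ℕ) :=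
  (L.length, closeStep q U p.1 L p.2)

/-- The start of the fold for `closeRec`. -/
def cB (q : ℕ) (U : List ℕ) : List (List (List ℕ)) → List (List (List ℕ)) × List (List ℕ)
  | [] => ([], [[1]])
  | L :: Ls => mergeStep q L (avoidRec q U Ls)

theorem foldr_cF (q : ℕ) (U : List ℕ) : ∀ (i : ℕ) (Ls : List (List (List ℕ))),
    (Ls.take i).foldr (cF q U) (nst (Ls.drop i), cB q U (Ls.drop i)) =
      (nst Ls, closeRec q U i Ls) := by
  intro i
  induction i with
  | zero => intro Ls; cases Ls <;> rfl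
  | succ i ih =>
    intro Ls
    cases Ls with
    | nil => rfl
    | cons L Ls =>
      rw [List.take_succ_cons, List.drop_succ_cons, List.foldr_cons, ih]
      rfl

/-! ### Polynomial time -/

section Poly

variable {α : Type} [TEnc α]

theorem poly_nst {Ls : α → List (List (List ℕ))} (hLs : NPC.Poly Ls) :
    NPC.Poly (fun a => nst (Ls a)) :=
  (upoly_nst hLs).toPoly

theorem poly_mapVecA (z : ℕ) {q D : α → ℕ} {T : α → List (List (List ℕ))}
    {C L : α → List (List ℕ)} (hq : NPC.Poly q) (hD : NPC.Poly D) (hT : NPC.Poly T)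
    (hC : NPC.Poly C) (hL : NPC.Poly L) :
    NPC.Poly (fun a => (L a).map (vecA (q a) (D a) (nst (T a)) z (C a))) := by
  refine NPC.Poly.map (F := fun a v => vecA (q a) (D a) (nst (T a)) z (C a) v) hL ?_
  exact poly_vecA z (hq.comp (NPC.Poly.fst NPC.Poly.id)) (hD.comp (NPC.Poly.fst NPC.Poly.id))
    (upoly_nst (hT.comp (NPC.Poly.fst NPC.Poly.id))) (hC.comp (NPC.Poly.fst NPC.Poly.id))
    (NPC.Poly.snd NPC.Poly.id)

theorem poly_mapCoords {R : α → List (ℕ × List ℕ)} {L : α → List (List ℕ)} (hR : NPC.Poly R)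
    (hL : NPC.Poly L) : NPC.Poly (fun a => (L a).map (coords (R a))) := by
  refine NPC.Poly.map (F := fun a v => coords (R a) v) hL ?_
  exact poly_coords (hR.comp (NPC.Poly.fst NPC.Poly.id)) (NPC.Poly.snd NPC.Poly.id)

theorem poly_avoidStep {q D : α → ℕ} {U : α → List ℕ} {L : α → List (List ℕ)}
    {s : α → List (List (List ℕ)) × List (List ℕ) × List (List ℕ) × List (List ℕ)}
    (hq : NPC.Poly q) (hU : NPC.Poly U) (hD : NPC.Poly D) (hL : NPC.Poly L) (hs : NPC.Poly s) :
    NPC.Poly (fun a => avoidStep (q a) (U a) (D a) (L a) (s a)) := by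
  unfold avoidStep
  have h0 := poly_mapVecA 0 hq hD (NPC.Poly.fst hs) (NPC.Poly.fst (NPC.Poly.snd hs)) hL
  have h1 := poly_mapVecA 1 hq hD (NPC.Poly.fst hs)
    (NPC.Poly.fst (NPC.Poly.snd (NPC.Poly.snd hs))) hL
  have h2 := poly_mapVecA 2 hq hD (NPC.Poly.fst hs)
    (NPC.Poly.snd (NPC.Poly.snd (NPC.Poly.snd hs))) hL
  have hR := poly_ech hq hU (NPC.Poly.append h0 (NPC.Poly.append h1 h2))
  exact NPC.Poly.pair (NPC.Poly.cons (NPC.Poly.map (F := fun _ e => e.2) hR
    (NPC.Poly.snd (NPC.Poly.snd NPC.Poly.id))) (NPC.Poly.fst hs))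
    (NPC.Poly.pair (poly_mapCoords hR h0) (NPC.Poly.pair (poly_mapCoords hR h1)
      (poly_mapCoords hR h2)))

theorem poly_closeStep {q D : α → ℕ} {U : α → List ℕ} {L : α → List (List ℕ)}
    {s : α → List (List (List ℕ)) × List (List ℕ)}
    (hq : NPC.Poly q) (hU : NPC.Poly U) (hD : NPC.Poly D) (hL : NPC.Poly L) (hs : NPC.Poly s) :
    NPC.Poly (fun a => closeStep (q a) (U a) (D a) (L a) (s a)) := by
  unfold closeStep
  have h0 := poly_mapVecA 3 hq hD (NPC.Poly.fst hs) (NPC.Poly.snd hs) hL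
  have hR := poly_ech hq hU h0
  exact NPC.Poly.pair (NPC.Poly.cons (NPC.Poly.map (F := fun _ e => e.2) hR
    (NPC.Poly.snd (NPC.Poly.snd NPC.Poly.id))) (NPC.Poly.fst hs)) (poly_mapCoords hR h0)

theorem poly_mergeStep {q : α → ℕ} {L : α → List (List ℕ)}
    {s : α → List (List (List ℕ)) × List (List ℕ) × List (List ℕ) × List (List ℕ)}
    (hq : NPC.Poly q) (hL : NPC.Poly L) (hs : NPC.Poly s) :
    NPC.Poly (fun a => mergeStep (q a) (L a) (s a)) := by
  unfold mergeStep
  refine NPC.Poly.pair (NPC.Poly.fst hs) (NPC.Poly.map (F := fun a v => mulR (q a)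
    (nst (s a).1) v ((s a).2.1 ++ ((s a).2.2.1 ++ (s a).2.2.2))) hL ?_)
  have hs' : NPC.Poly (fun p : α × List ℕ => s p.1) := hs.comp (NPC.Poly.fst NPC.Poly.id)
  exact poly_mulR (hq.comp (NPC.Poly.fst NPC.Poly.id)) (upoly_nst (NPC.Poly.fst hs'))
    (NPC.Poly.snd NPC.Poly.id) (NPC.Poly.append (NPC.Poly.fst (NPC.Poly.snd hs'))
      (NPC.Poly.append (NPC.Poly.fst (NPC.Poly.snd (NPC.Poly.snd hs')))
        (NPC.Poly.snd (NPC.Poly.snd (NPC.Poly.snd hs')))))

/-- The polynomial for the bound `mbs`. -/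
noncomputable def pmbs (a b n : Polynomial ℕ) : Polynomial ℕ :=
  a * (b * (Polynomial.C 2 * n + 1) + 1 + 1) + 1

theorem eval_pmbs (a b n : Polynomial ℕ) (x : ℕ) :
    (pmbs a b n).eval x = mbs (a.eval x) (b.eval x) (n.eval x) := by
  simp only [pmbs, mbs, Polynomial.eval_add, Polynomial.eval_mul, Polynomial.eval_C,
    Polynomial.eval_one]

theorem mbs_mono {a b n a' b' n' : ℕ} (ha : a ≤ a') (hb : b ≤ b') (hn : n ≤ n') :
    mbs a b n ≤ mbs a' b' n' := by
  unfold mbs
  gcongr

/-- The polynomial for the bound `sbs`. -/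
noncomputable def psbs (a n k : Polynomial ℕ) : Polynomial ℕ :=
  k * (pmbs (Polynomial.C 3 * a) (Polynomial.C 9 * a) n + 1) + 1 +
    Polynomial.C 3 * pmbs a (Polynomial.C 3 * a) n + Polynomial.C 3

theorem eval_psbs (a n k : Polynomial ℕ) (x : ℕ) :
    (psbs a n k).eval x = sbs (a.eval x) (n.eval x) (k.eval x) := by
  simp only [psbs, sbs, Polynomial.eval_add, Polynomial.eval_mul, Polynomial.eval_C,
    Polynomial.eval_one, eval_pmbs]

theorem sbs_mono {a n k a' n' k' : ℕ} (ha : a ≤ a') (hn : n ≤ n') (hk : k ≤ k') :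
    sbs a n k ≤ sbs a' n' k' := by
  unfold sbs
  have h1 := mbs_mono (a := 3 * a) (b := 9 * a) (n := n) (a' := 3 * a') (b' := 9 * a') (n' := n')
    (by omega) (by omega) hn
  have h2 := mbs_mono (a := a) (b := 3 * a) (n := n) (a' := a') (b' := 3 * a') (n' := n')
    (by omega) (by omega) hn
  gcongr

theorem layer_length_le (Ls : List (List (List ℕ))) : ∀ L ∈ Ls, L.length ≤ sz Ls := by
  intro L hL
  have h1 := sz_le_of_mem hL
  have h2 := length_lt_sz L
  omega

theorem sz_nat_le_four (n : ℕ) : sz n ≤ 4 * n + 1 := by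
  have h2 := sz_nat_le n
  have h3 := NPC.Poly.size_le_self n
  omega

theorem poly_avoidRec {q : α → ℕ} {U : α → List ℕ} {Ls : α → List (List (List ℕ))}
    (hq : NPC.Poly q) (hU : NPC.Poly U) (hLs : NPC.Poly Ls) :
    NPC.Poly (fun a => avoidRec (q a) (U a) (Ls a)) := by
  obtain ⟨rq, hrq⟩ := (NPC.Poly.succ hq).sz_le
  obtain ⟨rl, hrl⟩ := hLs.sz_le
  have key : NPC.Poly (fun a => (Ls a).foldr (aF (q a) (U a)) (1, ([], [[1]], [[1]], [[1]]))) := by
    refine NPC.Poly.foldr (l := Ls) (s := fun _ => ((1, ([], [[1]], [[1]], [[1]])) :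
      ℕ × List (List (List ℕ)) × List (List ℕ) × List (List ℕ) × List (List ℕ)))
      (F := fun a => aF (q a) (U a)) hLs (NPC.Poly.const _) ?_
      (Polynomial.C 4 * (rl + 1) + 1 + psbs (rl + 1) rq rl + 1) ?_
    · exact NPC.Poly.pair (NPC.Poly.length (NPC.Poly.fst (NPC.Poly.snd NPC.Poly.id)))
        (poly_avoidStep (hq.comp (NPC.Poly.fst NPC.Poly.id)) (hU.comp (NPC.Poly.fst NPC.Poly.id))
          (NPC.Poly.fst (NPC.Poly.snd (NPC.Poly.snd NPC.Poly.id)))
          (NPC.Poly.fst (NPC.Poly.snd NPC.Poly.id))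
          (NPC.Poly.snd (NPC.Poly.snd (NPC.Poly.snd NPC.Poly.id))))
    · intro a k _
      rw [foldr_aF, sz_pair]
      have hA : ∀ L ∈ (Ls a).drop k, L.length ≤ sz (Ls a) := fun L hL =>
        layer_length_le (Ls a) L (List.mem_of_mem_drop hL)
      have h1 := sb4_sz (sb4_avoid (q := q a) (U := U a) (sz_pos (Ls a)) ((Ls a).drop k) hA)
      have h2 : ((Ls a).drop k).length ≤ sz (Ls a) := by
        have := length_lt_sz (Ls a)
        rw [List.length_drop]
        omega
      have h3 : nst ((Ls a).drop k) ≤ sz (Ls a) := by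
        cases h : (Ls a).drop k with
        | nil => exact sz_pos (Ls a)
        | cons L Ls' => exact hA L (by rw [h]; simp)
      have h4 := sz_nat_le_four (nst ((Ls a).drop k))
      have h5 := hrq a
      have h6 := hrl a
      simp only [Polynomial.eval_add, Polynomial.eval_mul, Polynomial.eval_C, Polynomial.eval_one,
        eval_psbs]
      have h7 := sbs_mono (a := sz (Ls a)) (n := sz (q a + 1)) (k := ((Ls a).drop k).length)
        (a' := rl.eval (sz a) + 1) (n' := rq.eval (sz a)) (k' := rl.eval (sz a))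
        (by omega) h5 (by omega)
      omega
  exact (NPC.Poly.snd key).congr fun a => by rw [foldr_aF]

theorem poly_cB {q : α → ℕ} {U : α → List ℕ} {Ls : α → List (List (List ℕ))}
    (hq : NPC.Poly q) (hU : NPC.Poly U) (hLs : NPC.Poly Ls) :
    NPC.Poly (fun a => cB (q a) (U a) (Ls a)) := by
  refine (NPC.Poly.listCases (l := Ls)
    (g := fun _ => (([], [[1]]) : List (List (List ℕ)) × List (List ℕ)))
    (h := fun a L Ls => mergeStep (q a) L (avoidRec (q a) (U a) Ls)) hLs (NPC.Poly.const _)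
    ?_).congr fun a => ?_
  · exact poly_mergeStep (hq.comp (NPC.Poly.fst NPC.Poly.id))
      (NPC.Poly.fst (NPC.Poly.snd NPC.Poly.id))
      (poly_avoidRec (hq.comp (NPC.Poly.fst NPC.Poly.id)) (hU.comp (NPC.Poly.fst NPC.Poly.id))
        (NPC.Poly.snd (NPC.Poly.snd NPC.Poly.id)))
  · generalize Ls a = x
    cases x <;> rfl

theorem poly_closeRec {q i : α → ℕ} {U : α → List ℕ} {Ls : α → List (List (List ℕ))}
    (hq : NPC.Poly q) (hU : NPC.Poly U) (hi : NPC.Poly i) (hLs : NPC.Poly Ls) :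
    NPC.Poly (fun a => closeRec (q a) (U a) (i a) (Ls a)) := by
  obtain ⟨rq, hrq⟩ := (NPC.Poly.succ hq).sz_le
  obtain ⟨rl, hrl⟩ := hLs.sz_le
  have hd : NPC.Poly (fun a => (Ls a).drop (i a)) := poly_drop hLs hi
  have key : NPC.Poly (fun a => ((Ls a).take (i a)).foldr (cF (q a) (U a))
      (nst ((Ls a).drop (i a)), cB (q a) (U a) ((Ls a).drop (i a)))) := by
    refine NPC.Poly.foldr (l := fun a => (Ls a).take (i a))
      (s := fun a => (nst ((Ls a).drop (i a)), cB (q a) (U a) ((Ls a).drop (i a))))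
      (F := fun a => cF (q a) (U a)) (poly_take hLs hi)
      (NPC.Poly.pair (poly_nst hd) (poly_cB hq hU hd)) ?_
      (Polynomial.C 4 * (rl + 1) + 1 + psbs (rl + 1) rq rl + 1) ?_
    · exact NPC.Poly.pair (NPC.Poly.length (NPC.Poly.fst (NPC.Poly.snd NPC.Poly.id)))
        (poly_closeStep (hq.comp (NPC.Poly.fst NPC.Poly.id)) (hU.comp (NPC.Poly.fst NPC.Poly.id))
          (NPC.Poly.fst (NPC.Poly.snd (NPC.Poly.snd NPC.Poly.id)))
          (NPC.Poly.fst (NPC.Poly.snd NPC.Poly.id))
          (NPC.Poly.snd (NPC.Poly.snd (NPC.Poly.snd NPC.Poly.id))))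
    · intro a k hk
      have e1 : ((Ls a).take (i a)).drop k = ((Ls a).drop k).take (i a - k) := by
        rw [List.drop_take]
      have e2 : (Ls a).drop (i a) = ((Ls a).drop k).drop (i a - k) := by
        rw [List.drop_drop]
        congr 1
        rw [List.length_take] at hk
        omega
      rw [e1, e2, foldr_cF, sz_pair]
      have hA : ∀ L ∈ (Ls a).drop k, L.length ≤ sz (Ls a) := fun L hL =>
        layer_length_le (Ls a) L (List.mem_of_mem_drop hL)
      have h1 := sb2_sz (sb2_close (q := q a) (U := U a) (sz_pos (Ls a)) ((Ls a).drop k)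
        (i a - k) hA)
      have h2 : ((Ls a).drop k).length ≤ sz (Ls a) := by
        have := length_lt_sz (Ls a)
        rw [List.length_drop]
        omega
      have h3 : nst ((Ls a).drop k) ≤ sz (Ls a) := by
        cases h : (Ls a).drop k with
        | nil => exact sz_pos (Ls a)
        | cons L Ls' => exact hA L (by rw [h]; simp)
      have h4 := sz_nat_le_four (nst ((Ls a).drop k))
      have h5 := hrq a
      have h6 := hrl a
      simp only [Polynomial.eval_add, Polynomial.eval_mul, Polynomial.eval_C, Polynomial.eval_one,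
        eval_psbs]
      have h7 := sbs_mono (a := sz (Ls a)) (n := sz (q a + 1)) (k := ((Ls a).drop k).length)
        (a' := rl.eval (sz a) + 1) (n' := rq.eval (sz a)) (k' := rl.eval (sz a))
        (by omega) h5 (by omega)
      omega
  exact (NPC.Poly.snd key).congr fun a => by rw [foldr_cF]

theorem poly_stepA {q x : α → ℕ} {U : α → List ℕ}
    {s : α → List ℕ × List (List (List ℕ)) × List ℕ} (hq : NPC.Poly q) (hU : NPC.Poly U)
    (hs : NPC.Poly s) (hx : NPC.Poly x) :
    NPC.Poly (fun a => stepA (q a) (U a) (s a) (x a)) := by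
  unfold stepA
  have h1 : NPC.Poly (fun a => (s a).1) := NPC.Poly.fst hs
  have h2 : NPC.Poly (fun a => (s a).2.1) := NPC.Poly.fst (NPC.Poly.snd hs)
  have h3 : NPC.Poly (fun a => (s a).2.2) := NPC.Poly.snd (NPC.Poly.snd hs)
  have h4 := poly_closeRec hq hU (poly_idxOf h1 hx) h2
  refine NPC.Poly.ite (NPC.Poly.dec_mem hx h1) (NPC.Poly.pair (poly_erase h1 hx)
    (NPC.Poly.pair (NPC.Poly.fst h4) (poly_mulR hq (upoly_nst (NPC.Poly.fst h4)) h3
      (NPC.Poly.snd h4)))) (NPC.Poly.pair (NPC.Poly.append h1 (NPC.Poly.cons hx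
        (NPC.Poly.const []))) (NPC.Poly.pair (NPC.Poly.append h2 (NPC.Poly.const _)) h3))

end Poly

end Pool.Agent.H502_C3
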