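import Pool.Agent.H502_C3.Poly2
import Pool.Agent.H531R2.Primes

/-!
# Polynomial time: the whole sweep, and the decision of 3-colourability
-/

namespace Pool.Agent.H502_C3

open Pool.Agent.NPC

/-! ### Invariants for the sizes -/

/-- All the entries are at most `q + 1`. -/
def Sm (q : ℕ) (s : List ℕ × List (List (List ℕ)) × List ℕ) : Prop :=
  (∀ L ∈ s.2.1, ∀ v ∈ L, ∀ x ∈ v, x ≤ q + 1) ∧ ∀ x ∈ s.2.2, x ≤ q + 1

theorem sm_step {q : ℕ} {U : List ℕ} {s : List ℕ × List (List (List ℕ)) × List ℕ} (h : Sm q s)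
    (a : ℕ) : Sm q (stepA q U s a) := by
  obtain ⟨h1, h2⟩ := h
  unfold stepA
  split_ifs with ha
  · have h3 := sb2_close (q := q) (U := U) (sz_pos s.2.1) s.2.1 (s.1.idxOf a)
      (layer_length_le s.2.1)
    exact ⟨fun L hL v hv x hx => ((h3.2.1 L hL).2 v hv).2 x hx,
      fun x hx => ((mulR_le _ _ _ _).2 x hx).trans (Nat.le_succ q)⟩
  · refine ⟨fun L hL v hv x hx => ?_, h2⟩
    rcases List.mem_append.1 hL with hL | hL
    · exact h1 L hL v hv x hx
    · rw [List.mem_singleton] at hL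
      subst hL
      rw [List.mem_singleton] at hv
      subst hv
      simp only [List.mem_cons, List.not_mem_nil, or_false, or_self] at hx
      omega

theorem sm_foldl {q : ℕ} {U : List ℕ} : ∀ (w : List ℕ)
    (s : List ℕ × List (List (List ℕ)) × List ℕ), Sm q s → Sm q (w.foldl (stepA q U) s)
  | [], _, h => h
  | a :: w, _, h => sm_foldl w _ (sm_step h a)

theorem sm_runA (q : ℕ) (U w : List ℕ) : Sm q (runA q U w) := by
  refine sm_foldl w _ ⟨by simp, fun x hx => ?_⟩
  rw [List.mem_singleton] at hx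
  omega

theorem mem_foldl {q : ℕ} {U : List ℕ} : ∀ (w : List ℕ)
    (s : List ℕ × List (List (List ℕ)) × List ℕ), ∀ x ∈ (w.foldl (stepA q U) s).1,
    x ∈ s.1 ∨ x ∈ w
  | [], _, _, h => Or.inl h
  | a :: w, s, x, h => by
    rcases mem_foldl w _ x h with h | h
    · unfold stepA at h
      split_ifs at h
      · exact Or.inl (List.mem_of_mem_erase h)
      · rcases List.mem_append.1 h with h | h
        · exact Or.inl h
        · rw [List.mem_singleton] at h
          exact Or.inr (by simp [h])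
    · exact Or.inr (List.mem_cons_of_mem _ h)

theorem mem_runA (q : ℕ) (U w : List ℕ) : ∀ x ∈ (runA q U w).1, x ∈ w := by
  intro x hx
  rcases mem_foldl w _ x hx with h | h
  · exact absurd h (by simp)
  · exact h

theorem good_MB {q A n : ℕ} (hA : 1 ≤ A) : ∀ (Ls : List (List (List ℕ))) (Zs : List (List Op)),
    Good q Ls Zs → (∀ L ∈ Ls, L.length ≤ A) → (∀ L ∈ Ls, ∀ v ∈ L, ∀ x ∈ v, x ≤ n) →
    ∀ L ∈ Ls, MB A (3 * A) n L := by
  intro Ls
  induction Ls with
  | nil => simp
  | cons L Ls ih =>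
    intro Zs h hL hx
    cases Zs with
    | nil => exact absurd h (by simp [Good])
    | cons Z Zs =>
      obtain ⟨hind, hS, hok, hopen, hlen, hgood⟩ := h
      have h' : ∀ L ∈ Ls, L.length ≤ A := fun L' hL' => hL L' (List.mem_cons_of_mem _ hL')
      have hn : nst Ls ≤ A := by
        cases Ls with
        | nil => exact hA
        | cons L' Ls => exact h' L' (by simp)
      intro L' hL'
      rcases List.mem_cons.1 hL' with rfl | hL'
      · refine ⟨hL L' (by simp), fun v hv => ⟨?_, hx L' (by simp) v hv⟩⟩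
        rw [hlen v hv]
        omega
      · exact ih Zs hgood h' (fun L'' hL'' => hx L'' (List.mem_cons_of_mem _ hL'')) L' hL'

/-- The bound for the size of the state of the sweep. -/
def rbs (W A n : ℕ) : ℕ :=
  W * (W + 1) + 1 + (W * (mbs A (3 * A) n + 1) + 1) + (A * (2 * n + 1) + 1) + 2

theorem sz_runA_le {q : ℕ} [Fact (q + 1).Prime] {U : List ℕ} (hU : ∀ x < q + 1, x ∈ U)
    (w : List ℕ) {W : ℕ} (h1 : w.length ≤ W) (h2 : sz w ≤ W) :
    sz (runA q U w) ≤ rbs W (12 * (W + 1) ^ 7) (sz (q + 1)) := by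
  obtain ⟨g1, g1', Zs, g2, g3, g4, g5, g6⟩ := inv_runA hU w
  obtain ⟨e1, e2⟩ := sm_runA q U w
  have hW : 12 * (w.length + 1) ^ 7 ≤ 12 * (W + 1) ^ 7 := by gcongr
  have hW1 : 1 ≤ 12 * (W + 1) ^ 7 := by
    have := Nat.one_le_pow 7 (W + 1) (by omega)
    omega
  have h3 : ∀ L ∈ (runA q U w).2.1, L.length ≤ 12 * (W + 1) ^ 7 := fun L hL =>
    (card_layer _ Zs g2 g4 L hL).trans hW
  have h4 := good_MB hW1 _ Zs g2 h3 e1
  have h5 := sz_layers_le (k := W) (by omega) h4
  have h6 : VB (12 * (W + 1) ^ 7) (q + 1) (runA q U w).2.2 := by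
    refine ⟨?_, e2⟩
    rw [g5]
    cases h : (runA q U w).2.1 with
    | nil => exact hW1
    | cons L Ls => exact h3 L (by rw [h]; simp)
  have h7 := h6.sz_le
  have h8 : sz (runA q U w).1 ≤ W * (W + 1) + 1 := by
    refine sz_list_le (by omega) fun x hx => ?_
    have := sz_le_of_mem (mem_runA q U w x hx)
    omega
  generalize hs : runA q U w = s at *
  obtain ⟨s1, s2, s3⟩ := s
  simp only at h5 h7 h8
  simp only [sz_pair, rbs]
  omega

/-- The valid inputs: `q + 1` is prime and the list contains all the residues. -/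
def Valid (x : ℕ × List ℕ × List ℕ) : Prop := (x.1 + 1).Prime ∧ ∀ y < x.1 + 1, y ∈ x.2.1

theorem poly_runA : NPC.Poly (fun x : {x : ℕ × List ℕ × List ℕ // Valid x} =>
    runA x.1.1 x.1.2.1 x.1.2.2) := by
  have hx : NPC.Poly (fun x : {x : ℕ × List ℕ × List ℕ // Valid x} => x.1) :=
    NPC.Poly.val NPC.Poly.id
  have hq := NPC.Poly.fst hx
  have hU := NPC.Poly.fst (NPC.Poly.snd hx)
  have hw := NPC.Poly.snd (NPC.Poly.snd hx)
  obtain ⟨rq, hrq⟩ := (NPC.Poly.succ hq).sz_le
  unfold runA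
  refine NPC.Poly.foldl (l := fun x : {x : ℕ × List ℕ × List ℕ // Valid x} => x.1.2.2)
    (s := fun _ => (([], [], [1]) : List ℕ × List (List (List ℕ)) × List ℕ))
    (F := fun x => stepA x.1.1 x.1.2.1) hw (NPC.Poly.const _) ?_
    (Polynomial.X * (Polynomial.X + 1) + 1 + (Polynomial.X * (pmbs
      (Polynomial.C 12 * (Polynomial.X + 1) ^ 7)
      (Polynomial.C 3 * (Polynomial.C 12 * (Polynomial.X + 1) ^ 7)) rq + 1) + 1) +
      ((Polynomial.C 12 * (Polynomial.X + 1) ^ 7) * (Polynomial.C 2 * rq + 1) + 1) +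
      Polynomial.C 2) ?_
  · exact poly_stepA (hq.comp (NPC.Poly.fst NPC.Poly.id)) (hU.comp (NPC.Poly.fst NPC.Poly.id))
      (NPC.Poly.fst (NPC.Poly.snd NPC.Poly.id)) (NPC.Poly.snd (NPC.Poly.snd NPC.Poly.id))
  · rintro ⟨⟨q, U, w⟩, hp, hm⟩ k _
    have : Fact (q + 1).Prime := ⟨hp⟩
    simp only
    have e1 : sz (⟨(q, U, w), hp, hm⟩ : {x : ℕ × List ℕ × List ℕ // Valid x}) =
        sz q + (sz U + sz w + 1) + 1 := by
      rw [sz_subtype, sz_pair, sz_pair]
    have e2 := hrq ⟨(q, U, w), hp, hm⟩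
    simp only at e2
    set W := sz (⟨(q, U, w), hp, hm⟩ : {x : ℕ × List ℕ × List ℕ // Valid x}) with hW
    have e3 := length_lt_sz w
    have e4 : (w.take k).length ≤ W := by
      rw [List.length_take]
      omega
    have e5 : sz (w.take k) ≤ W := by
      have := NPC.Poly.sz_take_le w k
      omega
    have e6 := sz_runA_le hm (w.take k) e4 e5
    refine e6.trans ?_
    simp only [Polynomial.eval_add, Polynomial.eval_mul, Polynomial.eval_C, Polynomial.eval_one,
      Polynomial.eval_X, Polynomial.eval_pow, eval_pmbs, rbs]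
    have e7 := mbs_mono (a := 12 * (W + 1) ^ 7) (b := 3 * (12 * (W + 1) ^ 7))
      (n := sz (q + 1)) (a' := 12 * (W + 1) ^ 7) (b' := 3 * (12 * (W + 1) ^ 7))
      (n' := rq.eval W) le_rfl le_rfl e2
    gcongr

theorem poly_condSub {α β : Type} [TEnc α] [TEnc β] {b : α → Bool} {f g : α → β}
    (hb : NPC.Poly b) (hf : NPC.Poly (fun a : {a // b a = true} => f a.1)) (hg : NPC.Poly g) :
    NPC.Poly (fun a => bif b a then f a else g a) := by
  have h1 : PC (fun a : {a // toT (b a) ≠ T.nil} => bits a.1) (bits : β → List Bool)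
      (fun a => f a.1) := by
    obtain ⟨c, q, h⟩ := hf
    refine ⟨c, q, fun a => h ⟨a.1, ?_⟩⟩
    have := a.2
    cases hba : b a.1 with
    | true => rfl
    | false => exact absurd (by rw [hba]; rfl) this
  have h3 := PC.dite (f := fun a => toT (b a)) hb (PC.restrict hg _) h1
  refine PC.congr h3 fun a => ?_
  by_cases H : toT (b a) = T.nil
  · rw [dif_pos H]
    cases hba : b a with
    | false => rfl
    | true => rw [hba] at H; exact absurd H (by simp)
  · rw [dif_neg H]
    cases hba : b a with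
    | false => rw [hba] at H; exact absurd rfl H
    | true => rfl

/-! ### The primality test -/

/-- The test for valid inputs. -/
def isV (x : ℕ × List ℕ × List ℕ) : Bool :=
  decide (2 ≤ x.1 + 1) && decide (x.1 + 1 ≤ x.2.1.length) &&
    decide (x.2.1 = List.range x.2.1.length) &&
    x.2.1.all (fun d => decide (d < 2 ∨ x.1 + 1 ≤ d ∨ (x.1 + 1) % d ≠ 0))

theorem poly_isV : NPC.Poly isV := by
  unfold isV
  have h1 : NPC.Poly (fun x : ℕ × List ℕ × List ℕ => List.range x.2.1.length) :=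
    (UPoly.length (NPC.Poly.fst (NPC.Poly.snd NPC.Poly.id))).range
  have h2 : NPC.Poly (fun x : ℕ × List ℕ × List ℕ => decide (x.2.1 = List.range x.2.1.length)) :=
    NPC.Poly.dec_eq (NPC.Poly.fst (NPC.Poly.snd NPC.Poly.id)) h1
  refine NPC.Poly.and (NPC.Poly.and (NPC.Poly.and ?_ ?_) h2) ?_
  · fun_prop
  · fun_prop
  · fun_prop

theorem valid_of_isV {x : ℕ × List ℕ × List ℕ} (h : isV x = true) : Valid x := by
  unfold isV at h
  simp only [Bool.and_eq_true, decide_eq_true_eq, List.all_eq_true] at h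
  obtain ⟨⟨⟨h1, h2⟩, h3⟩, h4⟩ := h
  have hU : ∀ y < x.1 + 1, y ∈ x.2.1 := by
    intro y hy
    rw [h3, List.mem_range]
    omega
  refine ⟨?_, hU⟩
  rw [Nat.prime_def]
  refine ⟨h1, fun m hm => ?_⟩
  have hle := Nat.le_of_dvd (by omega) hm
  have hpos := Nat.pos_of_dvd_of_pos hm (by omega)
  by_contra hcon
  push Not at hcon
  rcases h4 m (hU m (by omega)) with h5 | h5 | h5
  · omega
  · omega
  · exact h5 (Nat.mod_eq_zero_of_dvd hm)

theorem isV_range {q M : ℕ} (hp : (q + 1).Prime) (hM : q + 1 ≤ M) (w : List ℕ) :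
    isV (q, List.range M, w) = true := by
  unfold isV
  simp only [Bool.and_eq_true, decide_eq_true_eq, List.all_eq_true, List.length_range]
  refine ⟨⟨⟨hp.two_le, hM⟩, trivial⟩, fun d _ => ?_⟩
  by_contra hcon
  push Not at hcon
  obtain ⟨h1, h2, h3⟩ := hcon
  rcases (Nat.dvd_prime hp).1 (Nat.dvd_of_mod_eq_zero h3) with h | h <;> omega

/-! ### The decision -/

/-- The test for one modulus. -/
def tst (x : ℕ × List ℕ × List ℕ) : Bool :=
  bif isV x then decide ((runA x.1 x.2.1 x.2.2).2.2.getD 0 0 % (x.1 + 1) ≠ 0) else false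

theorem poly_tst : NPC.Poly tst := by
  unfold tst
  refine poly_condSub poly_isV ?_ (NPC.Poly.const _)
  have h0 : NPC.Poly (fun x : {x : ℕ × List ℕ × List ℕ // isV x = true} =>
      (⟨x.1, valid_of_isV x.2⟩ : {x : ℕ × List ℕ × List ℕ // Valid x})) :=
    NPC.Poly.mkSub (f := fun x : {x : ℕ × List ℕ × List ℕ // isV x = true} => x.1)
      (NPC.Poly.val NPC.Poly.id) fun x => valid_of_isV x.2
  have h1 : NPC.Poly (fun x : {x : ℕ × List ℕ × List ℕ // isV x = true} =>
      runA x.1.1 x.1.2.1 x.1.2.2) := NPC.Poly.comp poly_runA h0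
  have h2 : NPC.Poly (fun x : {x : ℕ × List ℕ × List ℕ // isV x = true} => x.1) :=
    NPC.Poly.val NPC.Poly.id
  exact NPC.Poly.decide_not (NPC.Poly.dec_eq (NPC.Poly.mod
    (NPC.Poly.getD (NPC.Poly.snd (NPC.Poly.snd h1)) (NPC.Poly.const 0) (NPC.Poly.const 0))
    (NPC.Poly.succ (NPC.Poly.fst h2))) (NPC.Poly.const 0))

/-- The bound for the moduli. -/
def mx (w : List ℕ) : ℕ := (2 * w.length + 5) * (2 * w.length + 5)

theorem upoly_mx : UPoly mx := by
  have h : UPoly (fun w : List ℕ => 2 * w.length + 5) :=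
    UPoly.add (UPoly.mul (UPoly.const 2) (UPoly.length NPC.Poly.id)) (UPoly.const 5)
  exact UPoly.mul h h

/-- The decision of 3-colourability. -/
def dec3 (w : List ℕ) : Bool :=
  w.all (fun a => decide (w.count a = 2)) &&
    (List.range (mx w)).any (fun q => tst (q, List.range (mx w), w))

theorem poly_dec3 : NPC.Poly dec3 := by
  unfold dec3
  have hr : NPC.Poly (fun w : List ℕ => List.range (mx w)) := upoly_mx.range
  have hc : NPC.Poly (fun p : List ℕ × ℕ => p.1.count p.2) :=
    poly_count (NPC.Poly.fst NPC.Poly.id) (NPC.Poly.snd NPC.Poly.id)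
  have h1 : NPC.Poly (fun w : List ℕ => w.all (fun a => decide (w.count a = 2))) :=
    NPC.Poly.all (l := fun w : List ℕ => w) (p := fun w a => decide (w.count a = 2)) NPC.Poly.id
      (NPC.Poly.dec_eq hc (NPC.Poly.const 2))
  have h2 : NPC.Poly (fun w : List ℕ =>
      (List.range (mx w)).any (fun q => tst (q, List.range (mx w), w))) := by
    refine NPC.Poly.any (p := fun w q => tst (q, List.range (mx w), w)) hr ?_
    exact NPC.Poly.comp poly_tst (NPC.Poly.pair (NPC.Poly.snd NPC.Poly.id)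
      (NPC.Poly.pair (hr.comp (NPC.Poly.fst NPC.Poly.id)) (NPC.Poly.fst NPC.Poly.id)))
  exact NPC.Poly.and h1 h2

theorem tst_iff {q : ℕ} {w : List ℕ} (hw : IsChordDiagram w) (M : ℕ) :
    tst (q, List.range M, w) = true ↔ isV (q, List.range M, w) = true ∧
      ¬ (q + 1) ∣ run (ops w).2 (one : V ℕ) [] := by
  unfold tst
  cases h : isV (q, List.range M, w) with
  | false => simp
  | true =>
    obtain ⟨hp, hU⟩ := valid_of_isV h
    have : Fact (q + 1).Prime := ⟨hp⟩
    have h1 := runA_value (q := q) hU w (opn_eq_nil hw)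
    rw [run_cast] at h1
    simp only [cond_true, decide_eq_true_eq, true_and, ne_eq]
    rw [← Nat.dvd_iff_mod_eq_zero, ← ZMod.natCast_eq_zero_iff, h1, ZMod.natCast_eq_zero_iff]

theorem dec3_spec (w : List ℕ) :
    (IsChordDiagram w ∧ (circleGraph w).Colorable 3) ↔ dec3 w = true := by
  unfold dec3
  rw [Bool.and_eq_true]
  have h0 : IsChordDiagram w ↔ (w.all (fun a => decide (w.count a = 2)) = true) := by
    unfold IsChordDiagram
    simp only [List.all_eq_true, decide_eq_true_eq]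
  rw [← h0]
  refine and_congr_right fun hw => ?_
  rw [← value_iff hw, List.any_eq_true]
  constructor
  · intro hN
    have h1 := run_one_le (ops w).2 []
    rw [length_ops] at h1
    have h2 : run (ops w).2 (one : V ℕ) [] ≤ 2 ^ (2 * w.length) := by
      refine h1.trans ?_
      rw [pow_mul]
      gcongr
      norm_num
    obtain ⟨p, hp, hpN, _, hp2⟩ := H531R2.prime_choice 0 (2 * w.length) _ hN h2
    have h3 : p - 1 + 1 = p := by
      have := hp.two_le
      omega
    have h4 : p ≤ mx w := by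
      unfold mx
      rwa [zero_add, sq] at hp2
    refine ⟨p - 1, List.mem_range.2 (by omega), ?_⟩
    rw [tst_iff hw, h3]
    exact ⟨isV_range (by rwa [h3]) (by omega) w, hpN⟩
  · rintro ⟨q, _, hq⟩
    rw [tst_iff hw] at hq
    intro hN
    rw [hN] at hq
    exact hq.2 (dvd_zero _)

/-- 3-colourability of circle graphs, given by chord diagrams, is in `P`. -/
theorem threeCol_inPP :
    InPP (fun w : List ℕ => IsChordDiagram w ∧ (circleGraph w).Colorable 3) :=
  inPP_of poly_dec3 dec3_spec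

end Pool.Agent.H502_C3
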