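import Pool.Agent.H502_C3.Ops

/-!
# The functions of a word of operations span a space of polynomial dimension
-/

namespace Pool.Agent.H502_C3

variable {K : Type} [CommSemiring K]

/-- The number of the first `r` chords that are still open after the word. -/
def surv : ℕ → List Op → ℕ
  | r, [] => r
  | r, Op.P :: Z => surv r Z
  | r, Op.N i :: Z => if i < r then surv (r - 1) Z else surv r Z
  | r, Op.O _ :: Z => surv r Z

/-- The word relative to its beginning, when there are `r` open chords there. -/
def rel : ℕ → List Op → List Op
  | _, [] => []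
  | r, Op.P :: Z => Op.P :: rel r Z
  | r, Op.N i :: Z => if i < r then Op.O 0 :: rel (r - 1) Z else Op.N (i - r) :: rel r Z
  | r, Op.O c :: Z => Op.O c :: rel r Z

theorem length_rel (r : ℕ) (Z : List Op) : (rel r Z).length = Z.length := by
  induction Z generalizing r with
  | nil => rfl
  | cons o Z ih =>
    cases o with
    | P => simp [rel, ih]
    | N i => by_cases h : i < r <;> simp [rel, ih, h]
    | O c => simp [rel, ih]

theorem ok_rel (Z : List Op) : ∀ r m : ℕ, Ok (r + m) Z → Ok m (rel r Z) := by
  induction Z with
  | nil => intros; trivial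
  | cons o Z ih =>
    intro r m h
    cases o with
    | P => exact ih r (m + 1) h
    | N i =>
      obtain ⟨h1, h2⟩ := h
      by_cases hi : i < r
      · simp only [rel, if_pos hi, Ok]
        refine ih (r - 1) m ?_
        rwa [show r - 1 + m = r + m - 1 by omega]
      · simp only [rel, if_neg hi, Ok]
        refine ⟨by omega, ih r (m - 1) ?_⟩
        rwa [show r + (m - 1) = r + m - 1 by omega]
    | O c => exact ih r m h

/-- The function of the later chords, the colours of the first ones being fixed. -/
def slice (x : List (Fin 3)) : V K →ₗ[K] V K where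
  toFun f := fun y => f (x ++ y)
  map_add' _ _ := rfl
  map_smul' _ _ := rfl

theorem slice_apply (x : List (Fin 3)) (f : V K) (y : List (Fin 3)) : slice x f y = f (x ++ y) := rfl

theorem slice_P {f : V K} {r m : ℕ} (hf : Supp f (r + m)) {x : List (Fin 3)} (hx : x.length = r) :
    slice x (opP f) = opP (slice x f) := by
  ext y
  rw [slice_apply, opP_apply, opP_apply, slice_apply]
  by_cases hy : y = []
  · subst hy
    rw [if_pos rfl, List.append_nil]
    split_ifs with h0
    · rfl
    · by_contra hne
      have := hf _ hne
      rw [List.length_dropLast] at this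
      have h1 : 0 < x.length := List.length_pos_iff.2 h0
      omega
  · rw [if_neg hy, if_neg (by simp [hy]), List.dropLast_append_of_ne_nil hy]

theorem slice_N_ge {f : V K} {i : ℕ} {x : List (Fin 3)} (hi : x.length ≤ i) :
    slice x (opN i f) = opN (i - x.length) (slice x f) := by
  ext y
  rw [slice_apply, opN_apply, opN_apply]
  refine Finset.sum_congr rfl fun c _ => ?_
  have h1 : (x ++ y).drop i = y.drop (i - x.length) := by
    rw [List.drop_append, List.drop_eq_nil_of_le hi, List.nil_append]
  have h2 : (x ++ y).take i = x ++ y.take (i - x.length) := by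
    rw [List.take_append, List.take_of_length_le hi]
  rw [h1, h2, slice_apply, List.append_assoc]

theorem slice_N_lt {f : V K} {i : ℕ} {x : List (Fin 3)} (hi : i ≤ x.length) :
    slice x (opN i f) = ∑ c : Fin 3, (if c ∈ x.drop i then (0 : K) else 1) •
      opO c (slice (x.take i ++ c :: x.drop i) f) := by
  ext y
  rw [slice_apply, opN_apply, Finset.sum_apply]
  refine Finset.sum_congr rfl fun c _ => ?_
  have h1 : (x ++ y).drop i = x.drop i ++ y := List.drop_append_of_le_length hi
  have h2 : (x ++ y).take i = x.take i := List.take_append_of_le_length hi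
  rw [h1, h2, Pi.smul_apply, opO_apply, slice_apply, smul_eq_mul]
  by_cases h3 : c ∈ x.drop i
  · simp [h3]
  · by_cases h4 : c ∈ y
    · simp [h4]
    · simp [h3, h4]

theorem slice_run : ∀ (Z : List Op) (r m : ℕ) (Y : List Op) (f : V K), (∀ c, Op.O c ∉ Z) →
    Ok (r + m) Z → Supp f (r + m) → (∀ x : List (Fin 3), x.length = r → slice x f ∈ S K Y) →
    ∀ x : List (Fin 3), x.length = surv r Z → slice x (run Z f) ∈ S K (Y ++ rel r Z) := by
  intro Z
  induction Z with
  | nil =>
    intro r m Y f _ _ _ h x hx
    simpa [rel] using h x hx
  | cons o Z ih =>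
    intro r m Y f hO hok hs h x hx
    have hO' : ∀ c, Op.O c ∉ Z := fun c hc => hO c (List.mem_cons_of_mem _ hc)
    cases o with
    | P =>
      have := ih r (m + 1) (Y ++ [Op.P]) (opP f) hO' hok hs.P (fun x hx => by
        rw [slice_P hs hx]
        exact act_mem_S (h x hx) Op.P Op.P rfl) x hx
      rw [List.append_assoc] at this
      exact this
    | N i =>
      obtain ⟨h1, h2⟩ := hok
      by_cases hi : i < r
      · simp only [surv, if_pos hi] at hx
        obtain ⟨r, rfl⟩ : ∃ k, r = k + 1 := ⟨r - 1, by omega⟩
        have hs' : Supp f (r + m + 1) := by rwa [show r + m + 1 = r + 1 + m by omega]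
        have := ih r m (Y ++ [Op.O 0]) (opN i f) hO' (by
          rwa [show r + m = r + 1 + m - 1 by omega]) (hs'.N i) (fun x hx => by
          rw [slice_N_lt (by omega)]
          refine Submodule.sum_mem _ fun c _ => Submodule.smul_mem _ _ ?_
          refine act_mem_S (h _ ?_) (Op.O c) (Op.O 0) rfl
          rw [length_ins, hx]) x hx
        rw [List.append_assoc] at this
        have e : rel (r + 1) (Op.N i :: Z) = Op.O 0 :: rel r Z := by
          simp only [rel, if_pos hi, Nat.add_sub_cancel]
        rw [e]
        exact this
      · simp only [surv, if_neg hi] at hx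
        obtain ⟨m, rfl⟩ : ∃ k, m = k + 1 := ⟨m - 1, by omega⟩
        have := ih r m (Y ++ [Op.N (i - r)]) (opN i f) hO' h2 (hs.N i) (fun x hx => by
          rw [slice_N_ge (by omega), hx]
          exact act_mem_S (h _ hx) (Op.N _) (Op.N _) rfl) x hx
        rw [List.append_assoc] at this
        have e : rel r (Op.N i :: Z) = Op.N (i - r) :: rel r Z := by
          simp only [rel, if_neg hi]
        rw [e]
        exact this
    | O c => exact absurd (List.mem_cons_self) (hO c)

/-- The first `r` chords do not have the colour `α`. -/
def Av (α : Fin 3) (r : ℕ) (f : V K) : Prop := ∀ cs, f cs ≠ 0 → r ≤ cs.length ∧ α ∉ cs.take r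

theorem Av.run {α : Fin 3} : ∀ (Z : List Op) (r n : ℕ) (f : V K), (∀ c, Op.O c ∉ Z) →
    Ok n Z → Supp f n → Av α r f → Av α (surv r Z) (run Z f) := by
  intro Z
  induction Z with
  | nil => intro r n f _ _ _ h; exact h
  | cons o Z ih =>
    intro r n f hO hok hs h
    have hO' : ∀ c, Op.O c ∉ Z := fun c hc => hO c (List.mem_cons_of_mem _ hc)
    cases o with
    | P =>
      refine ih r (n + 1) (opP f) hO' hok hs.P ?_
      intro cs hcs
      rw [opP_apply] at hcs
      by_cases h0 : cs = []
      · simp [h0] at hcs
      · rw [if_neg h0] at hcs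
        obtain ⟨h1, h2⟩ := h _ hcs
        rw [List.length_dropLast] at h1
        refine ⟨by omega, ?_⟩
        rwa [List.dropLast_eq_take, List.take_take, min_eq_left h1] at h2
    | N i =>
      obtain ⟨h1, h2⟩ := hok
      obtain ⟨n, rfl⟩ : ∃ k, n = k + 1 := ⟨n - 1, by omega⟩
      by_cases hi : i < r
      · simp only [surv, if_pos hi]
        refine ih (r - 1) n (opN i f) hO' h2 (hs.N i) ?_
        intro cs hcs
        obtain ⟨c, _, hc⟩ := opN_ne_zero hcs
        obtain ⟨h3, h4⟩ := h _ hc
        rw [length_ins] at h3
        refine ⟨by omega, fun hmem => h4 ?_⟩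
        have e1 : (cs.take i).length = i := by rw [List.length_take]; omega
        have h5 : (cs.take i ++ c :: cs.drop i).take r =
            cs.take i ++ c :: (cs.drop i).take (r - 1 - i) := by
          rw [List.take_append, e1, List.take_of_length_le (by omega),
            show r - i = (r - 1 - i) + 1 by omega, List.take_succ_cons]
        have h6 : cs.take (r - 1) = cs.take i ++ (cs.drop i).take (r - 1 - i) := by
          rw [← List.take_add]
          congr 1
          omega
        rw [h5]
        rw [h6] at hmem
        simp only [List.mem_append, List.mem_cons] at hmem ⊢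
        tauto
      · simp only [surv, if_neg hi]
        refine ih r n (opN i f) hO' h2 (hs.N i) ?_
        intro cs hcs
        have hlen : cs.length = n := hs.N i _ hcs
        obtain ⟨c, _, hc⟩ := opN_ne_zero hcs
        obtain ⟨h3, h4⟩ := h _ hc
        refine ⟨by omega, ?_⟩
        rw [List.take_append, List.take_take] at h4
        have e1 : (cs.take i).length = i := by rw [List.length_take]; omega
        rw [e1, show r - i = 0 by omega, List.take_zero, List.append_nil,
          min_eq_left (by omega)] at h4
        exact h4
    | O c => exact absurd (List.mem_cons_self) (hO c)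

/-- The colour different from two given ones. -/
theorem exists_third (α β : Fin 3) (h : α ≠ β) :
    ∃ γ : Fin 3, ∀ c : Fin 3, c ≠ α → c ≠ β → c = γ := by
  revert α β
  decide

/-- Two closings with different colours `α`, `β`: the function after them is determined, through a
linear map, by an element of the space of the block between them. -/
theorem factor (m : ℕ) (α β : Fin 3) (hαβ : α ≠ β) (Z₁ Z₂ : List Op) (hO : ∀ c, Op.O c ∉ Z₁)
    (hok : Ok m Z₁) : ∃ Λ : V K →ₗ[K] V K, ∀ f : V K, Supp f m →
      run (Op.O α :: (Z₁ ++ Op.O β :: Z₂)) f ∈ (S K (rel m Z₁)).map Λ := by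
  obtain ⟨γ, hγ⟩ := exists_third α β hαβ
  set r := surv m Z₁ with hr
  let Ψ : V K →ₗ[K] V K :=
    { toFun := fun φ cs => if cs.take r = List.replicate r γ ∧ β ∉ cs then φ (cs.drop r) else 0
      map_add' := fun f g => by
        ext cs
        by_cases h : cs.take r = List.replicate r γ ∧ β ∉ cs <;> simp [h]
      map_smul' := fun a f => by
        ext cs
        by_cases h : cs.take r = List.replicate r γ ∧ β ∉ cs <;> simp [h] }
  refine ⟨(run Z₂).comp Ψ, fun f hf => ?_⟩
  have hs2 : Supp (opO α f) m := hf.O α
  set g := run Z₁ (opO α f) with hg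
  have hav0 : Av α m (opO α f) := by
    intro cs hcs
    rw [opO_apply] at hcs
    split_ifs at hcs with h
    · exact absurd rfl hcs
    · exact ⟨(hf _ hcs).ge, fun h' => h (List.mem_of_mem_take h')⟩
  have hav : Av α r g := Av.run Z₁ m m _ hO hok hs2 hav0
  have hsl : slice (List.replicate r γ) g ∈ S K (rel m Z₁) := by
    have := slice_run Z₁ m 0 [] (opO α f) hO hok hs2 (fun x hx => ?_) (List.replicate r γ)
      (by rw [List.length_replicate])
    · simpa using this
    · have h1 : slice x (opO α f) = (opO α f x) • (one : V K) := by
        ext y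
        rw [slice_apply, Pi.smul_apply, smul_eq_mul]
        by_cases hy : y = []
        · simp [hy, one]
        · have : opO α f (x ++ y) = 0 := by
            by_contra hne
            have h2 := hs2 _ hne
            rw [List.length_append] at h2
            have h3 : 0 < y.length := List.length_pos_iff.2 hy
            omega
          simp [this, one, hy]
      rw [h1]
      exact Submodule.smul_mem _ _ (run_mem_S [])
  refine ⟨slice (List.replicate r γ) g, hsl, ?_⟩
  rw [run_cons, run_append, run_cons]
  change run Z₂ (Ψ (slice (List.replicate r γ) g)) = run Z₂ (opO β g)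
  congr 1
  ext cs
  change (if cs.take r = List.replicate r γ ∧ β ∉ cs then slice (List.replicate r γ) g (cs.drop r)
    else 0) = _
  rw [opO_apply]
  by_cases hβ : β ∈ cs
  · simp [hβ]
  · rw [if_neg hβ]
    by_cases ht : cs.take r = List.replicate r γ
    · rw [if_pos ⟨ht, hβ⟩, slice_apply, ← ht, List.take_append_drop]
    · rw [if_neg (fun h => ht h.1)]
      by_contra hne
      obtain ⟨h1, h2⟩ := hav cs (fun h => hne h.symm)
      refine ht ?_
      rw [List.eq_replicate_iff]
      refine ⟨by rw [List.length_take]; omega, fun c hc => hγ c ?_ ?_⟩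
      · rintro rfl; exact h2 hc
      · rintro rfl; exact hβ (List.mem_of_mem_take hc)

/-! ### Sets contained in the span of few functions -/

/-- The set is contained in the span of at most `N` functions. -/
def Gen (A : Set (V K)) (N : ℕ) : Prop :=
  ∃ t : Finset (V K), t.card ≤ N ∧ A ⊆ (Submodule.span K (t : Set (V K)) : Set (V K))

theorem Gen.mono {A B : Set (V K)} {N M : ℕ} (h : Gen B N) (hA : A ⊆ B) (hN : N ≤ M) : Gen A M := by
  obtain ⟨t, h1, h2⟩ := h
  exact ⟨t, h1.trans hN, hA.trans h2⟩

theorem Gen.singleton (f : V K) : Gen {f} 1 :=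
  ⟨{f}, by simp, by
    rintro _ rfl
    exact Submodule.subset_span (by simp)⟩

theorem Gen.empty : Gen (∅ : Set (V K)) 0 := ⟨∅, by simp, by simp⟩

theorem Gen.union {A B : Set (V K)} {N M : ℕ} (h : Gen A N) (h' : Gen B M) :
    Gen (A ∪ B) (N + M) := by
  classical
  obtain ⟨t, h1, h2⟩ := h
  obtain ⟨s, h3, h4⟩ := h'
  refine ⟨t ∪ s, (Finset.card_union_le _ _).trans (add_le_add h1 h3), ?_⟩
  rw [Finset.coe_union]
  rintro f (hf | hf)
  · exact Submodule.span_mono Set.subset_union_left (h2 hf)
  · exact Submodule.span_mono Set.subset_union_right (h4 hf)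

theorem Gen.biUnion {ι : Type} (s : Finset ι) (A : ι → Set (V K)) (N : ι → ℕ)
    (h : ∀ i ∈ s, Gen (A i) (N i)) : Gen (⋃ i ∈ s, A i) (∑ i ∈ s, N i) := by
  classical
  induction s using Finset.induction_on with
  | empty => simpa using Gen.empty
  | insert a s ha ih =>
    rw [Finset.sum_insert ha, Finset.set_biUnion_insert]
    exact (h a (Finset.mem_insert_self a s)).union
      (ih fun i hi => h i (Finset.mem_insert_of_mem hi))

theorem Gen.iUnion {ι : Type} [Fintype ι] (A : ι → Set (V K)) (N : ℕ)
    (h : ∀ i, Gen (A i) N) : Gen (⋃ i, A i) (Fintype.card ι * N) := by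
  have := Gen.biUnion Finset.univ A (fun _ => N) fun i _ => h i
  simpa using this

theorem Gen.map {A : Set (V K)} {N : ℕ} (h : Gen A N) (Λ : V K →ₗ[K] V K) :
    Gen (((Submodule.span K A).map Λ : Submodule K (V K)) : Set (V K)) N := by
  classical
  obtain ⟨t, h1, h2⟩ := h
  refine ⟨t.image Λ, Finset.card_image_le.trans h1, ?_⟩
  have h3 : (Submodule.span K A).map Λ ≤ Submodule.span K (t.image Λ : Set (V K)) := by
    rw [Finset.coe_image, ← Submodule.map_span]
    exact Submodule.map_mono (Submodule.span_le.2 h2)
  exact h3

/-- The functions of the words of a given shape. -/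
def fam (K : Type) [CommSemiring K] (Z : List Op) : Set (V K) :=
  {f | ∃ Z' : List Op, Z'.map sh = Z.map sh ∧ f = run Z' one}

theorem S_eq (Z : List Op) : S K Z = Submodule.span K (fam K Z) := rfl

/-! ### Blocks -/

/-- The word with given blocks after the closings with given colours. -/
def fill : List (List Op) → List (Fin 3) → List Op
  | B :: Bs, c :: cs => Op.O c :: (B ++ fill Bs cs)
  | _, _ => []

theorem fill_append : ∀ (Bs : List (List Op)) (u v : List (Fin 3)), u.length ≤ Bs.length →
    fill Bs (u ++ v) = fill (Bs.take u.length) u ++ fill (Bs.drop u.length) v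
  | Bs, [], v, _ => by cases Bs <;> simp [fill]
  | [], c :: u, v, h => by simp at h
  | B :: Bs, c :: u, v, h => by
    simp only [List.length_cons, Nat.add_le_add_iff_right] at h
    simp [fill, fill_append Bs u v h]

theorem decomp (Z : List Op) : ∃ (B : List Op) (Bs : List (List Op)), (∀ c, Op.O c ∉ B) ∧
    (∀ B' ∈ Bs, ∀ c, Op.O c ∉ B') ∧
    Z.length = B.length + (Bs.map (fun B' => B'.length + 1)).sum ∧
    ∀ Z' : List Op, Z'.map sh = Z.map sh → ∃ u : List (Fin 3), u.length = Bs.length ∧
      Z' = B ++ fill Bs u := by
  induction Z with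
  | nil =>
    refine ⟨[], [], by simp, by simp, by simp, fun Z' h => ⟨[], rfl, ?_⟩⟩
    simpa [fill] using h
  | cons o Z ih =>
    obtain ⟨B, Bs, h1, h2, h3, h4⟩ := ih
    cases o with
    | P =>
      refine ⟨Op.P :: B, Bs, ?_, h2, ?_, ?_⟩
      · intro c hc
        rcases List.mem_cons.1 hc with h | h
        · exact absurd h (by simp)
        · exact h1 c h
      · simp only [List.length_cons]; omega
      · intro Z' h
        cases Z' with
        | nil => simp at h
        | cons o' Z' =>
          rw [List.map_cons, List.map_cons, List.cons.injEq] at h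
          obtain ⟨u, hu, rfl⟩ := h4 Z' h.2
          refine ⟨u, hu, ?_⟩
          cases o' <;> simp [sh] at h ⊢
    | N i =>
      refine ⟨Op.N i :: B, Bs, ?_, h2, ?_, ?_⟩
      · intro c hc
        rcases List.mem_cons.1 hc with h | h
        · exact absurd h (by simp)
        · exact h1 c h
      · simp only [List.length_cons]; omega
      · intro Z' h
        cases Z' with
        | nil => simp at h
        | cons o' Z' =>
          rw [List.map_cons, List.map_cons, List.cons.injEq] at h
          obtain ⟨u, hu, rfl⟩ := h4 Z' h.2
          refine ⟨u, hu, ?_⟩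
          cases o' <;> simp [sh] at h ⊢
          exact h.1
    | O c =>
      refine ⟨[], B :: Bs, by simp, ?_, ?_, ?_⟩
      · intro B' hB'
        rcases List.mem_cons.1 hB' with rfl | h
        · exact h1
        · exact h2 B' h
      · simp only [List.length_cons, List.map_cons, List.sum_cons, List.length_nil]; omega
      · intro Z' h
        cases Z' with
        | nil => simp at h
        | cons o' Z' =>
          rw [List.map_cons, List.map_cons, List.cons.injEq] at h
          obtain ⟨u, hu, rfl⟩ := h4 Z' h.2
          cases o' with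
          | P => simp [sh] at h
          | N i => simp [sh] at h
          | O d => exact ⟨d :: u, by simp [hu], by simp [fill]⟩

/-- The last change of colour. -/
theorem last_change (u : List (Fin 3)) (hu : u ≠ []) :
    (∃ β, u = List.replicate u.length β) ∨
      ∃ (v : List (Fin 3)) (α β : Fin 3) (k : ℕ), α ≠ β ∧
        u = v ++ α :: β :: List.replicate k β := by
  induction u with
  | nil => exact absurd rfl hu
  | cons c u ih =>
    by_cases h0 : u = []
    · subst h0
      exact Or.inl ⟨c, rfl⟩
    · rcases ih h0 with ⟨β, h⟩ | ⟨v, α, β, k, h1, h2⟩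
      · by_cases hc : c = β
        · subst hc
          left
          refine ⟨c, ?_⟩
          rw [List.length_cons, List.replicate_succ, ← h]
        · right
          obtain ⟨k, hk⟩ : ∃ k, u.length = k + 1 :=
            ⟨u.length - 1, by have := List.length_pos_iff.2 h0; omega⟩
          refine ⟨[], c, β, k, hc, ?_⟩
          rw [h, hk, List.replicate_succ]
          rfl
      · right
        exact ⟨c :: v, α, β, k, h1, by rw [h2]; rfl⟩

end Pool.Agent.H502_C3
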