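import Pool.Agent.H502_C3.Alg

/-!
# The sweep
-/

namespace Pool.Agent.H502_C3

/-- One step of the algorithm: the state consists of the labels of the open chords, the layers, and
the coefficients of the current function with respect to the states of the first layer. -/
def stepA (q : ℕ) (U : List ℕ) (s : List ℕ × List (List (List ℕ)) × List ℕ) (a : ℕ) :
    List ℕ × List (List (List ℕ)) × List ℕ :=
  if a ∈ s.1 then
    (s.1.erase a, (closeRec q U (s.1.idxOf a) s.2.1).1,
      mulR q (nst (closeRec q U (s.1.idxOf a) s.2.1).1) s.2.2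
        (closeRec q U (s.1.idxOf a) s.2.1).2)
  else (s.1 ++ [a], s.2.1 ++ [[[1, 1, 1]]], s.2.2)

/-- The algorithm for one prime `q + 1`. -/
def runA (q : ℕ) (U : List ℕ) (w : List ℕ) : List ℕ × List (List (List ℕ)) × List ℕ :=
  w.foldl (stepA q U) ([], [], [1])

/-- The operations of a word. -/
def opStep (s : List ℕ × List Op) (a : ℕ) : List ℕ × List Op :=
  if a ∈ s.1 then (s.1.erase a, s.2 ++ [Op.N (s.1.idxOf a)]) else (s.1 ++ [a], s.2 ++ [Op.P])

/-- The open labels and the operations of a word. -/
def ops (w : List ℕ) : List ℕ × List Op := w.foldl opStep ([], [])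

section Spec

variable {q : ℕ}

theorem stf_cons (L : List (List ℕ)) (Ls : List (List (List ℕ))) (s : ℕ) :
    stf q (L :: Ls) s = lift (nst Ls) (stf q Ls) (ev q (L.getD s [])) := rfl

theorem good_cons (L : List (List ℕ)) (Ls : List (List (List ℕ))) (Z : List Op)
    (Zs : List (List Op)) : Good q (L :: Ls) (Z :: Zs) ↔ Ind L.length (stf q (L :: Ls)) ∧
      (∀ s < L.length, stf q (L :: Ls) s ∈ S (ZMod (q + 1)) Z) ∧ Ok 0 Z ∧
      opens 0 Z = Ls.length + 1 ∧ (∀ v ∈ L, v.length = 3 * nst Ls) ∧ Good q Ls Zs := Iff.rfl

theorem nst_push (Ls : List (List (List ℕ))) : nst (Ls ++ [[[1, 1, 1]]]) = nst Ls := by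
  cases Ls <;> rfl

theorem stf_push : ∀ (Ls : List (List (List ℕ))) (s : ℕ),
    stf q (Ls ++ [[[1, 1, 1]]]) s = opP (stf q Ls s) := by
  intro Ls
  induction Ls with
  | nil =>
    intro s
    ext cs
    rw [opP_apply]
    change lift 1 (stf q []) (ev q ([[1, 1, 1]].getD s [])) cs = _
    cases cs with
    | nil => simp
    | cons c cs =>
      rw [lift_cons, Finset.sum_range_one, mul_one, add_zero, if_neg (by simp)]
      have h1 : stf q [] 0 = one := rfl
      rw [h1]
      by_cases hs : s = 0
      · subst hs
        rw [h1]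
        have h2 : ev q (([[1, 1, 1]] : List (List ℕ)).getD 0 []) (c : ℕ) = 1 := by
          rw [ev_apply]
          fin_cases c <;> simp
        rw [h2, one_mul]
        cases cs with
        | nil => simp [one]
        | cons d cs => simp [one]
      · have h2 : ([[1, 1, 1]] : List (List ℕ)).getD s [] = [] := by
          rw [List.getD_eq_default]
          simp
          omega
        have h3 : stf q [] s = 0 := by simp [stf, hs]
        rw [h2, h3, ev_of_le (by simp), zero_mul]
        rfl
  | cons L Ls ih =>
    intro s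
    ext cs
    rw [opP_apply]
    rw [List.cons_append, stf_cons, stf_cons, nst_push]
    cases cs with
    | nil => simp
    | cons c cs =>
      rw [lift_cons, if_neg (by simp)]
      cases cs with
      | nil =>
        simp only [List.dropLast_singleton, lift_nil]
        refine Finset.sum_eq_zero fun t _ => ?_
        rw [ih, opP_apply, if_pos rfl, mul_zero]
      | cons d cs =>
        rw [List.dropLast_cons_of_ne_nil (by simp), lift_cons]
        refine Finset.sum_congr rfl fun t _ => ?_
        rw [ih, opP_apply, if_neg (by simp)]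

theorem opP_inj {f : V (ZMod (q + 1))} (h : opP f = 0) : f = 0 := by
  ext cs
  have h1 := congrFun h (cs ++ [0])
  rw [opP_apply, if_neg (by simp), List.dropLast_concat] at h1
  exact h1

theorem ind_push {D : ℕ} {g : ℕ → V (ZMod (q + 1))} (h : Ind D g) :
    Ind D (fun s => opP (g s)) := by
  intro a ha
  refine h a (opP_inj ?_)
  rw [map_sum, ← ha]
  exact Finset.sum_congr rfl fun s _ => by rw [map_smul]

theorem good_push [Fact (q + 1).Prime] : ∀ (Ls : List (List (List ℕ))) (Zs : List (List Op)),
    Good q Ls Zs → Good q (Ls ++ [[[1, 1, 1]]]) (Zs.map (· ++ [Op.P]) ++ [[Op.P]]) := by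
  intro Ls
  induction Ls with
  | nil =>
    intro Zs h
    cases Zs with
    | cons Z Zs => exact absurd h (by simp [Good])
    | nil =>
      have e : ∀ s < 1, stf q [[[1, 1, 1]]] s = opP one := by
        intro s hs
        have hs0 : s = 0 := by omega
        subst hs0
        exact stf_push [] 0
      refine ⟨?_, ?_, trivial, rfl, ?_, trivial⟩
      · intro a ha s hs
        have hs0 : s = 0 := by
          simp only [List.length_singleton] at hs
          omega
        subst hs0
        simp only [List.length_singleton, Finset.sum_range_one] at ha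
        rw [e 0 (by omega)] at ha
        have h1 := congrFun ha [0]
        simpa [opP_apply, one] using h1
      · intro s hs
        simp only [List.length_singleton] at hs
        have h1 := act_mem_S (run_mem_S (K := ZMod (q + 1)) []) Op.P Op.P rfl
        have h2 : stf q ([] ++ [[[1, 1, 1]]]) s = opP one := e s hs
        rw [show ([[[1, 1, 1]]] : List (List (List ℕ))) = [] ++ [[[1, 1, 1]]] from rfl, h2]
        exact h1
      · intro v hv
        rw [List.mem_singleton] at hv
        subst hv
        rfl
  | cons L Ls ih =>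
    intro Zs h
    cases Zs with
    | nil => exact absurd h (by simp [Good])
    | cons Z Zs =>
      obtain ⟨hind, hS, hok, hopen, hlen, hgood⟩ := h
      have e : stf q (L :: (Ls ++ [[[1, 1, 1]]])) = fun s => opP (stf q (L :: Ls) s) := by
        funext s
        rw [← stf_push (L :: Ls) s, List.cons_append]
      rw [List.cons_append, List.map_cons, List.cons_append, good_cons]
      refine ⟨?_, ?_, ?_, ?_, ?_, ih Zs hgood⟩
      · rw [e]
        exact ind_push hind
      · intro s hs
        rw [e]
        exact act_mem_S (hS s hs) Op.P Op.P rfl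
      · rw [ok_append]
        exact ⟨hok, trivial⟩
      · rw [opens_append, hopen, List.length_append]
        rfl
      · intro v hv
        rw [nst_push]
        exact hlen v hv

/-- The number of states of a layer is polynomially bounded. -/
theorem card_layer [Fact (q + 1).Prime] {k : ℕ} : ∀ (Ls : List (List (List ℕ)))
    (Zs : List (List Op)), Good q Ls Zs → (∀ Z ∈ Zs, Z.length ≤ k) →
    ∀ L ∈ Ls, L.length ≤ 12 * (k + 1) ^ 7 := by
  intro Ls
  induction Ls with
  | nil => simp
  | cons L Ls ih =>
    intro Zs h hk
    cases Zs with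
    | nil => exact absurd h (by simp [Good])
    | cons Z Zs =>
      obtain ⟨hind, hS, hok, hopen, hlen, hgood⟩ := h
      intro L' hL'
      rcases List.mem_cons.1 hL' with rfl | hL'
      · obtain ⟨t, ht, hsub⟩ := gen_S (K := ZMod (q + 1)) Z hok
        have hli : LinearIndependent (ZMod (q + 1))
            (fun i : Fin L'.length => stf q (L' :: Ls) i) := by
          rw [Fintype.linearIndependent_iff]
          intro b hb i
          have h1 := hind (fun j => if hj : j < L'.length then b ⟨j, hj⟩ else 0) (by
            rw [Finset.sum_range]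
            rw [← hb]
            exact Finset.sum_congr rfl fun j _ => by rw [dif_pos j.2]) i i.2
          rwa [dif_pos i.2] at h1
        have h2 : Set.range (fun i : Fin L'.length => stf q (L' :: Ls) i) ≤
            (Submodule.span (ZMod (q + 1)) (t : Set (V (ZMod (q + 1)))) :
              Set (V (ZMod (q + 1)))) := by
          rintro _ ⟨i, rfl⟩
          exact hsub (hS i i.2)
        have h3 := linearIndependent_le_span' _ hli (t : Set (V (ZMod (q + 1)))) h2
        have h4 : L'.length ≤ t.card := by
          simpa using h3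
        have h5 : Z.length ≤ k := hk Z (by simp)
        calc L'.length ≤ t.card := h4
          _ ≤ 12 * (Z.length + 1) ^ 7 := ht
          _ ≤ 12 * (k + 1) ^ 7 := by gcongr
      · exact ih Zs hgood (fun Z hZ => hk Z (List.mem_cons_of_mem _ hZ)) L' hL'

theorem length_closeZ_mem {k : ℕ} : ∀ (Zs : List (List Op)) (i : ℕ), (∀ Z ∈ Zs, Z.length ≤ k) →
    ∀ Z ∈ closeZ i Zs, Z.length ≤ k + 1 := by
  intro Zs
  induction Zs with
  | nil =>
    intro i _ Z hZ
    cases i <;> simp [closeZ] at hZ
  | cons Z₀ Zs ih =>
    intro i hk Z hZ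
    cases i with
    | zero =>
      simp only [closeZ, List.mem_map] at hZ
      obtain ⟨Z', hZ', rfl⟩ := hZ
      have := hk Z' (List.mem_cons_of_mem _ hZ')
      simp
      omega
    | succ i =>
      simp only [closeZ, List.mem_cons] at hZ
      rcases hZ with rfl | hZ
      · have := hk Z₀ (by simp)
        simp
        omega
      · exact ih i (fun Z hZ => hk Z (List.mem_cons_of_mem _ hZ)) Z hZ

/-- The invariant of the sweep after `k` steps. -/
def Inv (q k : ℕ) (s : List ℕ × List (List (List ℕ)) × List ℕ) (o : List ℕ × List Op) : Prop :=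
  s.1 = o.1 ∧ s.1.length ≤ k ∧ ∃ Zs, Good q s.2.1 Zs ∧ s.2.1.length = s.1.length ∧
    (∀ Z ∈ Zs, Z.length ≤ k) ∧ s.2.2.length = nst s.2.1 ∧
    ∑ i ∈ Finset.range (nst s.2.1), ev q s.2.2 i • stf q s.2.1 i = run o.2 one

theorem inv_init : Inv q 0 ([], [], [1]) ([], []) := by
  refine ⟨rfl, le_rfl, [], trivial, rfl, by simp, rfl, ?_⟩
  have h1 : stf q [] 0 = one := rfl
  simp only [nst, Finset.sum_range_one, h1, run_nil]
  rw [ev_apply]
  simp

theorem inv_step [Fact (q + 1).Prime] {U : List ℕ} (hU : ∀ x < q + 1, x ∈ U) {k : ℕ}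
    {s : List ℕ × List (List (List ℕ)) × List ℕ} {o : List ℕ × List Op} (h : Inv q k s o)
    (a : ℕ) : Inv q (k + 1) (stepA q U s a) (opStep o a) := by
  obtain ⟨h1, h1', Zs, h2, h3, h4, h5, h6⟩ := h
  unfold stepA opStep
  rw [← h1]
  by_cases ha : a ∈ s.1
  · rw [if_pos ha, if_pos ha]
    have hi : s.1.idxOf a < s.2.1.length := by
      rw [h3]
      exact List.idxOf_lt_length_of_mem ha
    obtain ⟨g1, g2, g3, g4⟩ := closeRec_spec hU s.2.1 Zs (s.1.idxOf a) h2 hi
    set r := closeRec q U (s.1.idxOf a) s.2.1 with hr
    refine ⟨rfl, ?_, closeZ (s.1.idxOf a) Zs, g1, ?_, length_closeZ_mem Zs _ h4,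
      length_mulR _ _ _, ?_⟩
    · have := List.length_erase_of_mem ha
      simp only
      omega
    · have := List.length_erase_of_mem ha
      simp only
      omega
    · simp only
      rw [run_append, ← h6]
      change _ = opN (s.1.idxOf a) _
      rw [map_sum]
      have h7 : ∀ t ∈ Finset.range (nst s.2.1),
          opN (s.1.idxOf a) (ev q s.2.2 t • stf q s.2.1 t) =
          ∑ u ∈ Finset.range (nst r.1), (ev q s.2.2 t * ev q (r.2.getD t []) u) • stf q r.1 u := by
        intro t ht
        rw [map_smul, g4 t (Finset.mem_range.1 ht), Finset.smul_sum]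
        exact Finset.sum_congr rfl fun u _ => by rw [smul_smul]
      rw [Finset.sum_congr rfl h7, Finset.sum_comm]
      refine Finset.sum_congr rfl fun u hu => ?_
      rw [ev_mulR (by rw [g3, h5]) (Finset.mem_range.1 hu), Finset.sum_smul, h5]
  · rw [if_neg ha, if_neg ha]
    refine ⟨rfl, by simp; omega, Zs.map (· ++ [Op.P]) ++ [[Op.P]], good_push _ _ h2, by simp [h3],
      ?_, ?_, ?_⟩
    · intro Z hZ
      rw [List.mem_append, List.mem_map, List.mem_singleton] at hZ
      rcases hZ with ⟨Z', hZ', rfl⟩ | rfl
      · have := h4 Z' hZ'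
        simp
        omega
      · simp
    · simp only [nst_push]
      exact h5
    · simp only [nst_push]
      rw [run_append, ← h6]
      change _ = opP _
      rw [map_sum]
      exact Finset.sum_congr rfl fun t _ => by rw [map_smul, stf_push]

theorem inv_foldl [Fact (q + 1).Prime] {U : List ℕ} (hU : ∀ x < q + 1, x ∈ U) :
    ∀ (w : List ℕ) (k : ℕ) (s : List ℕ × List (List (List ℕ)) × List ℕ) (o : List ℕ × List Op),
    Inv q k s o → Inv q (k + w.length) (w.foldl (stepA q U) s) (w.foldl opStep o) := by
  intro w
  induction w with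
  | nil => intro k s o h; exact h
  | cons a w ih =>
    intro k s o h
    have := ih (k + 1) _ _ (inv_step hU h a)
    rw [List.length_cons, show k + (w.length + 1) = k + 1 + w.length by omega]
    exact this

theorem inv_runA [Fact (q + 1).Prime] {U : List ℕ} (hU : ∀ x < q + 1, x ∈ U) (w : List ℕ) :
    Inv q w.length (runA q U w) (ops w) := by
  have := inv_foldl hU w 0 _ _ (inv_init (q := q))
  rwa [zero_add] at this

/-- The algorithm computes the value of the whole word modulo `q + 1`. -/
theorem runA_value [Fact (q + 1).Prime] {U : List ℕ} (hU : ∀ x < q + 1, x ∈ U) (w : List ℕ)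
    (hw : (ops w).1 = []) :
    (((runA q U w).2.2.getD 0 0 : ℕ) : ZMod (q + 1)) = run (ops w).2 (one : V (ZMod (q + 1))) [] := by
  obtain ⟨h1, h1', Zs, h2, h3, h4, h5, h6⟩ := inv_runA hU w
  have h7 : (runA q U w).2.1 = [] := by
    rw [h1, hw] at h3
    exact List.length_eq_zero_iff.1 h3
  rw [h7] at h6
  have h8 := congrFun h6 []
  have h9 : stf q [] 0 = one := rfl
  simp only [nst, Finset.sum_range_one, h9, Pi.smul_apply, smul_eq_mul] at h8
  rw [← h8]
  simp [one, ev_apply]

end Spec

end Pool.Agent.H502_C3
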